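import Mathlib

/-!
# The game of googol with few values

A randomized online stopping algorithm on a random set of `n` of the numbers `1, ..., N`, presented
in uniformly random order.
-/

set_option autoImplicit false

namespace Pool.Agent.V11237.Googol

open Finset

/-- A randomized online algorithm: `A h` is the probability with which it stops at the last element
of the history `h` (the list of the values seen so far), given that it has not stopped before. -/
def IsAlgorithm (A : List ℕ → ℝ) : Prop := ∀ h, 0 ≤ A h ∧ A h ≤ 1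

/-- The probability that the algorithm `A` stops on the value `M` when it has seen the history `h`
without stopping and the values in the list `l` are still to come, in this order. -/
def winOn (A : List ℕ → ℝ) (M : ℕ) : List ℕ → List ℕ → ℝ
  | _, [] => 0
  | h, x :: l =>
    A (h ++ [x]) * (if x = M then 1 else 0) + (1 - A (h ++ [x])) * winOn A M (h ++ [x]) l

/-- `D` is a probability distribution on the `n`-element subsets of `{1, ..., N}`. -/
def IsInstance (n N : ℕ) (D : Finset ℕ → ℝ) : Prop :=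
  (∀ S, 0 ≤ D S) ∧ ∑ S ∈ (Finset.Icc 1 N).powersetCard n, D S = 1

/-- The orderings of `S`: the lists that enumerate the elements of `S` without repetition. -/
def orderings (S : Finset ℕ) : Finset (List ℕ) := ⟨S.val.lists, Multiset.lists_nodup_finset S⟩

/-- The probability that `A` wins (stops on the maximum) if the set `S` is drawn from `D` and its `n`
elements are presented in uniformly random order; `S.sup id` is the maximum of `S`. -/
noncomputable def winProb (n N : ℕ) (D : Finset ℕ → ℝ) (A : List ℕ → ℝ) : ℝ :=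
  ∑ S ∈ (Finset.Icc 1 N).powersetCard n,
    D S * ((∑ l ∈ orderings S, winOn A (S.sup id) [] l) / n.factorial)

/-! ## Sums over orderings -/

/-- Iterated sum over the lists of `n` distinct elements of `R`. -/
def E : ℕ → Finset ℕ → (List ℕ → ℝ) → ℝ
  | 0, _, F => F []
  | n + 1, R, F => ∑ y ∈ R, E n (R.erase y) (fun l => F (y :: l))

/-- The lists of `n` distinct elements of `R`. -/
def NL (n : ℕ) (R : Finset ℕ) : Finset (List ℕ) := (R.powersetCard n).biUnion orderings

theorem mem_lists {S : Finset ℕ} {l : List ℕ} : l ∈ orderings S ↔ l.Nodup ∧ l.toFinset = S := by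
  rw [orderings, Finset.mem_mk, Multiset.mem_lists_iff]
  constructor
  · intro h
    have h1 : l.Nodup := by
      have := S.nodup
      rw [h] at this
      exact this
    refine ⟨h1, ?_⟩
    ext x
    rw [List.mem_toFinset, ← Finset.mem_val, h]
    rfl
  · rintro ⟨h1, rfl⟩
    rw [List.toFinset_val, List.dedup_eq_self.2 h1]
    rfl

theorem mem_NL {n : ℕ} {R : Finset ℕ} {l : List ℕ} :
    l ∈ NL n R ↔ l.Nodup ∧ l.length = n ∧ ∀ x ∈ l, x ∈ R := by
  rw [NL, mem_biUnion]
  constructor
  · rintro ⟨S, hS, hl⟩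
    rw [mem_powersetCard] at hS
    rw [mem_lists] at hl
    obtain ⟨h1, rfl⟩ := hl
    refine ⟨h1, ?_, fun x hx => hS.1 (List.mem_toFinset.2 hx)⟩
    rw [← hS.2, List.toFinset_card_of_nodup h1]
  · rintro ⟨h1, h2, h3⟩
    refine ⟨l.toFinset, ?_, mem_lists.2 ⟨h1, rfl⟩⟩
    rw [mem_powersetCard]
    refine ⟨fun x hx => h3 x (List.mem_toFinset.1 hx), ?_⟩
    rw [List.toFinset_card_of_nodup h1, h2]

theorem E_eq (n : ℕ) : ∀ (R : Finset ℕ) (F : List ℕ → ℝ), E n R F = ∑ l ∈ NL n R, F l := by
  induction n with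
  | zero =>
    intro R F
    have : NL 0 R = {[]} := by
      ext l
      rw [mem_NL, mem_singleton]
      constructor
      · rintro ⟨-, h, -⟩; exact List.length_eq_zero_iff.1 h
      · rintro rfl; simp
    rw [this, sum_singleton, E]
  | succ n ih =>
    intro R F
    rw [E]
    simp_rw [ih]
    rw [Finset.sum_sigma']
    refine Finset.sum_bij (fun p _ => p.1 :: p.2) ?_ ?_ ?_ ?_
    · rintro ⟨y, l⟩ h
      rw [mem_sigma] at h
      dsimp only at h ⊢
      rw [mem_NL] at h ⊢
      obtain ⟨h1, h2, h3, h4⟩ := h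
      refine ⟨?_, ?_, ?_⟩
      · rw [List.nodup_cons]
        exact ⟨fun h => (mem_erase.1 (h4 y h)).1 rfl, h2⟩
      · rw [List.length_cons, h3]
      · intro x hx
        rcases List.mem_cons.1 hx with rfl | hx
        · exact h1
        · exact (mem_erase.1 (h4 x hx)).2
    · rintro ⟨y, l⟩ _ ⟨y', l'⟩ _ h
      dsimp only at h
      obtain ⟨rfl, rfl⟩ := List.cons_eq_cons.1 h
      rfl
    · intro l hl
      rw [mem_NL] at hl
      obtain ⟨h1, h2, h3⟩ := hl
      cases l with
      | nil => simp at h2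
      | cons y l =>
        rw [List.nodup_cons] at h1
        refine ⟨⟨y, l⟩, ?_, rfl⟩
        rw [mem_sigma]
        refine ⟨h3 y List.mem_cons_self, ?_⟩
        dsimp only
        rw [mem_NL]
        refine ⟨h1.2, by simpa using h2, fun x hx => mem_erase.2 ⟨?_, h3 x (List.mem_cons_of_mem _ hx)⟩⟩
        rintro rfl
        exact h1.1 hx
    · rintro ⟨y, l⟩ _
      rfl

theorem sum_lists (n : ℕ) (R : Finset ℕ) (F : List ℕ → ℝ) :
    ∑ S ∈ R.powersetCard n, ∑ l ∈ orderings S, F l = E n R F := by
  rw [E_eq, NL, Finset.sum_biUnion]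
  intro S _ S' _ hne
  rw [Function.onFun, Finset.disjoint_left]
  intro l hl hl'
  exact hne ((mem_lists.1 hl).2.symm.trans (mem_lists.1 hl').2)

theorem E_congr {n : ℕ} {R : Finset ℕ} {F G : List ℕ → ℝ}
    (h : ∀ l ∈ NL n R, F l = G l) : E n R F = E n R G := by
  rw [E_eq, E_eq]
  exact Finset.sum_congr rfl h

theorem E_const_mul (n : ℕ) (R : Finset ℕ) (c : ℝ) (F : List ℕ → ℝ) :
    E n R (fun l => c * F l) = c * E n R F := by
  rw [E_eq, E_eq, Finset.mul_sum]

theorem E_add (n : ℕ) (R : Finset ℕ) (F G : List ℕ → ℝ) :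
    E n R (fun l => F l + G l) = E n R F + E n R G := by
  rw [E_eq, E_eq, E_eq, Finset.sum_add_distrib]

/-- The maximum of a list. -/
def mx (h : List ℕ) : ℕ := h.toFinset.sup id

theorem le_mx {h : List ℕ} {x : ℕ} (hx : x ∈ h) : x ≤ mx h :=
  Finset.le_sup (f := id) (List.mem_toFinset.2 hx)

theorem mx_le {h : List ℕ} {b : ℕ} : mx h ≤ b ↔ ∀ x ∈ h, x ≤ b := by
  rw [mx, Finset.sup_le_iff]
  simp

theorem mx_append (h l : List ℕ) : mx (h ++ l) = max (mx h) (mx l) := by
  rw [mx, mx, mx, List.toFinset_append, Finset.sup_union]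

theorem mx_singleton (y : ℕ) : mx [y] = y := by
  simp [mx]

theorem mx_nil : mx [] = 0 := by simp [mx]

/-- Number of lists with entries at most `M`. -/
theorem E_count (M : ℕ) : ∀ (j : ℕ) (R : Finset ℕ),
    E j R (fun l => if mx l ≤ M then 1 else 0) = (((R.filter (· ≤ M)).card).descFactorial j : ℝ) := by
  intro j
  induction j with
  | zero => intro R; simp [E, mx_nil]
  | succ j ih =>
    intro R
    rw [E]
    have h1 : ∀ y ∈ R, E j (R.erase y) (fun l => if mx (y :: l) ≤ M then (1 : ℝ) else 0) =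
        if y ≤ M then ((((R.filter (· ≤ M)).card) - 1).descFactorial j : ℝ) else 0 := by
      intro y hy
      by_cases hyM : y ≤ M
      · rw [if_pos hyM]
        have h2 : (R.erase y).filter (· ≤ M) = (R.filter (· ≤ M)).erase y := by
          rw [Finset.filter_erase]
        have h3 := ih (R.erase y)
        rw [h2, Finset.card_erase_of_mem (mem_filter.2 ⟨hy, hyM⟩)] at h3
        rw [← h3]
        refine E_congr fun l _ => ?_
        have : mx (y :: l) ≤ M ↔ mx l ≤ M := by
          rw [mx_le, mx_le]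
          simp [hyM]
        simp only [this]
      · rw [if_neg hyM, E_eq]
        refine Finset.sum_eq_zero fun l _ => ?_
        rw [if_neg]
        rw [mx_le]
        intro h
        exact hyM (h y List.mem_cons_self)
    rw [Finset.sum_congr rfl h1, ← Finset.sum_filter, Finset.sum_const, nsmul_eq_mul]
    rcases Nat.eq_zero_or_pos ((R.filter (· ≤ M)).card) with h0 | h0
    · rw [h0]; simp
    · obtain ⟨c, hc⟩ : ∃ c, (R.filter (· ≤ M)).card = c + 1 := ⟨_, (Nat.succ_pred_eq_of_pos h0).symm⟩
      rw [hc, Nat.succ_descFactorial_succ]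
      push_cast
      simp

/-! ## The weights -/

/-- The weights of histories. -/
noncomputable def ka (k m : ℕ) : ℝ := 1 / (k * (m.descFactorial k : ℝ))

theorem ka_nonneg (k m : ℕ) : 0 ≤ ka k m := by unfold ka; positivity

theorem ka_low {k m : ℕ} (hk : 1 ≤ k) (hm : k ≤ m) :
    ((m - k : ℕ) : ℝ) * ka (k + 1) m ≤ (k : ℝ) / (k + 1) * ka k m := by
  rcases Nat.eq_or_lt_of_le hm with rfl | hlt
  · simp only [Nat.sub_self, Nat.cast_zero, zero_mul]
    have := ka_nonneg k k
    positivity
  · apply le_of_eq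
    have h1 : (0 : ℝ) < ((m - k : ℕ) : ℝ) := by exact_mod_cast Nat.sub_pos_of_lt hlt
    have h2 : (0 : ℝ) < (m.descFactorial k : ℝ) := by
      exact_mod_cast Nat.descFactorial_pos.2 hm
    have h3 : (0 : ℝ) < k := by exact_mod_cast hk
    rw [ka, ka, Nat.descFactorial_succ]
    push_cast
    field_simp

theorem ka_tele {k y : ℕ} (hk : 1 ≤ k) (hy : k ≤ y) :
    ka (k + 1) (y + 1) =
      1 / (k * (k + 1)) * (1 / (y.descFactorial k : ℝ) - 1 / ((y + 1).descFactorial k : ℝ)) := by
  have e1 : ((y + 1).descFactorial (k + 1) : ℝ) = (y + 1) * y.descFactorial k := by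
    rw [Nat.succ_descFactorial_succ]; push_cast; ring
  have e2 : ((y + 1).descFactorial (k + 1) : ℝ) = (y + 1 - k) * (y + 1).descFactorial k := by
    rw [Nat.descFactorial_succ, Nat.cast_mul, Nat.cast_sub (by omega)]; push_cast; ring
  have h1 : (0 : ℝ) < y.descFactorial k := by exact_mod_cast Nat.descFactorial_pos.2 hy
  have h2 : (0 : ℝ) < (y + 1).descFactorial k := by
    exact_mod_cast Nat.descFactorial_pos.2 (by omega)
  have h3 : (0 : ℝ) < k := by exact_mod_cast hk
  have h5 : (k : ℝ) ≤ y := by exact_mod_cast hy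
  have h4 : (0 : ℝ) < y + 1 - k := by linarith
  rw [ka, e1]
  rw [e1] at e2
  have h6 : ((y + 1).descFactorial k : ℝ) = (y + 1) * y.descFactorial k / (y + 1 - k) := by
    rw [e2]; field_simp
  rw [h6]
  push_cast
  field_simp
  ring

theorem ka_high_eq {k m : ℕ} (hk : 1 ≤ k) (hm : k ≤ m) (t : ℕ) :
    ∑ y ∈ Finset.Ioc m (m + t), ka (k + 1) y =
      1 / (k * (k + 1)) * (1 / (m.descFactorial k : ℝ) - 1 / ((m + t).descFactorial k : ℝ)) := by
  induction t with
  | zero => simp
  | succ t ih =>
    rw [← add_assoc, Finset.sum_Ioc_succ_top (by omega), ih, ka_tele hk (by omega)]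
    ring

theorem ka_high {k m N : ℕ} (hk : 1 ≤ k) (hm : k ≤ m) :
    ∑ y ∈ Finset.Ioc m N, ka (k + 1) y ≤ 1 / ((k : ℝ) + 1) * ka k m := by
  rcases Nat.le_or_le N m with h | h
  · rw [Finset.Ioc_eq_empty_of_le h, Finset.sum_empty]
    have := ka_nonneg k m
    positivity
  · obtain ⟨t, rfl⟩ := Nat.exists_eq_add_of_le h
    rw [ka_high_eq hk hm]
    have h3 : (0 : ℝ) < k := by exact_mod_cast hk
    have h1 : (0 : ℝ) < m.descFactorial k := by exact_mod_cast Nat.descFactorial_pos.2 hm
    have h4 : (0 : ℝ) ≤ 1 / ((m + t).descFactorial k : ℝ) := by positivity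
    have e : 1 / ((k : ℝ) + 1) * ka k m = 1 / (k * (k + 1)) * (1 / (m.descFactorial k : ℝ)) := by
      rw [ka]; field_simp
    rw [e]
    have h5 : (0 : ℝ) ≤ 1 / (k * (k + 1)) := by positivity
    exact mul_le_mul_of_nonneg_left (by linarith) h5

/-! ## The value function -/

/-- The limiting value function of the secretary problem. -/
noncomputable def f (t : ℝ) : ℝ :=
  if t ≤ Real.exp (-1) then Real.exp (-1) else -(t * Real.log t)

theorem neg_mul_log_le {t : ℝ} (ht : 0 < t) : -(t * Real.log t) ≤ Real.exp (-1) := by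
  have h1 := Real.one_sub_inv_le_log_of_pos (mul_pos ht (Real.exp_pos 1))
  rw [Real.log_mul ht.ne' (Real.exp_pos 1).ne', Real.log_exp, mul_inv, ← Real.exp_neg] at h1
  have h2 : t * t⁻¹ = 1 := mul_inv_cancel₀ ht.ne'
  have h3 : -Real.log t ≤ t⁻¹ * Real.exp (-1) := by linarith
  calc -(t * Real.log t) = t * (-Real.log t) := by ring
    _ ≤ t * (t⁻¹ * Real.exp (-1)) := mul_le_mul_of_nonneg_left h3 ht.le
    _ = Real.exp (-1) := by rw [← mul_assoc, h2, one_mul]

theorem f_le {t : ℝ} (ht : 0 < t) : f t ≤ Real.exp (-1) := by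
  unfold f
  split_ifs
  · exact le_rfl
  · exact neg_mul_log_le ht

theorem le_f {t : ℝ} (ht : 0 < t) : -(t * Real.log t) ≤ f t := by
  unfold f
  split_ifs
  · exact neg_mul_log_le ht
  · exact le_rfl

theorem f_anti {t s : ℝ} (ht : 0 < t) (hts : t ≤ s) : f s ≤ f t := by
  have hs : 0 < s := lt_of_lt_of_le ht hts
  by_cases h1 : t ≤ Real.exp (-1)
  · have : f t = Real.exp (-1) := by rw [f, if_pos h1]
    rw [this]
    exact f_le hs
  · have h2 : ¬ s ≤ Real.exp (-1) := fun h => h1 (hts.trans h)
    rw [f, f, if_neg h1, if_neg h2]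
    push Not at h1
    have h3 := Real.one_sub_inv_le_log_of_pos (div_pos hs ht)
    rw [Real.log_div hs.ne' ht.ne', inv_div] at h3
    have h4 := neg_mul_log_le hs
    have h5 : t * (1 - t / s) ≤ t * (Real.log s - Real.log t) :=
      mul_le_mul_of_nonneg_left h3 ht.le
    have h6 : -(s * Real.log s) ≤ t := by linarith
    have h7 : (s - t) * (-(s * Real.log s)) ≤ (s - t) * t :=
      mul_le_mul_of_nonneg_left h6 (by linarith)
    have h8 : t * (1 - t / s) * s = t * (s - t) := by field_simp
    have h9 : t * (s - t) ≤ t * (Real.log s - Real.log t) * s := by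
      rw [← h8]; exact mul_le_mul_of_nonneg_right h5 hs.le
    have h10 : s * (-(s * Real.log s)) ≤ s * (-(t * Real.log t)) := by nlinarith
    exact le_of_mul_le_mul_left h10 hs

/-- The bound for the value of continuing after `k` of `n` steps. -/
noncomputable def phi (n k : ℕ) : ℝ := f ((k : ℝ) / n) + 1 / n

theorem phi_super {n k : ℕ} (hk : 1 ≤ k) (hkn : k < n) :
    (k : ℝ) / (k + 1) * phi n (k + 1) +
      1 / ((k : ℝ) + 1) * max (phi n (k + 1)) (((k + 1 : ℕ) : ℝ) / n) ≤ phi n k := by
  have hn : (0 : ℝ) < n := by exact_mod_cast (by omega : 0 < n)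
  have hk0 : (0 : ℝ) < k := by exact_mod_cast hk
  have ht : (0 : ℝ) < (k : ℝ) / n := by positivity
  have hs : (0 : ℝ) < ((k + 1 : ℕ) : ℝ) / n := by positivity
  have hts : (k : ℝ) / n ≤ ((k + 1 : ℕ) : ℝ) / n := by
    push_cast
    gcongr
    linarith
  have hanti := f_anti ht hts
  rcases le_total (((k + 1 : ℕ) : ℝ) / n) (phi n (k + 1)) with h | h
  · rw [max_eq_left h]
    have e : (k : ℝ) / (k + 1) * phi n (k + 1) + 1 / ((k : ℝ) + 1) * phi n (k + 1) =
        phi n (k + 1) := by field_simp
    rw [e, phi, phi]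
    linarith
  · rw [max_eq_right h]
    have hs1 : ¬ ((k + 1 : ℕ) : ℝ) / n ≤ Real.exp (-1) := by
      intro h'
      rw [phi, f, if_pos h'] at h
      have : (0 : ℝ) < 1 / n := by positivity
      linarith
    have e1 : phi n (k + 1) = -(((k + 1 : ℕ) : ℝ) / n * Real.log (((k + 1 : ℕ) : ℝ) / n)) + 1 / n := by
      rw [phi, f, if_neg hs1]
    have h2 := le_f ht
    have h3 := Real.one_sub_inv_le_log_of_pos (div_pos hs ht)
    rw [Real.log_div hs.ne' ht.ne', inv_div] at h3
    have e2 : (k : ℝ) / n / (((k + 1 : ℕ) : ℝ) / n) = k / (k + 1) := by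
      push_cast
      field_simp
    rw [e2] at h3
    have e3 : 1 - (k : ℝ) / (k + 1) = 1 / (k + 1) := by field_simp; ring
    rw [e3] at h3
    rw [e1]
    have e4 : (k : ℝ) / (k + 1) *
        (-(((k + 1 : ℕ) : ℝ) / n * Real.log (((k + 1 : ℕ) : ℝ) / n)) + 1 / n) +
        1 / ((k : ℝ) + 1) * (((k + 1 : ℕ) : ℝ) / n) =
        (k : ℝ) / n * (-Real.log (((k + 1 : ℕ) : ℝ) / n) + 1 / (k + 1)) + 1 / n := by
      push_cast
      field_simp
    rw [e4, phi]
    have h5 : (k : ℝ) / n * (-Real.log (((k + 1 : ℕ) : ℝ) / n) + 1 / (k + 1)) ≤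
        (k : ℝ) / n * (-Real.log ((k : ℝ) / n)) := by
      apply mul_le_mul_of_nonneg_left _ ht.le
      linarith
    linarith

theorem phi_nonneg {n k : ℕ} (hk : 1 ≤ k) (hkn : k ≤ n) : 0 ≤ phi n k := by
  have hn : (0 : ℝ) < n := by exact_mod_cast (by omega : 0 < n)
  have hk0 : (0 : ℝ) < k := by exact_mod_cast hk
  have ht : (0 : ℝ) < (k : ℝ) / n := by positivity
  have h1 := le_f ht
  have h2 : Real.log ((k : ℝ) / n) ≤ 0 := by
    apply Real.log_nonpos ht.le
    rw [div_le_one hn]
    exact_mod_cast hkn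
  have h3 : 0 ≤ -((k : ℝ) / n * Real.log ((k : ℝ) / n)) := by nlinarith
  have h4 : (0 : ℝ) < 1 / n := by positivity
  rw [phi]
  linarith

/-! ## The recursion -/

/-- The (unnormalised) winning mass from continuing after the history `h`. -/
noncomputable def T (A : List ℕ → ℝ) (n N j : ℕ) (h : List ℕ) : ℝ :=
  E j (Finset.Icc 1 N \ h.toFinset) fun l => ka n (mx (h ++ l)) * winOn A (mx (h ++ l)) h l

/-- The (unnormalised) mass of the event that `y`, arriving after the history `h`, is the overall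
maximum. -/
noncomputable def P (n N j : ℕ) (h : List ℕ) (y : ℕ) : ℝ :=
  E j (Finset.Icc 1 N \ (h ++ [y]).toFinset)
    fun l => ka n (mx (h ++ [y] ++ l)) * (if y = mx (h ++ [y] ++ l) then 1 else 0)

theorem sdiff_erase' (R : Finset ℕ) (h : List ℕ) (y : ℕ) :
    (R \ h.toFinset).erase y = R \ (h ++ [y]).toFinset := by
  ext x
  simp only [mem_erase, mem_sdiff, List.mem_toFinset, List.mem_append, List.mem_singleton]
  tauto

theorem T_succ (A : List ℕ → ℝ) (n N j : ℕ) (h : List ℕ) :
    T A n N (j + 1) h = ∑ y ∈ Finset.Icc 1 N \ h.toFinset,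
      (A (h ++ [y]) * P n N j h y + (1 - A (h ++ [y])) * T A n N j (h ++ [y])) := by
  rw [T, E]
  refine Finset.sum_congr rfl fun y _ => ?_
  rw [P, T, ← E_const_mul, ← E_const_mul, ← E_add, sdiff_erase']
  refine E_congr fun l _ => ?_
  have e : h ++ y :: l = h ++ [y] ++ l := by simp
  rw [e, winOn]
  ring

theorem card_filter {N : ℕ} {h : List ℕ} (hn : h.Nodup) (hr : ∀ x ∈ h, 1 ≤ x ∧ x ≤ N) {y : ℕ}
    (hy : y ≤ N) (hm : mx h ≤ y) :
    ((Finset.Icc 1 N \ h.toFinset).filter (· ≤ y)).card = y - h.length := by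
  have e : (Finset.Icc 1 N \ h.toFinset).filter (· ≤ y) = Finset.Icc 1 y \ h.toFinset := by
    ext x
    simp only [mem_filter, mem_sdiff, Finset.mem_Icc]
    constructor
    · rintro ⟨⟨⟨a, b⟩, c⟩, d⟩; exact ⟨⟨a, d⟩, c⟩
    · rintro ⟨⟨a, b⟩, c⟩; exact ⟨⟨⟨a, b.trans hy⟩, c⟩, b⟩
  have hsub : h.toFinset ⊆ Finset.Icc 1 y := by
    intro x hx
    rw [List.mem_toFinset] at hx
    rw [Finset.mem_Icc]
    exact ⟨(hr x hx).1, (le_mx hx).trans hm⟩
  rw [e, Finset.card_sdiff_of_subset hsub, Nat.card_Icc, List.toFinset_card_of_nodup hn]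
  omega

theorem P_le {n N j : ℕ} {h : List ℕ} (hn : h.Nodup) (hr : ∀ x ∈ h, 1 ≤ x ∧ x ≤ N) {y : ℕ}
    (hy : 1 ≤ y ∧ y ≤ N) (hyh : y ∉ h) (hj : h.length + 1 + j = n) :
    P n N j h y ≤ if max (n - 1) (mx h) < y then
      ((h.length + 1 : ℕ) : ℝ) / n * ka (h.length + 1) y else 0 := by
  have hnpos : (0 : ℝ) < n := by exact_mod_cast (by omega : 0 < n)
  rcases Nat.lt_or_ge y (mx h) with hlt | hge
  · rw [if_neg (by have := le_max_right (n - 1) (mx h); omega)]
    apply le_of_eq
    rw [P, E_eq]
    refine Finset.sum_eq_zero fun l _ => ?_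
    rw [if_neg, mul_zero]
    rw [mx_append, mx_append]
    have := le_max_left (mx h) (mx [y])
    have := le_max_left (max (mx h) (mx [y])) (mx l)
    omega
  · have hn' : (h ++ [y]).Nodup := by
      rw [List.nodup_append]
      refine ⟨hn, List.nodup_singleton y, ?_⟩
      intro a ha b hb
      rw [List.mem_singleton] at hb
      rintro rfl
      exact hyh (hb ▸ ha)
    have hr' : ∀ x ∈ h ++ [y], 1 ≤ x ∧ x ≤ N := by
      intro x hx
      rcases List.mem_append.1 hx with hx | hx
      · exact hr x hx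
      · rw [List.mem_singleton] at hx
        rw [hx]; exact hy
    have hmx : mx (h ++ [y]) = y := by
      rw [mx_append, mx_singleton, max_eq_right hge]
    have hP : P n N j h y = ka n y * ((y - (h.length + 1)).descFactorial j : ℝ) := by
      have hc := card_filter hn' hr' hy.2 hmx.le
      rw [List.length_append, List.length_singleton] at hc
      rw [P, ← hc, ← E_count, ← E_const_mul]
      refine E_congr fun l _ => ?_
      have e1 : mx (h ++ [y] ++ l) = max y (mx l) := by rw [mx_append, hmx]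
      rw [e1]
      by_cases hl : mx l ≤ y
      · rw [max_eq_left hl, if_pos rfl, if_pos hl]
      · rw [if_neg hl, if_neg (by have := le_max_right y (mx l); omega)]
        ring
    rw [hP]
    rcases Nat.lt_or_ge y n with hyn | hyn
    · have hlen : h.length + 1 ≤ y := by
        have hsub : (h ++ [y]).toFinset ⊆ Finset.Icc 1 y := by
          intro x hx
          rw [List.mem_toFinset] at hx
          rw [Finset.mem_Icc]
          exact ⟨(hr' x hx).1, (le_mx hx).trans hmx.le⟩
        have := Finset.card_le_card hsub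
        rw [Nat.card_Icc, List.toFinset_card_of_nodup hn', List.length_append,
          List.length_singleton] at this
        omega
      have : (y - (h.length + 1)).descFactorial j = 0 := by
        rw [Nat.descFactorial_eq_zero_iff_lt]
        omega
      rw [this, Nat.cast_zero, mul_zero]
      split_ifs
      · have := ka_nonneg (h.length + 1) y
        positivity
      · exact le_rfl
    · have hne : mx h ≠ y := by
        intro h0
        rcases h.eq_nil_or_concat with rfl | ⟨l', b, hb⟩
        · rw [mx_nil] at h0; omega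
        · have hne' : h.toFinset.Nonempty := ⟨b, by simp [hb]⟩
          obtain ⟨z, hz, hz'⟩ := Finset.exists_mem_eq_sup h.toFinset hne' id
          have : z = y := by rw [← h0]; exact hz'.symm
          rw [this] at hz
          exact hyh (List.mem_toFinset.1 hz)
      rw [if_pos (by
        rw [max_lt_iff]
        omega)]
      apply le_of_eq
      have e2 := Nat.descFactorial_mul_descFactorial (k := h.length + 1) (m := n) (n := y)
        (by omega)
      have e3 : n - (h.length + 1) = j := by omega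
      rw [e3] at e2
      have h1 : (0 : ℝ) < (y.descFactorial n : ℝ) := by
        exact_mod_cast Nat.descFactorial_pos.2 hyn
      have h2 : (0 : ℝ) < (y.descFactorial (h.length + 1) : ℝ) := by
        exact_mod_cast Nat.descFactorial_pos.2 (by omega)
      have e4 : ((y - (h.length + 1)).descFactorial j : ℝ) * (y.descFactorial (h.length + 1) : ℝ) =
          (y.descFactorial n : ℝ) := by exact_mod_cast e2
      rw [ka, ka]
      have e5 : ((y - (h.length + 1)).descFactorial j : ℝ) =
          (y.descFactorial n : ℝ) / (y.descFactorial (h.length + 1) : ℝ) := by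
        rw [← e4]; field_simp
      rw [e5]
      field_simp

theorem step_le {A : List ℕ → ℝ} (hA : IsAlgorithm A) {n N j : ℕ} {h : List ℕ} (hn : h.Nodup)
    (hr : ∀ x ∈ h, 1 ≤ x ∧ x ≤ N) (hj : h.length + 1 + j = n)
    (ih : ∀ y ∈ Finset.Icc 1 N \ h.toFinset, T A n N j (h ++ [y]) ≤
      phi n (h.length + 1) * ka (h.length + 1) (max (n - 1) (mx (h ++ [y])))) :
    T A n N (j + 1) h ≤ ∑ y ∈ Finset.Icc 1 N \ h.toFinset,
      (if y ≤ max (n - 1) (mx h) then
        phi n (h.length + 1) * ka (h.length + 1) (max (n - 1) (mx h))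
      else max (phi n (h.length + 1)) (((h.length + 1 : ℕ) : ℝ) / n) * ka (h.length + 1) y) := by
  rw [T_succ]
  refine Finset.sum_le_sum fun y hy => ?_
  have hy1 := Finset.mem_sdiff.1 hy
  have hyN := Finset.mem_Icc.1 hy1.1
  have hyh : y ∉ h := fun h' => hy1.2 (List.mem_toFinset.2 h')
  have hP := P_le hn hr hyN hyh hj
  have hT := ih y hy
  obtain ⟨hA0, hA1⟩ := hA (h ++ [y])
  have hphi : 0 ≤ phi n (h.length + 1) := phi_nonneg (by omega) (by omega)
  split_ifs with hle
  · rw [if_neg (by omega)] at hP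
    have e1 : max (n - 1) (mx (h ++ [y])) = max (n - 1) (mx h) := by
      rw [mx_append, mx_singleton]
      rcases le_max_iff.1 hle with h' | h'
      · rcases le_total (mx h) (n - 1) with h'' | h''
        · rw [max_eq_left h'', max_eq_left (max_le h'' h')]
        · rw [max_eq_left (h'.trans h'')]
      · rw [max_eq_left h']
    rw [e1] at hT
    have hka := ka_nonneg (h.length + 1) (max (n - 1) (mx h))
    have h1 : A (h ++ [y]) * P n N j h y ≤ 0 := mul_nonpos_of_nonneg_of_nonpos hA0 hP
    have h2 : (1 - A (h ++ [y])) * T A n N j (h ++ [y]) ≤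
        (1 - A (h ++ [y])) * (phi n (h.length + 1) * ka (h.length + 1) (max (n - 1) (mx h))) :=
      mul_le_mul_of_nonneg_left hT (by linarith)
    have h3 : (1 - A (h ++ [y])) * (phi n (h.length + 1) * ka (h.length + 1) (max (n - 1) (mx h))) ≤
        1 * (phi n (h.length + 1) * ka (h.length + 1) (max (n - 1) (mx h))) :=
      mul_le_mul_of_nonneg_right (by linarith) (mul_nonneg hphi hka)
    linarith
  · push Not at hle
    rw [if_pos hle] at hP
    have e1 : max (n - 1) (mx (h ++ [y])) = y := by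
      rw [mx_append, mx_singleton]
      rw [max_lt_iff] at hle
      rw [max_eq_right (a := mx h) hle.2.le, max_eq_right hle.1.le]
    rw [e1] at hT
    have hka := ka_nonneg (h.length + 1) y
    set X := max (phi n (h.length + 1)) (((h.length + 1 : ℕ) : ℝ) / n) with hX
    have h1 : P n N j h y ≤ X * ka (h.length + 1) y :=
      hP.trans (mul_le_mul_of_nonneg_right (le_max_right _ _) hka)
    have h2 : T A n N j (h ++ [y]) ≤ X * ka (h.length + 1) y :=
      hT.trans (mul_le_mul_of_nonneg_right (le_max_left _ _) hka)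
    have h3 := mul_le_mul_of_nonneg_left h1 hA0
    have h4 := mul_le_mul_of_nonneg_left h2 (by linarith : 0 ≤ 1 - A (h ++ [y]))
    linarith

theorem T_le {A : List ℕ → ℝ} (hA : IsAlgorithm A) {n N : ℕ} : ∀ (j : ℕ) (h : List ℕ),
    h.Nodup → (∀ x ∈ h, 1 ≤ x ∧ x ≤ N) → 1 ≤ h.length → h.length + j = n →
    T A n N j h ≤ phi n h.length * ka h.length (max (n - 1) (mx h)) := by
  intro j
  induction j with
  | zero =>
    intro h hn hr hl hj
    have h0 : T A n N 0 h = 0 := by rw [T, E, winOn, mul_zero]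
    rw [h0]
    exact mul_nonneg (phi_nonneg hl (by omega)) (ka_nonneg _ _)
  | succ j ihj =>
    intro h hn hr hl hj
    have hstep := step_le hA hn hr (n := n) (j := j) (by omega) (by
      intro y hy
      have hy1 := Finset.mem_sdiff.1 hy
      have hyN := Finset.mem_Icc.1 hy1.1
      have hyh : y ∉ h := fun h' => hy1.2 (List.mem_toFinset.2 h')
      have := ihj (h ++ [y]) (by
        rw [List.nodup_append]
        refine ⟨hn, List.nodup_singleton y, ?_⟩
        intro a ha b hb
        rw [List.mem_singleton] at hb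
        rintro rfl
        exact hyh (hb ▸ ha)) (by
        intro x hx
        rcases List.mem_append.1 hx with hx | hx
        · exact hr x hx
        · rw [List.mem_singleton] at hx
          rw [hx]; exact hyN) (by simp) (by simp; omega)
      rwa [List.length_append, List.length_singleton] at this)
    refine hstep.trans ?_
    set m := max (n - 1) (mx h) with hm
    set k := h.length with hk
    have hkm : k ≤ m := by
      have := le_max_left (n - 1) (mx h)
      omega
    rw [Finset.sum_ite]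
    have hcard : (((Finset.Icc 1 N \ h.toFinset).filter (· ≤ m)).card : ℝ) ≤ ((m - k : ℕ) : ℝ) := by
      have hsub : (Finset.Icc 1 N \ h.toFinset).filter (· ≤ m) ⊆ Finset.Icc 1 m \ h.toFinset := by
        intro x
        simp only [mem_filter, mem_sdiff, Finset.mem_Icc]
        rintro ⟨⟨⟨a, b⟩, c⟩, d⟩
        exact ⟨⟨a, d⟩, c⟩
      have hsub' : h.toFinset ⊆ Finset.Icc 1 m := by
        intro x hx
        rw [List.mem_toFinset] at hx
        rw [Finset.mem_Icc]
        exact ⟨(hr x hx).1, (le_mx hx).trans (le_max_right _ _)⟩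
      have := Finset.card_le_card hsub
      rw [Finset.card_sdiff_of_subset hsub', Nat.card_Icc, List.toFinset_card_of_nodup hn] at this
      exact_mod_cast (by omega : _ ≤ m - k)
    have hphi1 : 0 ≤ phi n (k + 1) := phi_nonneg (by omega) (by omega)
    have hka1 := ka_nonneg (k + 1) m
    have hka := ka_nonneg k m
    have s1 : ∑ y ∈ (Finset.Icc 1 N \ h.toFinset).filter (· ≤ m), phi n (k + 1) * ka (k + 1) m ≤
        phi n (k + 1) * ((k : ℝ) / (k + 1) * ka k m) := by
      rw [Finset.sum_const, nsmul_eq_mul]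
      calc _ ≤ ((m - k : ℕ) : ℝ) * (phi n (k + 1) * ka (k + 1) m) :=
            mul_le_mul_of_nonneg_right hcard (mul_nonneg hphi1 hka1)
        _ = phi n (k + 1) * (((m - k : ℕ) : ℝ) * ka (k + 1) m) := by ring
        _ ≤ _ := mul_le_mul_of_nonneg_left (ka_low hl hkm) hphi1
    set X := max (phi n (k + 1)) (((k + 1 : ℕ) : ℝ) / n) with hX
    have hX0 : 0 ≤ X := hphi1.trans (le_max_left _ _)
    have s2 : ∑ y ∈ (Finset.Icc 1 N \ h.toFinset).filter (fun y => ¬ y ≤ m), X * ka (k + 1) y ≤
        X * (1 / ((k : ℝ) + 1) * ka k m) := by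
      rw [← Finset.mul_sum]
      refine mul_le_mul_of_nonneg_left ?_ hX0
      refine le_trans ?_ (ka_high (N := N) hl hkm)
      refine Finset.sum_le_sum_of_subset_of_nonneg ?_ fun y _ _ => ka_nonneg _ _
      intro x
      simp only [mem_filter, mem_sdiff, Finset.mem_Icc, Finset.mem_Ioc]
      rintro ⟨⟨⟨a, b⟩, c⟩, d⟩
      exact ⟨by omega, b⟩
    have hsup := phi_super (n := n) hl (by omega)
    have := mul_le_mul_of_nonneg_right hsup hka
    calc _ ≤ phi n (k + 1) * ((k : ℝ) / (k + 1) * ka k m) + X * (1 / ((k : ℝ) + 1) * ka k m) :=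
          add_le_add s1 s2
      _ = ((k : ℝ) / (k + 1) * phi n (k + 1) + 1 / ((k : ℝ) + 1) * X) * ka k m := by ring
      _ ≤ _ := this

/-- The normalising constant. -/
noncomputable def Wt (n N : ℕ) : ℝ := ∑ y ∈ Finset.Icc n N, 1 / (y : ℝ)

theorem T_start {A : List ℕ → ℝ} (hA : IsAlgorithm A) {n N : ℕ} (hn : 2 ≤ n) :
    T A n N n [] ≤ (1 + Wt n N) * (Real.exp (-1) + 1 / n) := by
  obtain ⟨j, rfl⟩ : ∃ j, n = j + 1 := ⟨n - 1, by omega⟩
  have hstep := step_le hA (n := j + 1) (N := N) (j := j) (h := []) List.nodup_nil (by simp)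
    (by simp; omega) (by
      intro y hy
      have hyN := Finset.mem_Icc.1 (Finset.mem_sdiff.1 hy).1
      have := T_le hA (n := j + 1) (N := N) j ([] ++ [y]) (by simp) (by simpa using hyN) (by simp)
        (by simp; omega)
      simpa using this)
  refine hstep.trans ?_
  have hnpos : (0 : ℝ) < ((j + 1 : ℕ) : ℝ) := by positivity
  have hjpos : (0 : ℝ) < (j : ℝ) := by exact_mod_cast (by omega : 0 < j)
  set X := Real.exp (-1) + 1 / ((j + 1 : ℕ) : ℝ) with hX
  have hphi : phi (j + 1) 1 ≤ X := by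
    rw [phi]
    have := f_le (t := ((1 : ℕ) : ℝ) / ((j + 1 : ℕ) : ℝ)) (by positivity)
    linarith
  have hphi0 : 0 ≤ phi (j + 1) 1 := phi_nonneg le_rfl (by omega)
  have hmax : max (phi (j + 1) 1) (((1 : ℕ) : ℝ) / ((j + 1 : ℕ) : ℝ)) ≤ X := by
    refine max_le hphi ?_
    have := Real.exp_pos (-1)
    simp only [hX, Nat.cast_one]
    linarith
  have hX0 : 0 ≤ X := hphi0.trans hphi
  have ka1 : ∀ m : ℕ, ka 1 m = 1 / m := by intro m; simp [ka]
  simp only [List.toFinset_nil, Finset.sdiff_empty, mx_nil, List.length_nil, zero_add,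
    Nat.add_sub_cancel, max_eq_left (Nat.zero_le j), ka1]
  rw [Finset.sum_ite, add_mul, one_mul, Wt]
  refine add_le_add ?_ ?_
  · rw [Finset.sum_const, nsmul_eq_mul]
    have hcard : (((Finset.Icc 1 N).filter (· ≤ j)).card : ℝ) ≤ j := by
      have hsub : (Finset.Icc 1 N).filter (· ≤ j) ⊆ Finset.Icc 1 j := by
        intro x
        simp only [mem_filter, Finset.mem_Icc]
        rintro ⟨⟨a, b⟩, c⟩
        exact ⟨a, c⟩
      have := Finset.card_le_card hsub
      rw [Nat.card_Icc] at this
      exact_mod_cast this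
    calc _ ≤ (j : ℝ) * (phi (j + 1) 1 * (1 / (j : ℝ))) :=
          mul_le_mul_of_nonneg_right hcard (by positivity)
      _ = phi (j + 1) 1 := by field_simp
      _ ≤ X := hphi
  · rw [Finset.sum_mul]
    have hsub : (Finset.Icc 1 N).filter (fun y => ¬ y ≤ j) ⊆ Finset.Icc (j + 1) N := by
      intro x
      simp only [mem_filter, Finset.mem_Icc]
      rintro ⟨⟨a, b⟩, c⟩
      exact ⟨by omega, b⟩
    refine le_trans (Finset.sum_le_sum fun y _ => ?_)
      (Finset.sum_le_sum_of_subset_of_nonneg hsub fun y _ _ => by positivity)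
    rw [mul_comm]
    exact mul_le_mul_of_nonneg_left hmax (by positivity)

/-! ## The instance -/

theorem sum_powersetCard_max (k : ℕ) (g : ℕ → ℝ) : ∀ N : ℕ,
    ∑ S ∈ (Finset.Icc 1 N).powersetCard (k + 1), g (S.sup id) =
      ∑ M ∈ Finset.Icc 1 N, ((M - 1).choose k : ℝ) * g M := by
  intro N
  induction N with
  | zero =>
    rw [Finset.powersetCard_eq_empty.2 (by simp)]
    simp
  | succ N ih =>
    have e1 : Finset.Icc 1 (N + 1) = insert (N + 1) (Finset.Icc 1 N) := by
      ext x
      simp only [Finset.mem_insert, Finset.mem_Icc]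
      omega
    have hnot : N + 1 ∉ Finset.Icc 1 N := by simp
    rw [e1, Finset.powersetCard_succ_insert hnot, Finset.sum_insert hnot, ← ih, Finset.sum_union]
    · rw [add_comm]
      congr 1
      rw [Finset.sum_image]
      · have h1 : ∀ S ∈ (Finset.Icc 1 N).powersetCard k, g ((insert (N + 1) S).sup id) = g (N + 1) := by
          intro S hS
          rw [mem_powersetCard] at hS
          rw [Finset.sup_insert]
          congr 1
          apply max_eq_left
          refine Finset.sup_le fun x hx => ?_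
          have := Finset.mem_Icc.1 (hS.1 hx)
          simp only [id]
          omega
        rw [Finset.sum_congr rfl h1, Finset.sum_const, Finset.card_powersetCard, Nat.card_Icc,
          nsmul_eq_mul]
      · intro S hS S' hS' h
        have hS1 := mem_powersetCard.1 (Finset.mem_coe.1 hS)
        have hS1' := mem_powersetCard.1 (Finset.mem_coe.1 hS')
        have h1 : N + 1 ∉ S := fun h => hnot (hS1.1 h)
        have h2 : N + 1 ∉ S' := fun h => hnot (hS1'.1 h)
        rw [← Finset.erase_insert h1, ← Finset.erase_insert h2, h]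
    · rw [Finset.disjoint_left]
      intro S hS hS'
      obtain ⟨S', _, rfl⟩ := Finset.mem_image.1 hS'
      exact hnot ((mem_powersetCard.1 hS).1 (Finset.mem_insert_self _ _))

/-- The instance: the maximum is `M` with probability proportional to `1 / M` (for `n ≤ M ≤ N`) and
the rest is uniform given the maximum. -/
noncomputable def inst (n N : ℕ) (S : Finset ℕ) : ℝ := n.factorial * ka n (S.sup id) / Wt n N

theorem Wt_pos {n N : ℕ} (hn : 1 ≤ n) (h : n ≤ N) : 0 < Wt n N := by
  rw [Wt]
  refine Finset.sum_pos (fun y hy => ?_) ⟨n, by simp [h]⟩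
  have := (Finset.mem_Icc.1 hy).1
  have : (0 : ℝ) < y := by exact_mod_cast (by omega : 0 < y)
  positivity

theorem isInstance_inst {n N : ℕ} (hn : 1 ≤ n) (h : n ≤ N) : IsInstance n N (inst n N) := by
  have hW := Wt_pos hn h
  refine ⟨fun S => ?_, ?_⟩
  · have := ka_nonneg n (S.sup id)
    rw [inst]
    positivity
  · obtain ⟨k, rfl⟩ : ∃ k, n = k + 1 := ⟨n - 1, by omega⟩
    have h1 := sum_powersetCard_max k
      (fun M => ((k + 1).factorial : ℝ) * ka (k + 1) M / Wt (k + 1) N) N
    simp only [inst]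
    rw [h1]
    have h2 : ∀ M ∈ Finset.Icc 1 N,
        ((M - 1).choose k : ℝ) * (((k + 1).factorial : ℝ) * ka (k + 1) M / Wt (k + 1) N) =
          if k + 1 ≤ M then (1 / (M : ℝ)) / Wt (k + 1) N else 0 := by
      intro M hM
      have hM1 := (Finset.mem_Icc.1 hM).1
      obtain ⟨m, rfl⟩ : ∃ m, M = m + 1 := ⟨M - 1, by omega⟩
      split_ifs with h3
      · have e1 : ((m + 1).descFactorial (k + 1) : ℝ) = (m + 1) * (m.choose k * k.factorial) := by
          rw [Nat.succ_descFactorial_succ, Nat.descFactorial_eq_factorial_mul_choose]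
          push_cast
          ring
        have e2 : (((k + 1).factorial : ℕ) : ℝ) = (k + 1) * k.factorial := by
          rw [Nat.factorial_succ]; push_cast; ring
        have p1 : (0 : ℝ) < m.choose k := by exact_mod_cast Nat.choose_pos (by omega)
        have p2 : (0 : ℝ) < k.factorial := by exact_mod_cast Nat.factorial_pos k
        rw [ka, e1, e2, Nat.add_sub_cancel]
        push_cast
        field_simp
      · rw [Nat.add_sub_cancel, Nat.choose_eq_zero_of_lt (by omega)]
        simp
    rw [Finset.sum_congr rfl h2, ← Finset.sum_filter, ← Finset.sum_div]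
    have e3 : (Finset.Icc 1 N).filter (fun M => k + 1 ≤ M) = Finset.Icc (k + 1) N := by
      ext x
      simp only [mem_filter, Finset.mem_Icc]
      omega
    rw [e3, ← Wt, div_self hW.ne']

theorem winProb_inst (n N : ℕ) (A : List ℕ → ℝ) :
    winProb n N (inst n N) A = T A n N n [] / Wt n N := by
  rw [winProb, T, List.toFinset_nil, Finset.sdiff_empty, ← sum_lists, Finset.sum_div]
  refine Finset.sum_congr rfl fun S _ => ?_
  have hf : (0 : ℝ) < n.factorial := by exact_mod_cast Nat.factorial_pos n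
  have h1 : ∀ l ∈ orderings S, ka n (mx ([] ++ l)) * winOn A (mx ([] ++ l)) [] l =
      ka n (S.sup id) * winOn A (S.sup id) [] l := by
    intro l hl
    have : mx ([] ++ l) = S.sup id := by
      rw [List.nil_append, mx, (mem_lists.1 hl).2]
    rw [this]
  rw [Finset.sum_congr rfl h1, ← Finset.mul_sum, inst]
  field_simp

theorem log_succ_sub {m : ℕ} (hm : 1 ≤ m) :
    Real.log ((m + 1 : ℕ) : ℝ) - Real.log (m : ℝ) ≤ 1 / (m : ℝ) := by
  have p1 : (0 : ℝ) < (m : ℝ) := by exact_mod_cast hm
  have p2 : (0 : ℝ) < ((m + 1 : ℕ) : ℝ) := by positivity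
  have h1 := Real.log_le_sub_one_of_pos (div_pos p2 p1)
  rw [Real.log_div p2.ne' p1.ne'] at h1
  have h2 : ((m + 1 : ℕ) : ℝ) / (m : ℝ) = 1 + 1 / (m : ℝ) := by
    rw [Nat.cast_succ]
    field_simp
  rw [h2] at h1
  linarith

theorem log_le_Wt {n : ℕ} (hn : 1 ≤ n) (t : ℕ) :
    Real.log ((n + t + 1 : ℕ) : ℝ) - Real.log n ≤ Wt n (n + t) := by
  induction t with
  | zero =>
    have e : Wt n (n + 0) = 1 / (n : ℝ) := by simp [Wt]
    rw [e]
    exact log_succ_sub hn
  | succ t ih =>
    have e : Wt n (n + (t + 1)) = Wt n (n + t) + 1 / ((n + t + 1 : ℕ) : ℝ) := by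
      rw [Wt, Wt, ← add_assoc, Finset.sum_Icc_succ_top (by omega)]
    rw [e]
    have h := log_succ_sub (m := n + t + 1) (by omega)
    have e2 : n + (t + 1) + 1 = n + t + 1 + 1 := by ring
    rw [e2]
    linarith

theorem main_bound {n N : ℕ} (hn : 2 ≤ n) (hN : n ≤ N) {A : List ℕ → ℝ} (hA : IsAlgorithm A) :
    winProb n N (inst n N) A ≤ (1 + 1 / Wt n N) * (Real.exp (-1) + 1 / n) := by
  have hW := Wt_pos (by omega : 1 ≤ n) hN
  rw [winProb_inst, div_le_iff₀ hW]
  refine (T_start hA hn).trans (le_of_eq ?_)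
  field_simp
  ring

/-- With `N = ⌈exp (2 / ε)⌉ n` values. -/
theorem main (ε : ℝ) (hε : 0 < ε) (n : ℕ) (hn : 2 + ⌈Real.exp (2 / ε)⌉₊ ≤ n) :
    ∃ N : ℕ, N = ⌈Real.exp (2 / ε)⌉₊ * n ∧ N ≤ n ^ 2 ∧
      ∃ D : Finset ℕ → ℝ, IsInstance n N D ∧
        ∀ A : List ℕ → ℝ, IsAlgorithm A → winProb n N D A ≤ Real.exp (-1) + ε := by
  set C := ⌈Real.exp (2 / ε)⌉₊ with hC
  have hC1 : Real.exp (2 / ε) ≤ C := Nat.le_ceil _
  have h2 : 2 / ε + 1 ≤ Real.exp (2 / ε) := Real.add_one_le_exp _
  have hpos : 0 < 2 / ε := by positivity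
  have hCpos : 1 ≤ C := by
    have : (0 : ℝ) < C := by linarith
    exact_mod_cast this
  have hN : n ≤ C * n := Nat.le_mul_of_pos_left n hCpos
  refine ⟨C * n, rfl, ?_, inst n (C * n), isInstance_inst (by omega) hN, fun A hA => ?_⟩
  · rw [pow_two]
    exact Nat.mul_le_mul_right n (by omega)
  refine (main_bound (by omega) hN hA).trans ?_
  have hnpos : (0 : ℝ) < n := by exact_mod_cast (by omega : 0 < n)
  have hCpos' : (0 : ℝ) < C := by exact_mod_cast hCpos
  have hW : 2 / ε ≤ Wt n (C * n) := by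
    obtain ⟨t, ht⟩ := Nat.exists_eq_add_of_le hN
    have h3 := log_le_Wt (n := n) (by omega) t
    rw [ht]
    refine le_trans ?_ h3
    rw [← ht, ← Real.log_div (by positivity) hnpos.ne']
    rw [Real.le_log_iff_exp_le (by positivity)]
    refine hC1.trans ?_
    rw [le_div_iff₀ hnpos]
    push_cast
    linarith
  have hWpos : 0 < Wt n (C * n) := lt_of_lt_of_le hpos hW
  have h4 : 1 / Wt n (C * n) ≤ ε / 2 := by
    rw [div_le_div_iff₀ hWpos (by norm_num)]
    rw [div_le_iff₀ hε] at hW
    linarith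
  have hn2 : (2 : ℝ) / ε + 2 ≤ n := by
    have : ((2 + C : ℕ) : ℝ) ≤ n := by exact_mod_cast hn
    push_cast at this
    linarith
  have h5 : 1 / (n : ℝ) ≤ ε / 2 := by
    rw [div_le_div_iff₀ hnpos (by norm_num)]
    have : 2 / ε ≤ n := by linarith
    rw [div_le_iff₀ hε] at this
    linarith
  have h6 : 1 / (n : ℝ) ≤ 1 / 2 := by
    rw [div_le_div_iff₀ hnpos (by norm_num)]
    linarith
  have h7 : Real.exp (-1) ≤ 1 / 2 := by
    rw [Real.exp_neg, inv_eq_one_div, div_le_div_iff₀ (Real.exp_pos 1) (by norm_num)]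
    have := Real.add_one_le_exp (1 : ℝ)
    linarith
  have h8 : 0 < 1 / Wt n (C * n) := by positivity
  have h9 := Real.exp_pos (-1)
  have h10 : (0 : ℝ) < 1 / n := by positivity
  nlinarith

end Pool.Agent.V11237.Googol
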