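import Mathlib

/-!
# Polyamorous scheduling and poly density
-/

set_option autoImplicit false

namespace Pool.Agent.V11237.Poly

/-- An instance: a finite simple graph with at least one edge, given by its set of edges (no loops),
and a frequency `f e ≥ 1` for every edge. -/
structure Instance (V : Type) where
  /-- the edges -/
  E : Finset (Sym2 V)
  /-- there are no loops -/
  loopless : ∀ e ∈ E, ¬ e.IsDiag
  /-- there is an edge -/
  nonempty : E.Nonempty
  /-- the frequencies -/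
  f : Sym2 V → ℕ
  /-- the frequencies are positive -/
  pos : ∀ e ∈ E, 1 ≤ f e

variable {V : Type}

/-- `M` is a matching: a set of edges no two of which have a common endpoint. -/
def IsMatching (I : Instance V) (M : Finset (Sym2 V)) : Prop :=
  M ⊆ I.E ∧ ∀ e ∈ M, ∀ e' ∈ M, e ≠ e' → ∀ v, ¬ (v ∈ e ∧ v ∈ e')

/-- Inclusion-maximal matchings. -/
def IsMaximalMatching (I : Instance V) (M : Finset (Sym2 V)) : Prop :=
  IsMatching I M ∧ ∀ M', IsMatching I M' → M ⊆ M' → M' = M

/-- The instance is schedulable: there is a schedule (a matching for every day) in which every edge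
`e` occurs in every window of `f e` consecutive days. -/
def Schedulable (I : Instance V) : Prop :=
  ∃ S : ℕ → Finset (Sym2 V), (∀ t, IsMatching I (S t)) ∧
    ∀ e ∈ I.E, ∀ t, ∃ i < I.f e, e ∈ S (t + i)

/-- `m` is the maximum of `∑_{e ∈ M} z_e f_e` over the maximal matchings `M`. -/
def IsMaxWeight (I : Instance V) (z : Sym2 V → ℝ) (m : ℝ) : Prop :=
  IsGreatest {s : ℝ | ∃ M, IsMaximalMatching I M ∧ s = ∑ e ∈ M, z e * (I.f e : ℝ)} m

/-- `d` is the poly density of the instance: the maximum of `1 / max_M ∑_{e ∈ M} z_e f_e` over the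
weightings `z` of the edges with values in `[0,1]` and sum `1`. -/
def IsPolyDensity (I : Instance V) (d : ℝ) : Prop :=
  IsGreatest {x : ℝ | ∃ (z : Sym2 V → ℝ) (m : ℝ), (∀ e ∈ I.E, 0 ≤ z e ∧ z e ≤ 1) ∧
    ∑ e ∈ I.E, z e = 1 ∧ IsMaxWeight I z m ∧ x = 1 / m} d

/-- The frequencies of the counterexample. -/
def freq (e : Sym2 (Fin 5)) : ℕ :=
  if e = s(0, 2) then 2 else if e = s(0, 3) then 12 else if e = s(0, 4) then 4
  else if e = s(1, 3) then 3 else 2

/-- The counterexample: two vertices `0`, `1` on one side, `2`, `3`, `4` on the other side, the edges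
`02`, `03`, `04`, `13`, `14` with frequencies `2`, `12`, `4`, `3`, `2`. -/
def ex : Instance (Fin 5) where
  E := {s(0, 2), s(0, 3), s(0, 4), s(1, 3), s(1, 4)}
  loopless := by decide
  nonempty := ⟨s(0, 2), by decide⟩
  f := freq
  pos := by decide

instance (M : Finset (Sym2 (Fin 5))) : Decidable (IsMatching ex M) := by
  unfold IsMatching
  infer_instance

theorem not_both {M : Finset (Sym2 (Fin 5))} (hM : IsMatching ex M) {e e' : Sym2 (Fin 5)}
    (hne : e ≠ e') {v : Fin 5} (hv : v ∈ e) (hv' : v ∈ e') (h : e ∈ M) : e' ∉ M :=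
  fun h' => hM.2 e h e' h' hne v ⟨hv, hv'⟩

theorem not_schedulable : ¬ Schedulable ex := by
  rintro ⟨S, hS, hf⟩
  have ha : ∀ t, s(0, 2) ∈ S t ∨ s(0, 2) ∈ S (t + 1) := by
    intro t
    obtain ⟨i, hi, h⟩ := hf s(0, 2) (by decide) t
    have : i < 2 := hi
    interval_cases i
    · exact Or.inl h
    · exact Or.inr h
  have he : ∀ t, s(1, 4) ∈ S t ∨ s(1, 4) ∈ S (t + 1) := by
    intro t
    obtain ⟨i, hi, h⟩ := hf s(1, 4) (by decide) t
    have : i < 2 := hi
    interval_cases i
    · exact Or.inl h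
    · exact Or.inr h
  obtain ⟨i, _, hd⟩ := hf s(0, 3) (by decide) 2
  obtain ⟨t, ht⟩ : ∃ t, 2 + i = t + 2 := ⟨i, by omega⟩
  rw [ht] at hd
  have ha0 : s(0, 2) ∉ S (t + 2) :=
    not_both (hS _) (by decide) (v := 0) (by decide) (by decide) hd
  have ha1 : s(0, 2) ∈ S (t + 1) := (ha (t + 1)).resolve_right ha0
  have ha3 : s(0, 2) ∈ S (t + 3) := (ha (t + 2)).resolve_left ha0
  have hb1 : s(0, 4) ∉ S (t + 1) :=
    not_both (hS _) (by decide) (v := 0) (by decide) (by decide) ha1
  have hb2 : s(0, 4) ∉ S (t + 2) :=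
    not_both (hS _) (by decide) (v := 0) (by decide) (by decide) hd
  have hb3 : s(0, 4) ∉ S (t + 3) :=
    not_both (hS _) (by decide) (v := 0) (by decide) (by decide) ha3
  have hb0 : s(0, 4) ∈ S t := by
    obtain ⟨i, hi, h⟩ := hf s(0, 4) (by decide) t
    have : i < 4 := hi
    interval_cases i
    · exact h
    · exact absurd h hb1
    · exact absurd h hb2
    · exact absurd h hb3
  have hb4 : s(0, 4) ∈ S (t + 4) := by
    obtain ⟨i, hi, h⟩ := hf s(0, 4) (by decide) (t + 1)
    have : i < 4 := hi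
    interval_cases i
    · exact absurd h hb1
    · exact absurd h hb2
    · exact absurd h hb3
    · exact h
  have he0 : s(1, 4) ∉ S t :=
    not_both (hS _) (by decide) (v := 4) (by decide) (by decide) hb0
  have he4 : s(1, 4) ∉ S (t + 4) :=
    not_both (hS _) (by decide) (v := 4) (by decide) (by decide) hb4
  have he1 : s(1, 4) ∈ S (t + 1) := (he t).resolve_left he0
  have he3 : s(1, 4) ∈ S (t + 3) := (he (t + 3)).resolve_right he4
  obtain ⟨i, hi, h⟩ := hf s(1, 3) (by decide) (t + 1)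
  have : i < 3 := hi
  interval_cases i
  · exact not_both (hS _) (by decide) (v := 1) (by decide) (by decide) he1 h
  · exact not_both (hS _) (by decide) (v := 3) (by decide) (by decide) hd h
  · exact not_both (hS _) (by decide) (v := 1) (by decide) (by decide) he3 h

/-! ## The poly density -/

theorem maximal_of {e₁ e₂ : Sym2 (Fin 5)} (h1 : IsMatching ex {e₁, e₂})
    (h2 : ∀ e ∈ ex.E, e = e₁ ∨ e = e₂ ∨ (∃ v, v ∈ e₁ ∧ v ∈ e) ∨ (∃ v, v ∈ e₂ ∧ v ∈ e)) :
    IsMaximalMatching ex {e₁, e₂} := by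
  refine ⟨h1, fun M hM hAM => Finset.Subset.antisymm (fun e he => ?_) hAM⟩
  have hm1 : e₁ ∈ M := hAM (Finset.mem_insert_self _ _)
  have hm2 : e₂ ∈ M := hAM (Finset.mem_insert_of_mem (Finset.mem_singleton_self _))
  rw [Finset.mem_insert, Finset.mem_singleton]
  by_contra hcon
  push Not at hcon
  rcases h2 e (hM.1 he) with h | h | ⟨v, hv, hv'⟩ | ⟨v, hv, hv'⟩
  · exact hcon.1 h
  · exact hcon.2 h
  · exact hM.2 e₁ hm1 e he hcon.1.symm v ⟨hv, hv'⟩
  · exact hM.2 e₂ hm2 e he hcon.2.symm v ⟨hv, hv'⟩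

theorem max1 : IsMaximalMatching ex {s(0, 2), s(1, 3)} := maximal_of (by decide) (by decide)

theorem max2 : IsMaximalMatching ex {s(0, 2), s(1, 4)} := maximal_of (by decide) (by decide)

theorem max3 : IsMaximalMatching ex {s(0, 3), s(1, 4)} := maximal_of (by decide) (by decide)

theorem max4 : IsMaximalMatching ex {s(0, 4), s(1, 3)} := maximal_of (by decide) (by decide)

theorem sum_pair' (z : Sym2 (Fin 5) → ℝ) {e e' : Sym2 (Fin 5)} (h : e ≠ e') :
    ∑ x ∈ ({e, e'} : Finset (Sym2 (Fin 5))), z x * (ex.f x : ℝ) = z e * ex.f e + z e' * ex.f e' :=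
  Finset.sum_pair h

theorem maxWeight_ge {z : Sym2 (Fin 5) → ℝ} {m : ℝ} (hz : ∑ e ∈ ex.E, z e = 1)
    (hm : IsMaxWeight ex z m) : 6 / 5 ≤ m := by
  have h1 : z s(0, 2) * 2 + z s(1, 3) * 3 ≤ m := hm.2 ⟨_, max1, (sum_pair' z (by decide)).symm⟩
  have h2 : z s(0, 2) * 2 + z s(1, 4) * 2 ≤ m := hm.2 ⟨_, max2, (sum_pair' z (by decide)).symm⟩
  have h3 : z s(0, 3) * 12 + z s(1, 4) * 2 ≤ m := hm.2 ⟨_, max3, (sum_pair' z (by decide)).symm⟩
  have h4 : z s(0, 4) * 4 + z s(1, 3) * 3 ≤ m := hm.2 ⟨_, max4, (sum_pair' z (by decide)).symm⟩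
  have h5 : z s(0, 2) + (z s(0, 3) + (z s(0, 4) + (z s(1, 3) + z s(1, 4)))) = 1 := by
    rw [← hz]
    change _ = ∑ e ∈ ({s(0, 2), s(0, 3), s(0, 4), s(1, 3), s(1, 4)} : Finset (Sym2 (Fin 5))), z e
    rw [Finset.sum_insert (by decide), Finset.sum_insert (by decide),
      Finset.sum_insert (by decide), Finset.sum_insert (by decide), Finset.sum_singleton]
  linarith

/-- The optimal weighting. -/
noncomputable def z₀ (e : Sym2 (Fin 5)) : ℝ :=
  if e = s(0, 2) then 6 / 10 else if e = s(0, 3) then 1 / 10 else if e = s(0, 4) then 3 / 10 else 0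

theorem star_card {M : Finset (Sym2 (Fin 5))} (hM : IsMatching ex M) :
    (M.filter fun e => (0 : Fin 5) ∈ e).card ≤ 1 := by
  rw [Finset.card_le_one]
  intro a ha b hb
  rw [Finset.mem_filter] at ha hb
  by_contra hne
  exact hM.2 a ha.1 b hb.1 hne 0 ⟨ha.2, hb.2⟩

theorem z₀_mul {e : Sym2 (Fin 5)} (he : e ∈ ex.E) :
    z₀ e * (ex.f e : ℝ) = if (0 : Fin 5) ∈ e then 6 / 5 else 0 := by
  have h : e = s(0, 2) ∨ e = s(0, 3) ∨ e = s(0, 4) ∨ e = s(1, 3) ∨ e = s(1, 4) := by
    change e ∈ ({s(0, 2), s(0, 3), s(0, 4), s(1, 3), s(1, 4)} : Finset (Sym2 (Fin 5))) at he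
    simpa using he
  rcases h with rfl | rfl | rfl | rfl | rfl
  · have : ex.f s(0, 2) = 2 := rfl
    rw [this, z₀, if_pos rfl, if_pos (by decide)]; norm_num
  · have : ex.f s(0, 3) = 12 := rfl
    rw [this, z₀, if_neg (by decide), if_pos rfl, if_pos (by decide)]; norm_num
  · have : ex.f s(0, 4) = 4 := rfl
    rw [this, z₀, if_neg (by decide), if_neg (by decide), if_pos rfl, if_pos (by decide)]; norm_num
  · rw [z₀, if_neg (by decide), if_neg (by decide), if_neg (by decide), if_neg (by decide), zero_mul]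
  · rw [z₀, if_neg (by decide), if_neg (by decide), if_neg (by decide), if_neg (by decide), zero_mul]

theorem maxWeight_z₀ : IsMaxWeight ex z₀ (6 / 5) := by
  constructor
  · refine ⟨_, max1, ?_⟩
    rw [sum_pair' z₀ (by decide), z₀_mul (by decide), z₀_mul (by decide), if_pos (by decide),
      if_neg (by decide), add_zero]
  · rintro s ⟨M, hM, rfl⟩
    rw [Finset.sum_congr rfl fun e he => z₀_mul (hM.1.1 he), ← Finset.sum_filter,
      Finset.sum_const, nsmul_eq_mul]
    have h : ((M.filter fun e => (0 : Fin 5) ∈ e).card : ℝ) ≤ 1 := by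
      exact_mod_cast star_card hM.1
    linarith

theorem polyDensity : IsPolyDensity ex (5 / 6) := by
  constructor
  · refine ⟨z₀, 6 / 5, ?_, ?_, maxWeight_z₀, by norm_num⟩
    · intro e _
      rw [z₀]
      split_ifs <;> norm_num
    · change ∑ e ∈ ({s(0, 2), s(0, 3), s(0, 4), s(1, 3), s(1, 4)} : Finset (Sym2 (Fin 5))), z₀ e = 1
      rw [Finset.sum_insert (by decide), Finset.sum_insert (by decide),
        Finset.sum_insert (by decide), Finset.sum_insert (by decide), Finset.sum_singleton]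
      have e1 : z₀ s(0, 2) = 6 / 10 := by rw [z₀, if_pos rfl]
      have e2 : z₀ s(0, 3) = 1 / 10 := by rw [z₀, if_neg (by decide), if_pos rfl]
      have e3 : z₀ s(0, 4) = 3 / 10 := by
        rw [z₀, if_neg (by decide), if_neg (by decide), if_pos rfl]
      have e4 : z₀ s(1, 3) = 0 := by
        rw [z₀, if_neg (by decide), if_neg (by decide), if_neg (by decide)]
      have e5 : z₀ s(1, 4) = 0 := by
        rw [z₀, if_neg (by decide), if_neg (by decide), if_neg (by decide)]
      rw [e1, e2, e3, e4, e5]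
      norm_num
  · rintro x ⟨z, m, _, hz, hm, rfl⟩
    have := maxWeight_ge hz hm
    rw [div_le_div_iff₀ (by linarith) (by norm_num)]
    linarith

end Pool.Agent.V11237.Poly
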