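import Mathlib

/-!
# Multipoint trajectories under discrete acceleration
-/

set_option autoImplicit false

namespace Pool.Agent.V11237.Speed

/-- A configuration: a pair of a position and a velocity in `ℤ^d`. -/
abbrev Conf (d : ℕ) : Type := (Fin d → ℤ) × (Fin d → ℤ)

/-- `c 0, ..., c ℓ` is a trajectory: the new velocity is the difference of the positions, and each
coordinate of the velocity changes by at most one in each step. -/
def IsTrajectory {d : ℕ} (ℓ : ℕ) (c : ℕ → Conf d) : Prop :=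
  ∀ i < ℓ, (c (i + 1)).2 = (c (i + 1)).1 - (c i).1 ∧ ∀ k, |(c (i + 1)).2 k - (c i).2 k| ≤ 1

/-- The configuration `(p, v)` visits `x` if `x` lies on the closed segment from `p - v` to `p`. -/
def Visits {d : ℕ} (c : Conf d) (x : Fin d → ℤ) : Prop :=
  (fun k => (x k : ℝ)) ∈ segment ℝ (fun k => ((c.1 k - c.2 k : ℤ) : ℝ)) (fun k => (c.1 k : ℝ))

/-- Feasible trajectories of length `ℓ` for the cities `x 0, ..., x n`. -/
def Feasible {d n : ℕ} (x : Fin (n + 1) → (Fin d → ℤ)) (ℓ : ℕ) (c : ℕ → Conf d) : Prop :=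
  IsTrajectory ℓ c ∧ c 0 = (x 0, 0) ∧ c ℓ = (x (Fin.last n), 0) ∧
    ∃ idx : Fin (n + 1) → ℕ, Monotone idx ∧ ∀ j, idx j ≤ ℓ ∧ Visits (c (idx j)) (x j)

/-- Optimal trajectories: feasible and of minimum length. -/
def Optimal {d n : ℕ} (x : Fin (n + 1) → (Fin d → ℤ)) (ℓ : ℕ) (c : ℕ → Conf d) : Prop :=
  Feasible x ℓ c ∧ ∀ (ℓ' : ℕ) (c' : ℕ → Conf d), Feasible x ℓ' c' → ℓ ≤ ℓ'

/-! ## One dimension -/

theorem le_of_sq_le_sq' {a b : ℝ} (h : a ^ 2 ≤ b ^ 2) (hb : 0 ≤ b) : a ≤ b := by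
  by_contra hcon
  push Not at hcon
  nlinarith

section OneD

variable {v x : ℕ → ℤ} {ℓ : ℕ}

theorem vel_le (hv0 : v 0 = 0) (hstep : ∀ j < ℓ, |v (j + 1) - v j| ≤ 1) :
    ∀ j ≤ ℓ, |v j| ≤ j := by
  intro j
  induction j with
  | zero => intro _; simp [hv0]
  | succ j ih =>
    intro hj
    have h1 := abs_le.1 (ih (by omega))
    have h2 := abs_le.1 (hstep j (by omega))
    rw [abs_le]
    push_cast
    constructor <;> linarith [h1.1, h1.2, h2.1, h2.2]

theorem vel_back {i : ℕ} (hi : i ≤ ℓ) (hstep : ∀ j < ℓ, |v (j + 1) - v j| ≤ 1) :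
    ∀ j ≤ i, |v (i - j) - v i| ≤ j := by
  intro j
  induction j with
  | zero => intro _; simp
  | succ j ih =>
    intro hj
    have h1 := abs_le.1 (ih (by omega))
    have h2 := abs_le.1 (hstep (i - (j + 1)) (by omega))
    have e : i - (j + 1) + 1 = i - j := by omega
    rw [e] at h2
    rw [abs_le]
    push_cast
    constructor <;> linarith [h1.1, h1.2, h2.1, h2.2]

theorem vel_fwd {i : ℕ} (hstep : ∀ j < ℓ, |v (j + 1) - v j| ≤ 1) :
    ∀ m, i + m ≤ ℓ → |v (i + m) - v i| ≤ m := by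
  intro m
  induction m with
  | zero => intro _; simp
  | succ m ih =>
    intro hm
    have h1 := abs_le.1 (ih (by omega))
    have h2 := abs_le.1 (hstep (i + m) (by omega))
    rw [abs_le, ← add_assoc]
    push_cast
    constructor <;> linarith [h1.1, h1.2, h2.1, h2.2]

theorem seg1 (hv0 : v 0 = 0) (hstep : ∀ j < ℓ, |v (j + 1) - v j| ≤ 1) (hx0 : x 0 = 0)
    (hx : ∀ j < ℓ, x (j + 1) = x j + v (j + 1)) :
    ∀ A : ℕ, A ≤ ℓ → 2 * x A ≤ A * (A + 1) := by
  intro A
  induction A with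
  | zero => intro _; simp [hx0]
  | succ A ih =>
    intro hA
    have h1 := ih (by omega)
    have h2 := (abs_le.1 (vel_le hv0 hstep (A + 1) hA)).2
    rw [hx A (by omega)]
    push_cast at h2 ⊢
    nlinarith

theorem seg2 {S : ℝ} (hS : ∀ j ≤ ℓ, |(v j : ℝ)| ≤ S)
    (hx : ∀ j < ℓ, x (j + 1) = x j + v (j + 1)) (A : ℕ) :
    ∀ n : ℕ, A + n ≤ ℓ → (x (A + n) : ℝ) - x A ≤ n * S := by
  intro n
  induction n with
  | zero => intro _; simp
  | succ n ih =>
    intro hn
    have h1 := ih (by omega)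
    have h2 := (abs_le.1 (hS (A + n + 1) (by omega))).2
    rw [← add_assoc, hx (A + n) (by omega)]
    push_cast at h2 ⊢
    linarith

theorem seg3 {i : ℕ} (hi : i ≤ ℓ) (hstep : ∀ j < ℓ, |v (j + 1) - v j| ≤ 1)
    (hx : ∀ j < ℓ, x (j + 1) = x j + v (j + 1)) :
    ∀ B : ℕ, B ≤ i → 2 * (x i - x (i - B)) ≤ 2 * B * v i + B * (B - 1) := by
  intro B
  induction B with
  | zero => intro _; simp
  | succ B ih =>
    intro hB
    have h1 := ih (by omega)
    have h2 := (abs_le.1 (vel_back hi hstep B (by omega))).2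
    have h3 := hx (i - (B + 1)) (by omega)
    have e : i - (B + 1) + 1 = i - B := by omega
    rw [e] at h3
    push_cast at h1 h2 ⊢
    nlinarith

theorem seg4 {i : ℕ} (hstep : ∀ j < ℓ, |v (j + 1) - v j| ≤ 1)
    (hx : ∀ j < ℓ, x (j + 1) = x j + v (j + 1)) :
    ∀ P : ℕ, i + P ≤ ℓ → 2 * P * v i - P * (P + 1) ≤ 2 * (x (i + P) - x i) := by
  intro P
  induction P with
  | zero => intro _; simp
  | succ P ih =>
    intro hP
    have h1 := ih (by omega)
    have h2 := (abs_le.1 (vel_fwd (i := i) hstep (P + 1) (by omega))).1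
    have h3 := hx (i + P) (by omega)
    rw [← add_assoc] at h2 ⊢
    rw [h3]
    push_cast at h1 h2 ⊢
    nlinarith

theorem seg5 (hvl : v ℓ = 0) (hstep : ∀ j < ℓ, |v (j + 1) - v j| ≤ 1)
    (hx : ∀ j < ℓ, x (j + 1) = x j + v (j + 1)) :
    ∀ Q : ℕ, Q ≤ ℓ → -(Q * (Q - 1) : ℤ) ≤ 2 * (x ℓ - x (ℓ - Q)) := by
  intro Q
  induction Q with
  | zero => intro _; simp
  | succ Q ih =>
    intro hQ
    have h1 := ih (by omega)
    have h2 := (abs_le.1 (vel_back (i := ℓ) le_rfl hstep Q (by omega))).1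
    have h3 := hx (ℓ - (Q + 1)) (by omega)
    have e : ℓ - (Q + 1) + 1 = ℓ - Q := by omega
    rw [e] at h3
    rw [hvl] at h2
    push_cast at h1 h2 ⊢
    nlinarith

theorem ar_case2 {R i u : ℝ} (hR' : 1000 ≤ R) (hiu : 0 ≤ i + u)
    (hlt : i + u ≤ 2 * (101 / 100 * R))
    (hp : R ^ 2 + u ^ 2 / 2 - 3 / 2 * (101 / 100 * R) - 1 / 4 ≤ ((i + u) / 2) ^ 2) :
    179 / 100 * R - 2 ≤ i := by
  have hRpos : (0 : ℝ) < R := by linarith
  obtain ⟨p, hpdef⟩ : ∃ p : ℝ, p = (i + u) / 2 := ⟨_, rfl⟩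
  rw [← hpdef] at hp
  have hp0 : 0 ≤ p := by rw [hpdef]; linarith
  have hpS : p ≤ 101 / 100 * R := by rw [hpdef]; linarith
  have hp2 : p ^ 2 ≤ (101 / 100 * R) ^ 2 := pow_le_pow_left₀ hp0 hpS 2
  have hu2 : u ≤ 21 / 100 * R := by
    have h7 : u ^ 2 ≤ (21 / 100 * R) ^ 2 := by nlinarith
    exact le_of_sq_le_sq' h7 (by positivity)
  have hpR : R - 1 ≤ p := by
    have h7 : (R - 1) ^ 2 ≤ p ^ 2 := by
      have : (0 : ℝ) ≤ u ^ 2 := sq_nonneg _
      nlinarith
    exact le_of_sq_le_sq' h7 hp0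
  have : i = 2 * p - u := by rw [hpdef]; ring
  linarith

theorem ar_case1a {R i u : ℝ} (hR' : 1000 ≤ R)
    (hmain : 2 * R ^ 2 + (101 / 100 * R) ^ 2 + (101 / 100 * R - u) ^ 2 - 3 * (101 / 100 * R) - 2 ≤
      2 * i * (101 / 100 * R)) (hu2 : u ≤ 1 / 2 * R) : 312 / 100 * R - 5 ≤ 2 * i := by
  have hRpos : (0 : ℝ) < R := by linarith
  have h7 : (202 / 100 * R) * (312 / 100 * R - 5) ≤ (202 / 100 * R) * (2 * i) := by
    have h8 : 0 ≤ (1 / 2 * R - u) * (1 / 2 * R - u) := mul_self_nonneg _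
    have h9 : 0 ≤ (1 / 2 * R - u) * R := mul_nonneg (by linarith) hRpos.le
    nlinarith
  exact le_of_mul_le_mul_left h7 (by positivity)

theorem ar_case1b {R i k u : ℝ} (hR' : 1000 ≤ R) (hik : i ≤ k) (hk0 : 0 ≤ k - u)
    (huS : u ≤ 101 / 100 * R)
    (hsecond : 2 * u ^ 2 - 2 * u - 4 * (101 / 100 * R) ≤ (k - u) ^ 2)
    (hmain : 2 * R ^ 2 + (101 / 100 * R) ^ 2 + (101 / 100 * R - u) ^ 2 - 3 * (101 / 100 * R) - 2 ≤
      2 * i * (101 / 100 * R)) (hu2 : 1 / 2 * R < u) : 312 / 100 * R - 5 ≤ i + k := by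
  have hRpos : (0 : ℝ) < R := by linarith
  have hku : (2414 / 1000 : ℝ) * u - 4 ≤ k := by
    by_contra hcon
    push Not at hcon
    have h7 : k - u < 1414 / 1000 * u - 4 := by linarith
    have h8 : (k - u) ^ 2 < (1414 / 1000 * u - 4) ^ 2 := pow_lt_pow_left₀ h7 hk0 (by norm_num)
    nlinarith
  have h7 : (202 / 100 * R) * (312 / 100 * R - 5) ≤
      (202 / 100 * R) * (1745 / 1000 * i + 255 / 1000 * k) := by
    have h9 : (202 / 100 * R) * (255 / 1000 * ((2414 / 1000 : ℝ) * u - 4)) ≤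
        (202 / 100 * R) * (255 / 1000 * k) := by
      apply mul_le_mul_of_nonneg_left _ (by positivity)
      linarith
    have h10 : 0 ≤ (u - 6537 / 10000 * R) ^ 2 := sq_nonneg _
    have h12 : u * R ≤ 101 / 100 * R * R := mul_le_mul_of_nonneg_right huS hRpos.le
    nlinarith
  have h8 := le_of_mul_le_mul_left h7 (by positivity)
  linarith

theorem ar_second {L S k u P y z ε : ℝ} (hε : ε = 0 ∨ ε = 1) (hP : 2 * P = k + u - ε)
    (h4 : 2 * P * u - P * (P + 1) ≤ 2 * (y - z))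
    (h5 : -((k - P) * (k - P - 1)) ≤ 2 * (L - y)) (hz : -S ≤ z - L) :
    2 * u ^ 2 - 2 * u - 4 * S ≤ (k - u) ^ 2 := by
  have hP' : P = (k + u - ε) / 2 := by linarith
  rw [hP'] at h4 h5
  rcases hε with h | h
  · rw [h] at h4 h5
    nlinarith
  · rw [h] at h4 h5
    nlinarith

theorem ar_first {L S i u A y z ε : ℝ} (hε : ε = 0 ∨ ε = 1) (hP : 2 * A = i + u - ε)
    (h1 : 2 * y ≤ A * (A + 1)) (h3 : 2 * (z - y) ≤ 2 * (i - A) * u + (i - A) * (i - A - 1))
    (hz : -S ≤ z - L) (hu : u ≤ S) :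
    L + u ^ 2 / 2 - 3 / 2 * S - 1 / 4 ≤ ((i + u) / 2) ^ 2 := by
  have hP' : A = (i + u - ε) / 2 := by linarith
  rw [hP'] at h1 h3
  rcases hε with h | h
  · rw [h] at h1 h3
    nlinarith
  · rw [h] at h1 h3
    nlinarith

theorem ar_main {Q S i u A B n x1 x2 x3 : ℝ} (hA : A ≤ S ∧ S < A + 1)
    (hB : B ≤ S - u ∧ S - u < B + 1) (hB0 : 0 ≤ B) (hn : i = A + n + B)
    (h1 : 2 * x1 ≤ A * (A + 1)) (h2 : x2 - x1 ≤ n * S)
    (h3 : 2 * (x3 - x2) ≤ 2 * B * u + B * (B - 1)) (hz : -S ≤ x3 - Q) :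
    2 * Q + S ^ 2 + (S - u) ^ 2 - 3 * S - 2 ≤ 2 * i * S := by
  have hA2 : (S - A) ^ 2 ≤ 1 := by nlinarith [hA.1, hA.2]
  have hB2 : (S - u - B) ^ 2 ≤ 1 := by nlinarith [hB.1, hB.2]
  have hn' : n = i - A - B := by linarith
  rw [hn'] at h2
  nlinarith [hA.1]

theorem exists_half (a : ℤ) : ∃ ε : ℤ, (ε = 0 ∨ ε = 1) ∧ 2 * (a / 2) = a - ε := by
  rcases Int.emod_two_eq_zero_or_one a with h | h
  · exact ⟨0, Or.inl rfl, by omega⟩
  · exact ⟨1, Or.inr rfl, by omega⟩

theorem oneD {i : ℕ} {L : ℤ} {R : ℝ} (hv0 : v 0 = 0) (hvl : v ℓ = 0)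
    (hstep : ∀ j < ℓ, |v (j + 1) - v j| ≤ 1) (hx0 : x 0 = 0)
    (hx : ∀ j < ℓ, x (j + 1) = x j + v (j + 1)) (hxl : x ℓ = L) (hi : 2 * i ≤ ℓ)
    (hS : ∀ j ≤ ℓ, |(v j : ℝ)| ≤ 101 / 100 * R) (hxi : |(x i : ℝ) - L| ≤ 101 / 100 * R)
    (hR : R ^ 2 = L) (hR' : 1000 ≤ R) : 312 / 100 * R - 5 ≤ ℓ := by
  obtain ⟨k, hk⟩ : ∃ k, ℓ = i + k := ⟨ℓ - i, by omega⟩
  have hik : i ≤ k := by omega
  have hikR : (i : ℝ) ≤ k := by exact_mod_cast hik
  have hℓR : (ℓ : ℝ) = i + k := by exact_mod_cast hk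
  obtain ⟨u, hu⟩ : ∃ u : ℤ, u = v i := ⟨_, rfl⟩
  have hxi' := (abs_le.1 hxi).1
  have hui := abs_le.1 (vel_le hv0 hstep i (by omega))
  have huk : |u| ≤ k := by
    have := vel_fwd (i := i) hstep k (by omega)
    rw [← hk, hvl, zero_sub, abs_neg] at this
    rw [hu]
    exact this
  have huk' := abs_le.1 huk
  have huS := abs_le.1 (hS i (by omega))
  rw [← hu] at hui huS
  have hεcast : ∀ ε : ℤ, (ε = 0 ∨ ε = 1) → ((ε : ℝ) = 0 ∨ (ε : ℝ) = 1) := by
    intro ε hε
    rcases hε with h | h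
    · left; exact_mod_cast h
    · right; exact_mod_cast h
  -- second phase
  have hsecond : 2 * (u : ℝ) ^ 2 - 2 * u - 4 * (101 / 100 * R) ≤ ((k : ℝ) - u) ^ 2 := by
    obtain ⟨P, hP⟩ : ∃ P : ℕ, (P : ℤ) = (k + u) / 2 := ⟨((k + u) / 2).toNat, by omega⟩
    have hPk : P ≤ k := by omega
    have h4 := seg4 (i := i) hstep hx P (by omega)
    have h5 := seg5 hvl hstep hx (k - P) (by omega)
    have e : ℓ - (k - P) = i + P := by omega
    rw [e, hxl] at h5
    rw [← hu] at h4
    have h6 : ((k - P : ℕ) : ℤ) = k - P := by omega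
    rw [h6] at h5
    obtain ⟨ε, hε, hε'⟩ := exists_half (k + u)
    rw [← hP] at hε'
    have hPr : 2 * (P : ℝ) = k + u - ε := by exact_mod_cast hε'
    have h4r : 2 * (P : ℝ) * u - P * (P + 1) ≤ 2 * ((x (i + P) : ℝ) - x i) := by exact_mod_cast h4
    have h5r : -(((k : ℝ) - P) * ((k : ℝ) - P - 1)) ≤ 2 * ((L : ℝ) - x (i + P)) := by
      exact_mod_cast h5
    exact ar_second (hεcast ε hε) hPr h4r h5r hxi'
  -- first phase
  have hRpos : (0 : ℝ) < R := by linarith
  obtain ⟨A, hA⟩ : ∃ A : ℕ, (A : ℝ) ≤ 101 / 100 * R ∧ 101 / 100 * R < A + 1 :=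
    ⟨⌊101 / 100 * R⌋₊, Nat.floor_le (by positivity), Nat.lt_floor_add_one _⟩
  obtain ⟨B, hB⟩ : ∃ B : ℕ, (B : ℝ) ≤ 101 / 100 * R - u ∧ 101 / 100 * R - u < B + 1 :=
    ⟨⌊101 / 100 * R - u⌋₊, Nat.floor_le (by linarith [huS.2]), Nat.lt_floor_add_one _⟩
  rcases Nat.lt_or_ge i (A + B) with hcase | hcase
  · -- case 2
    have hlt : (i : ℝ) + u ≤ 2 * (101 / 100 * R) := by
      have : (i : ℝ) ≤ A + B := by exact_mod_cast hcase.le
      linarith [hA.1, hB.1]
    obtain ⟨A', hA'⟩ : ∃ A' : ℕ, (A' : ℤ) = (i + u) / 2 := ⟨((i + u) / 2).toNat, by omega⟩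
    have hAi : A' ≤ i := by omega
    have h1 := seg1 hv0 hstep hx0 hx A' (by omega)
    have h3 := seg3 (i := i) (by omega) hstep hx (i - A') (by omega)
    have e : i - (i - A') = A' := by omega
    have h6 : ((i - A' : ℕ) : ℤ) = i - A' := by omega
    rw [e, h6, ← hu] at h3
    obtain ⟨ε, hε, hε'⟩ := exists_half (i + u)
    rw [← hA'] at hε'
    have h1r : 2 * (x A' : ℝ) ≤ A' * (A' + 1) := by exact_mod_cast h1
    have h3r : 2 * ((x i : ℝ) - x A') ≤ 2 * (i - A') * u + (i - A') * (i - A' - 1) := by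
      exact_mod_cast h3
    have hPr : 2 * (A' : ℝ) = i + u - ε := by exact_mod_cast hε'
    have hp := ar_first (hεcast ε hε) hPr h1r h3r hxi' huS.2
    rw [← hR] at hp
    have hiu : (0 : ℝ) ≤ (i : ℝ) + u := by
      have : (0 : ℤ) ≤ i + u := by linarith [hui.1]
      exact_mod_cast this
    have := ar_case2 hR' hiu hlt hp
    rw [hℓR]
    linarith
  · obtain ⟨n, hn⟩ : ∃ n, i = A + n + B := ⟨i - A - B, by omega⟩
    have h1 := seg1 hv0 hstep hx0 hx A (by omega)
    have h2 := seg2 hS hx A n (by omega)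
    have h3 := seg3 (i := i) (by omega) hstep hx B (by omega)
    have e : i - B = A + n := by omega
    rw [e, ← hu] at h3
    have h1r : 2 * (x A : ℝ) ≤ A * (A + 1) := by exact_mod_cast h1
    have h3r : 2 * ((x i : ℝ) - x (A + n)) ≤ 2 * B * u + B * (B - 1) := by exact_mod_cast h3
    have hnr : (i : ℝ) = A + n + B := by exact_mod_cast hn
    have hmain := ar_main hA hB (Nat.cast_nonneg B) hnr h1r h2 h3r hxi'
    rw [← hR] at hmain
    rcases le_or_gt (u : ℝ) (1 / 2 * R) with hu2 | hu2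
    · have := ar_case1a hR' hmain hu2
      rw [hℓR]
      linarith
    · have hk0 : (0 : ℝ) ≤ k - u := by
        have : (u : ℤ) ≤ k := huk'.2
        have : (u : ℝ) ≤ k := by exact_mod_cast this
        linarith
      rw [hℓR]
      exact ar_case1b hR' hikR hk0 huS.2 hsecond hmain hu2

end OneD

/-! ## The three cities -/

/-- The cities `(0, 0)`, `(L, 0)`, `(L, L)`. -/
def cities (L : ℤ) : Fin 3 → (Fin 2 → ℤ) := ![![0, 0], ![L, 0], ![L, L]]

theorem visits_bound {d : ℕ} {c : Conf d} {x : Fin d → ℤ} (h : Visits c x) (k : Fin d) :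
    |(c.1 k : ℝ) - x k| ≤ |(c.2 k : ℝ)| := by
  obtain ⟨a, b, ha, hb, hab, he⟩ := h
  have h1 := congrFun he k
  simp only [Pi.add_apply, Pi.smul_apply, smul_eq_mul] at h1
  have h2 : (c.1 k : ℝ) - x k = a * c.2 k := by
    rw [← h1]
    push_cast
    have : b = 1 - a := by linarith
    rw [this]
    ring
  rw [h2, abs_mul, abs_of_nonneg ha]
  have : a ≤ 1 := by linarith
  have h3 := abs_nonneg (c.2 k : ℝ)
  nlinarith

theorem lower {L : ℤ} {R : ℝ} {ℓ : ℕ} {c : ℕ → Conf 2} (hc : Feasible (cities L) ℓ c)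
    (hS : ∀ j ≤ ℓ, ∀ k, |((c j).2 k : ℝ)| ≤ 101 / 100 * R) (hR : R ^ 2 = L) (hR' : 1000 ≤ R) :
    312 / 100 * R - 6 ≤ ℓ := by
  obtain ⟨htraj, h0, hl, idx, _, hidx⟩ := hc
  obtain ⟨hi, hvis⟩ := hidx 1
  set i := idx 1 with hidef
  have hb := visits_bound hvis
  have hcl : Fin.last 2 = 2 := rfl
  rw [hcl] at hl
  rcases Nat.lt_or_ge ℓ (2 * i) with hcase | hcase
  · -- reversed second coordinate
    have hb1 := hb 1
    have e1 : (cities L 1) 1 = 0 := rfl
    rw [e1] at hb1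
    have := oneD (v := fun j => if j = 0 then 0 else (c (ℓ + 1 - j)).2 1)
      (x := fun j => L - (c (ℓ - j)).1 1) (ℓ := ℓ + 1) (i := ℓ - i) (L := L) (R := R)
      (by simp) (by simp [h0]) (by
        intro j hj
        rcases Nat.eq_zero_or_pos j with rfl | hj0
        · simp [hl]
        · have e2 : ℓ + 1 - (j + 1) = ℓ - j := by omega
          have e3 : ℓ + 1 - j = ℓ - j + 1 := by omega
          simp only [Nat.add_eq_zero_iff, one_ne_zero, and_false, if_false, hj0.ne', e2, e3]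
          rw [abs_sub_comm]
          exact (htraj (ℓ - j) (by omega)).2 1) (by simp [hl, cities]) (by
        intro j hj
        simp only [Nat.add_eq_zero_iff, one_ne_zero, and_false, if_false]
        rcases Nat.eq_or_lt_of_le (Nat.lt_succ_iff.1 hj) with rfl | hj1
        · simp [h0]
        · have e2 : ℓ + 1 - (j + 1) = ℓ - (j + 1) + 1 := by omega
          have e3 : ℓ - j = ℓ - (j + 1) + 1 := by omega
          rw [e2, e3, (htraj (ℓ - (j + 1)) (by omega)).1]
          simp only [Pi.sub_apply]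
          ring) (by simp [h0, cities]) (by omega) (by
        intro j hj
        split_ifs with h
        · simp only [Int.cast_zero, abs_zero]; linarith
        · exact hS _ (by omega) 1) (by
        have e2 : ℓ - (ℓ - i) = i := by omega
        rw [e2]
        have := hb1.trans (hS i hi 1)
        rw [Int.cast_zero, sub_zero] at this
        push_cast
        rw [show (L : ℝ) - ((c i).1 1 : ℝ) - L = -((c i).1 1 : ℝ) by ring, abs_neg]
        exact this) hR hR'
    push_cast at this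
    linarith
  · have hb0 := hb 0
    have e1 : (cities L 1) 0 = L := rfl
    rw [e1] at hb0
    have := oneD (v := fun j => (c j).2 0) (x := fun j => (c j).1 0) (ℓ := ℓ) (i := i) (L := L)
      (R := R) (by simp [h0]) (by simp [hl]) (fun j hj => (htraj j hj).2 0)
      (by simp [h0, cities]) (by
        intro j hj
        have := (htraj j hj).1
        rw [this]
        simp) (by simp [hl, cities]) hcase (fun j hj => hS j hj 0)
      (hb0.trans (hS i hi 0)) hR hR'
    linarith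

/-! ## The fast trajectory -/

/-- Triangular velocity profile. -/
def tri (q j : ℤ) : ℤ := max 0 (min j (2 * q - j))

/-- Twice the accumulated profile. -/
def G (q t : ℤ) : ℤ :=
  if t ≤ 0 then 0 else if t ≤ q then t * (t + 1)
  else if t ≤ 2 * q then 2 * q ^ 2 - (2 * q - t) * (2 * q - t - 1) else 2 * q ^ 2

theorem tri_eq (q j : ℤ) : tri q j = if j ≤ 0 then 0 else if j ≤ q then j
    else if j ≤ 2 * q then 2 * q - j else 0 := by
  rw [tri]
  split_ifs <;> omega

theorem G_succ {q : ℤ} (hq : 0 ≤ q) (t : ℤ) : G q (t + 1) = G q t + 2 * tri q (t + 1) := by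
  rw [tri_eq]
  unfold G
  rcases lt_trichotomy t 0 with h | h | h
  · simp only [show t + 1 ≤ 0 by omega, show t ≤ 0 by omega, if_true]
    ring
  · subst h
    rcases eq_or_lt_of_le hq with h' | h'
    · subst h'
      norm_num
    · simp only [show ¬ ((0 : ℤ) + 1 ≤ 0) by omega, show (0 : ℤ) + 1 ≤ q by omega, if_true,
        if_false, le_refl]
      ring
  · simp only [show ¬ (t + 1 ≤ 0) by omega, show ¬ (t ≤ 0) by omega, if_false]
    rcases lt_trichotomy t q with h2 | h2 | h2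
    · simp only [show t + 1 ≤ q by omega, show t ≤ q by omega, if_true]
      ring
    · subst h2
      simp only [show ¬ (t + 1 ≤ t) by omega, show t + 1 ≤ 2 * t by omega, if_true,
        if_false, le_refl]
      ring
    · simp only [show ¬ (t + 1 ≤ q) by omega, show ¬ (t ≤ q) by omega, if_false]
      rcases lt_trichotomy t (2 * q) with h3 | h3 | h3
      · simp only [show t + 1 ≤ 2 * q by omega, show t ≤ 2 * q by omega, if_true]
        ring
      · subst h3
        simp only [show ¬ (2 * q + 1 ≤ 2 * q) by omega, if_true, if_false, le_refl]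
        ring
      · simp only [show ¬ (t + 1 ≤ 2 * q) by omega, show ¬ (t ≤ 2 * q) by omega, if_false]
        ring

theorem sum_tri {q : ℤ} (hq : 0 ≤ q) {s : ℤ} (hs : 0 ≤ s) (n : ℕ) :
    2 * ∑ j ∈ Finset.range n, tri q ((j : ℤ) + 1 - s) = G q ((n : ℤ) - s) := by
  induction n with
  | zero =>
    rw [G, if_pos (by push_cast; omega)]
    simp
  | succ n ih =>
    rw [Finset.sum_range_succ, mul_add, ih]
    have e : ((n + 1 : ℕ) : ℤ) - s = (n : ℤ) - s + 1 := by push_cast; ring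
    have e' : (n : ℤ) + 1 - s = (n : ℤ) - s + 1 := by ring
    rw [e, G_succ hq, e']

/-- The velocities. -/
def fv (p m : ℤ) (j : ℕ) : Fin 2 → ℤ :=
  ![tri p j - tri m (j - 2 * p), tri p (j - (1 + 2 * m)) - tri m (j - 1)]

/-- The positions. -/
def fp (p m : ℤ) (n : ℕ) : Fin 2 → ℤ := ∑ j ∈ Finset.range n, fv p m (j + 1)

theorem fv_step {p m : ℤ} (hp : 0 ≤ p) (hm : 0 ≤ m) (j : ℕ) (k : Fin 2) :
    |fv p m (j + 1) k - fv p m j k| ≤ 1 := by
  rw [abs_le]
  fin_cases k
  · simp only [fv, Fin.zero_eta, Matrix.cons_val_zero, tri]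
    push_cast
    omega
  · simp only [fv, Fin.mk_one, Matrix.cons_val_one, Matrix.cons_val_zero, tri]
    push_cast
    omega

theorem fp_zero {p m : ℤ} (hp : 0 ≤ p) (hm : 0 ≤ m) (n : ℕ) :
    2 * fp p m n 0 = G p n - G m (n - 2 * p) := by
  rw [← sum_tri hm (by omega : 0 ≤ 2 * p)]
  have h1 := sum_tri hp (le_refl 0) n
  rw [sub_zero] at h1
  rw [← h1, fp, Finset.sum_apply, ← mul_sub, ← Finset.sum_sub_distrib]
  simp [fv]

theorem fp_one {p m : ℤ} (hp : 0 ≤ p) (hm : 0 ≤ m) (n : ℕ) :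
    2 * fp p m n 1 = G p (n - (1 + 2 * m)) - G m (n - 1) := by
  rw [← sum_tri hm (by omega : (0 : ℤ) ≤ 1), ← sum_tri hp (by omega : 0 ≤ 1 + 2 * m), fp,
    Finset.sum_apply, ← mul_sub, ← Finset.sum_sub_distrib]
  simp [fv]

theorem exists_fast {u m : ℤ} (hu : 1 ≤ u) (hm : 0 ≤ m) (hpell : 2 * m ^ 2 = u * (u - 1)) :
    ∃ (ℓ : ℕ) (c : ℕ → Conf 2), (ℓ : ℤ) = 2 * (u + 2 * m) + 1 ∧
      Feasible (cities (u * (u + 2 * m))) ℓ c := by
  obtain ⟨p, hp⟩ : ∃ p : ℤ, p = u + m := ⟨_, rfl⟩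
  have hp0 : 0 ≤ p := by omega
  obtain ⟨t, ht⟩ : ∃ t : ℕ, (t : ℤ) = u + 2 * m := ⟨(u + 2 * m).toNat, by omega⟩
  have hL : u * (u + 2 * m) = p ^ 2 - m ^ 2 := by rw [hp]; ring
  have hℓ : ((2 * t + 1 : ℕ) : ℤ) = 2 * p + 2 * m + 1 := by push_cast; omega
  have e1l : fp p m (2 * t + 1) = cities (u * (u + 2 * m)) (Fin.last 2) := by
    funext k
    fin_cases k
    · have h1 := fp_zero hp0 hm (2 * t + 1)
      rw [hℓ] at h1
      have h2 : G p (2 * p + 2 * m + 1) = 2 * p ^ 2 := by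
        rw [G, if_neg (by omega), if_neg (by omega), if_neg (by omega)]
      have h3 : G m (2 * p + 2 * m + 1 - 2 * p) = 2 * m ^ 2 := by
        rw [G, if_neg (by omega), if_neg (by omega), if_neg (by omega)]
      rw [h2, h3] at h1
      have h4 : cities (u * (u + 2 * m)) (Fin.last 2) 0 = u * (u + 2 * m) := rfl
      change fp p m (2 * t + 1) 0 = cities (u * (u + 2 * m)) (Fin.last 2) 0
      rw [h4, hL]
      linarith
    · have h1 := fp_one hp0 hm (2 * t + 1)
      rw [hℓ] at h1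
      have h2 : G p (2 * p + 2 * m + 1 - (1 + 2 * m)) = 2 * p ^ 2 := by
        have e : 2 * p + 2 * m + 1 - (1 + 2 * m) = 2 * p := by ring
        rw [e, G, if_neg (by omega), if_neg (by omega), if_pos (by omega)]
        ring
      have h3 : G m (2 * p + 2 * m + 1 - 1) = 2 * m ^ 2 := by
        rw [G, if_neg (by omega), if_neg (by omega), if_neg (by omega)]
      rw [h2, h3] at h1
      have h4 : cities (u * (u + 2 * m)) (Fin.last 2) 1 = u * (u + 2 * m) := rfl
      change fp p m (2 * t + 1) 1 = cities (u * (u + 2 * m)) (Fin.last 2) 1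
      rw [h4, hL]
      linarith
  refine ⟨2 * t + 1, fun n => (fp p m n, fv p m n), by push_cast; omega, ?_, ?_, ?_,
    ![0, t, 2 * t + 1], ?_, ?_⟩
  · intro i _
    refine ⟨?_, fv_step hp0 hm i⟩
    simp only [fp, Finset.sum_range_succ]
    rw [add_sub_cancel_left]
  · have e1 : fp p m 0 = 0 := by simp [fp]
    have e2 : fv p m 0 = 0 := by
      funext k
      fin_cases k
      · simp only [fv, Fin.zero_eta, Matrix.cons_val_zero, tri, Pi.zero_apply]
        push_cast
        omega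
      · simp only [fv, Fin.mk_one, Matrix.cons_val_one, Matrix.cons_val_zero, tri, Pi.zero_apply]
        push_cast
        omega
    simp only [e1, e2]
    congr 1
    funext k
    fin_cases k <;> rfl
  · have e2 : fv p m (2 * t + 1) = 0 := by
      funext k
      fin_cases k
      · simp only [fv, Fin.zero_eta, Matrix.cons_val_zero, tri, Pi.zero_apply, hℓ]
        omega
      · simp only [fv, Fin.mk_one, Matrix.cons_val_one, Matrix.cons_val_zero, tri, Pi.zero_apply,
          hℓ]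
        omega
    simp only [e1l, e2]
  · intro a b hab
    fin_cases a <;> fin_cases b <;> simp at hab ⊢ <;> omega
  · have hv : ∀ (n : ℕ) (y : Fin 2 → ℤ), fp p m n = y → Visits (fp p m n, fv p m n) y := by
      intro n y hy
      rw [Visits, hy]
      exact right_mem_segment ℝ _ _
    intro j
    fin_cases j
    · refine ⟨Nat.zero_le _, hv 0 _ ?_⟩
      funext k
      fin_cases k <;> simp [fp, cities]
    · refine ⟨?_, hv t _ ?_⟩
      · change t ≤ 2 * t + 1
        omega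
      · have hu2 : u ≤ p := by omega
        funext k
        fin_cases k
        · have h1 := fp_zero hp0 hm t
          rw [ht] at h1
          have h2 : G p (u + 2 * m) = 2 * p ^ 2 - 2 * m ^ 2 := by
            rw [G, if_neg (by omega)]
            split_ifs with h5 h6
            · have h7 : m = 0 := by omega
              subst h7
              have h8 : p = u := by omega
              have : u = 1 := by nlinarith
              rw [h8, this]
              norm_num
            · have e : 2 * p - (u + 2 * m) = u := by rw [hp]; ring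
              rw [e, hpell]
            · omega
          have h3 : G m (u + 2 * m - 2 * p) = 0 := by
            rw [G, if_pos (by omega)]
          rw [h2, h3] at h1
          have h4 : cities (u * (u + 2 * m)) 1 0 = u * (u + 2 * m) := rfl
          change fp p m t 0 = cities (u * (u + 2 * m)) 1 0
          rw [h4, hL]
          linarith
        · have h1 := fp_one hp0 hm t
          rw [ht] at h1
          have h2 : G p (u + 2 * m - (1 + 2 * m)) = 2 * m ^ 2 := by
            have e : u + 2 * m - (1 + 2 * m) = u - 1 := by ring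
            rw [e, G]
            split_ifs with h5 h6 h7
            · have : u = 1 := by omega
              subst this
              linarith
            · rw [hpell]; ring
            · omega
            · omega
          have h3 : G m (u + 2 * m - 1) = 2 * m ^ 2 := by
            rw [G]
            split_ifs with h5 h6 h7
            · have h8 : m = 0 := by omega
              subst h8; norm_num
            · have h8 : u = 1 := by
                by_contra hne
                have : 2 ≤ u := by omega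
                omega
              subst h8
              have : m = 0 := by nlinarith
              subst this
              norm_num
            · have h8 : u = 1 := by omega
              subst h8
              have : m = 0 := by nlinarith
              subst this
              norm_num
            · rfl
          rw [h2, h3] at h1
          have h4 : cities (u * (u + 2 * m)) 1 1 = 0 := rfl
          change fp p m t 1 = cities (u * (u + 2 * m)) 1 1
          rw [h4]
          linarith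
    · exact ⟨le_rfl, hv (2 * t + 1) _ e1l⟩

theorem pell (K : ℤ) : ∃ u m : ℤ, K ≤ u ∧ 1 ≤ u ∧ 0 ≤ m ∧ 2 * m ^ 2 = u * (u - 1) := by
  have h : ∀ n : ℕ, ∃ u m : ℤ, (n : ℤ) ≤ u ∧ 1 ≤ u ∧ 0 ≤ m ∧ 2 * m ^ 2 = u * (u - 1) := by
    intro n
    induction n with
    | zero => exact ⟨1, 0, by simp, le_rfl, le_rfl, by norm_num⟩
    | succ n ih =>
      obtain ⟨u, m, h1, h2, h3, h4⟩ := ih
      refine ⟨3 * u + 4 * m - 1, 2 * u + 3 * m - 1, by push_cast; omega, by omega, by omega, ?_⟩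
      nlinarith
  obtain ⟨u, m, h1, h2⟩ := h K.toNat
  exact ⟨u, m, by omega, h2⟩

theorem exists_optimal {d n : ℕ} {x : Fin (n + 1) → (Fin d → ℤ)}
    (h : ∃ (ℓ : ℕ) (c : ℕ → Conf d), Feasible x ℓ c) : ∃ (ℓ : ℕ) (c : ℕ → Conf d), Optimal x ℓ c := by
  classical
  obtain ⟨c, hc⟩ := Nat.find_spec h
  exact ⟨Nat.find h, c, hc, fun ℓ' c' hc' => Nat.find_min' h ⟨c', hc'⟩⟩

theorem spread_cities {L : ℤ} (hL : 0 ≤ L) :
    IsGreatest {m : ℤ | ∃ j j' k, m = |cities L j k - cities L j' k|} L := by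
  constructor
  · refine ⟨1, 0, 0, ?_⟩
    change L = |L - 0|
    rw [sub_zero, abs_of_nonneg hL]
  · rintro m ⟨j, j', k, rfl⟩
    have h : ∀ j k, cities L j k = 0 ∨ cities L j k = L := by
      intro j k
      fin_cases j <;> fin_cases k <;> simp [cities]
    rcases h j k with h1 | h1 <;> rcases h j' k with h2 | h2 <;> rw [h1, h2] <;>
      simp [abs_of_nonneg hL, hL]

theorem main (K : ℤ) : ∃ L : ℤ, K ≤ L ∧
    IsGreatest {m : ℤ | ∃ j j' k, m = |cities L j k - cities L j' k|} L ∧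
    (∃ (ℓ : ℕ) (c : ℕ → Conf 2), Optimal (cities L) ℓ c) ∧
    ∀ (ℓ : ℕ) (c : ℕ → Conf 2), Optimal (cities L) ℓ c →
      ∃ i ≤ ℓ, ∃ k, 101 / 100 * √(L : ℝ) < |((c i).2 k : ℝ)| := by
  obtain ⟨u, m, hu1, hu2, hm, hpell⟩ := pell (max K 1000)
  obtain ⟨ℓ₀, c₀, hℓ₀, hc₀⟩ := exists_fast hu2 hm hpell
  set L := u * (u + 2 * m) with hL
  have hu3 : 1000 ≤ u := (le_max_right _ _).trans hu1
  have huL : u * u ≤ L := by rw [hL]; nlinarith
  have hL0 : 0 ≤ L := by nlinarith
  refine ⟨L, ?_, spread_cities hL0, exists_optimal ⟨ℓ₀, c₀, hc₀⟩, fun ℓ c hc => ?_⟩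
  · have : K ≤ u := (le_max_left _ _).trans hu1
    nlinarith
  by_contra hcon
  push Not at hcon
  have hLr : (0 : ℝ) ≤ L := by exact_mod_cast hL0
  set R := √(L : ℝ) with hR
  have hR2 : R ^ 2 = L := Real.sq_sqrt hLr
  have hR0 : 0 ≤ R := Real.sqrt_nonneg _
  have huR : (u : ℝ) ≤ R := by
    apply le_of_sq_le_sq' _ hR0
    rw [hR2, pow_two]
    exact_mod_cast huL
  have hR1000 : 1000 ≤ R := by
    have : (1000 : ℝ) ≤ u := by exact_mod_cast hu3
    linarith
  have hlow := lower hc.1 hcon hR2 hR1000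
  have hup : (ℓ : ℝ) ≤ 2 * (u + 2 * m) + 1 := by
    have h1 : (ℓ : ℤ) ≤ 2 * (u + 2 * m) + 1 := by
      rw [← hℓ₀]
      exact_mod_cast hc.2 ℓ₀ c₀ hc₀
    exact_mod_cast h1
  have humr : 2 * (m : ℝ) ^ 2 = u * (u - 1) := by exact_mod_cast hpell
  have hur : (1000 : ℝ) ≤ u := by exact_mod_cast hu3
  have hmr : (0 : ℝ) ≤ m := by exact_mod_cast hm
  have hLr' : (L : ℝ) = u * (u + 2 * m) := by rw [hL]; push_cast; ring
  have hmu : (m : ℝ) ≤ 70711 / 100000 * u := by
    apply le_of_sq_le_sq' _ (by linarith)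
    nlinarith
  have ht : 2 * ((u : ℝ) + 2 * m) ≤ 3108 / 1000 * R := by
    apply le_of_sq_le_sq' _ (by linarith)
    rw [mul_pow (3108 / 1000 : ℝ) R, hR2, hLr']
    have h2 : (0 : ℝ) ≤ u + 2 * m := by linarith
    have h3 : 4 * ((u : ℝ) + 2 * m) ≤ (3108 / 1000) ^ 2 * u := by
      norm_num
      linarith
    nlinarith
  linarith

end Pool.Agent.V11237.Speed
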