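import Mathlib

/-!
# Linear search on the line with a turning cost
-/

set_option autoImplicit false

open MeasureTheory
open scoped ENNReal

namespace Pool.Agent.V11237.TurnCost

/-- The time at which the `i`-th excursion starts (the searcher is at `0`): every earlier excursion
`j` took the time `2 x_j + d`. -/
noncomputable def startTime (d : ℝ) (x : ℕ → ℝ) (i : ℕ) : ℝ :=
  ∑ j ∈ Finset.range i, (2 * x j + d)

/-- The `i`-th excursion, from `0` to `(-1)^i x_i` and back, visits the point `H`. -/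
def Visits (x : ℕ → ℝ) (i : ℕ) (H : ℝ) : Prop := 0 ≤ (-1) ^ i * H ∧ (-1) ^ i * H ≤ x i

/-- The first time at which the searcher is at `H` (infinite if `H` is never visited): the excursion
`i` first visits `H` at the time `startTime i + |H|`. -/
noncomputable def firstTime (d : ℝ) (x : ℕ → ℝ) (H : ℝ) : ℝ≥0∞ :=
  ⨅ (i : ℕ) (_ : Visits x i H), ENNReal.ofReal (startTime d x i + |H|)

/-- The value: infimum over the trajectories `x` of the supremum, over the probability measures `h`
on the line with mean distance at most one, of the expected time `∫ C(x, H) dh(H)`. -/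
noncomputable def Vbar (d : ℝ) : ℝ≥0∞ :=
  ⨅ (x : ℕ → ℝ) (_ : ∀ i, 0 < x i), ⨆ (h : Measure ℝ) (_ : IsProbabilityMeasure h)
    (_ : ∫⁻ H, ENNReal.ofReal |H| ∂h ≤ 1), ∫⁻ H, firstTime d x H ∂h

/-- The trajectory. -/
noncomputable def traj (d r : ℝ) (i : ℕ) : ℝ := d / 2 * (r ^ (i + 1) - 1)

theorem traj_pos {d r : ℝ} (hd : 0 < d) (hr : 1 < r) (i : ℕ) : 0 < traj d r i := by
  have : 1 < r ^ (i + 1) := one_lt_pow₀ hr (by omega)
  rw [traj]
  exact mul_pos (by linarith) (by linarith)

theorem startTime_traj {d r : ℝ} (hr : 1 < r) (k : ℕ) :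
    startTime d (traj d r) (k + 1) = r * d + 2 * (r ^ 2 / (r - 1)) * (d / 2 * (r ^ k - 1)) := by
  have h1 : r - 1 ≠ 0 := by linarith [sub_pos.2 hr] |> fun h : 0 < r - 1 => h.ne'
  induction k with
  | zero =>
    simp only [startTime, zero_add, Finset.sum_range_one, traj]
    ring
  | succ k ih =>
    rw [startTime, Finset.sum_range_succ, ← startTime, ih, traj]
    field_simp
    ring

theorem firstTime_le {d r : ℝ} (hd : 0 < d) (hr : 1 < r) (H : ℝ) :
    firstTime d (traj d r) H ≤
      ENNReal.ofReal (r * d + (1 + 2 * (r ^ 2 / (r - 1))) * |H|) := by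
  have hr1 : 0 < r - 1 := sub_pos.2 hr
  have hc : 0 < r ^ 2 / (r - 1) := by positivity
  -- the parity
  obtain ⟨ε, hε, hsign⟩ : ∃ ε : ℕ, ε ≤ 1 ∧ (-1 : ℝ) ^ ε * H = |H| := by
    rcases le_or_gt 0 H with h | h
    · exact ⟨0, by omega, by rw [abs_of_nonneg h]; ring⟩
    · exact ⟨1, le_rfl, by rw [abs_of_neg h]; ring⟩
  have hpar : ∀ k : ℕ, (-1 : ℝ) ^ (2 * k + ε) * H = |H| := by
    intro k
    rw [pow_add, pow_mul, neg_one_sq, one_pow, one_mul, hsign]
  have hex : ∃ k : ℕ, |H| ≤ traj d r (2 * k + ε) := by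
    obtain ⟨n, hn⟩ := pow_unbounded_of_one_lt (2 * |H| / d + 1) hr
    refine ⟨n, ?_⟩
    have h1 : r ^ n ≤ r ^ (2 * n + ε + 1) := pow_le_pow_right₀ hr.le (by omega)
    have h2 : 2 * |H| / d ≤ r ^ (2 * n + ε + 1) - 1 := by linarith
    rw [div_le_iff₀ hd] at h2
    rw [traj]
    linarith
  classical
  have hk := Nat.find_spec hex
  set k := Nat.find hex with hkdef
  have hle : firstTime d (traj d r) H ≤
      ENNReal.ofReal (startTime d (traj d r) (2 * k + ε) + |H|) := by
    refine iInf₂_le (2 * k + ε) ?_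
    rw [Visits, hpar]
    exact ⟨abs_nonneg H, hk⟩
  refine hle.trans (ENNReal.ofReal_le_ofReal ?_)
  have hH := abs_nonneg H
  rcases Nat.eq_zero_or_pos (2 * k + ε) with h0 | h0
  · rw [h0, startTime, Finset.range_zero, Finset.sum_empty]
    have : 0 < r * d := mul_pos (by linarith) hd
    nlinarith [mul_nonneg hc.le hH]
  · obtain ⟨j, hj⟩ : ∃ j, 2 * k + ε = j + 1 := ⟨2 * k + ε - 1, by omega⟩
    rw [hj, startTime_traj hr]
    have hprev : d / 2 * (r ^ j - 1) ≤ |H| := by
      rcases Nat.eq_zero_or_pos k with hk0 | hk0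
      · have : j = 0 := by omega
        rw [this]
        simp [hH]
      · have h1 := Nat.find_min hex (m := k - 1) (by omega)
        push Not at h1
        have h2 : 2 * (k - 1) + ε + 1 = j := by omega
        rw [traj, h2] at h1
        exact h1.le
    have := mul_le_mul_of_nonneg_left hprev hc.le
    linarith

theorem Vbar_le_of {d r : ℝ} (hd : 0 < d) (hr : 1 < r) :
    Vbar d ≤ ENNReal.ofReal (r * d + (1 + 2 * (r ^ 2 / (r - 1)))) := by
  have hr1 : 0 < r - 1 := sub_pos.2 hr
  have hc : 0 < 1 + 2 * (r ^ 2 / (r - 1)) := by positivity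
  refine (iInf₂_le (traj d r) (traj_pos hd hr)).trans ?_
  refine iSup_le fun h => iSup_le fun hprob => iSup_le fun hmean => ?_
  calc ∫⁻ H, firstTime d (traj d r) H ∂h
      ≤ ∫⁻ H, (ENNReal.ofReal (r * d) +
          ENNReal.ofReal (1 + 2 * (r ^ 2 / (r - 1))) * ENNReal.ofReal |H|) ∂h := by
        refine lintegral_mono fun H => (firstTime_le hd hr H).trans (le_of_eq ?_)
        rw [ENNReal.ofReal_add (by positivity) (by positivity), ENNReal.ofReal_mul hc.le]
    _ = ENNReal.ofReal (r * d) +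
          ENNReal.ofReal (1 + 2 * (r ^ 2 / (r - 1))) * ∫⁻ H, ENNReal.ofReal |H| ∂h := by
        rw [lintegral_add_left measurable_const, lintegral_const, measure_univ, mul_one,
          lintegral_const_mul _ (by fun_prop)]
    _ ≤ ENNReal.ofReal (r * d) + ENNReal.ofReal (1 + 2 * (r ^ 2 / (r - 1))) * 1 := by
        gcongr
    _ = ENNReal.ofReal (r * d + (1 + 2 * (r ^ 2 / (r - 1)))) := by
        rw [mul_one, ENNReal.ofReal_add (by positivity) hc.le]

theorem Vbar_le {d : ℝ} (hd : 0 < d) :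
    Vbar d ≤ ENNReal.ofReal (5 + d + 2 * √(4 + 2 * d)) := by
  have hs : 0 < √(4 + 2 * d) := Real.sqrt_pos.2 (by linarith)
  have hs2 : √(4 + 2 * d) ^ 2 = 4 + 2 * d := Real.sq_sqrt (by linarith)
  set s := √(4 + 2 * d) with hsdef
  -- r - 1 = 2 / s
  have h := Vbar_le_of (d := d) (r := 1 + 2 / s) hd (by
    have : 0 < 2 / s := by positivity
    linarith)
  refine h.trans (ENNReal.ofReal_le_ofReal (le_of_eq ?_))
  have hd' : d = (s ^ 2 - 4) / 2 := by linarith
  have h1 : (1 + 2 / s) - 1 = 2 / s := by ring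
  rw [h1, hd']
  field_simp
  ring

theorem Vbar_lt {d : ℝ} (hd : 0 < d) : Vbar d < ENNReal.ofReal (9 + 2 * d) := by
  refine (Vbar_le hd).trans_lt ?_
  rw [ENNReal.ofReal_lt_ofReal_iff (by linarith)]
  have hs : √(4 + 2 * d) < 2 + d / 2 := by
    rw [Real.sqrt_lt' (by linarith)]
    nlinarith
  linarith

end Pool.Agent.V11237.TurnCost
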