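import Mathlib

/-!
# Adaptive vantage points and bottleneck edges
-/

set_option autoImplicit false
set_option linter.unusedSectionVars false

namespace Pool.Agent.V11237.Vantage

open Finset

section Defs

variable {V : Type} (G : SimpleGraph V)

/-- The length of a walk: the sum of the lengths of its edges. -/
noncomputable def wlen (len : Sym2 V → ℝ) {s t : V} (p : G.Walk s t) : ℝ := (p.edges.map len).sum

/-- `p` is a shortest path from `s` to `t`. -/
def IsShortest (len : Sym2 V → ℝ) {s t : V} (p : G.Walk s t) : Prop :=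
  p.IsPath ∧ ∀ q : G.Walk s t, q.IsPath → wlen G len p ≤ wlen G len q

/-- The edges have positive lengths and any two vertices in the same component are joined by a
unique shortest path. -/
def ValidLengths (len : Sym2 V → ℝ) : Prop :=
  (∀ e ∈ G.edgeSet, 0 < len e) ∧
    ∀ s t : V, G.Reachable s t → ∃! p : G.Walk s t, IsShortest G len p

/-- `e` is a bottleneck edge of the shortest path from `s` to `t` for the capacities `c`. -/
def Bottleneck (len c : Sym2 V → ℝ) (s t : V) (e : Sym2 V) : Prop :=
  ∃ p : G.Walk s t, IsShortest G len p ∧ e ∈ p.edges ∧ ∀ e' ∈ p.edges, e' ≠ e → c e < c e'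

/-- The set `R(S)` of the edges revealed by the vantage points in `S`. -/
def revealed (len c : Sym2 V → ℝ) (S : Finset V) : Set (Sym2 V) :=
  {e | ∃ s ∈ S, ∃ t : V, Bottleneck G len c s t e}

/-- What is learned from the vantage point `s`: for every `t` the bottleneck edge of the shortest
path from `s` to `t` together with its capacity (a set with at most one element). -/
def obs (len c : Sym2 V → ℝ) (s : V) : V → Set (Sym2 V × ℝ) :=
  fun t => {x | Bottleneck G len c s t x.1 ∧ x.2 = c x.1}

/-- A history: the vantage points chosen so far together with what was learned from each. -/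
abbrev Hist (V : Type) : Type := List (V × (V → Set (Sym2 V × ℝ)))

/-- A deterministic adaptive algorithm (for a fixed graph with lengths and a fixed `k`): it maps every
history to the next vantage point, or stops (`none`). -/
abbrev Algo (V : Type) : Type := Hist V → Option V

/-- One step of the algorithm `σ` when the capacities are `c`. -/
def step (len c : Sym2 V → ℝ) (σ : Algo V) (h : Hist V) : Hist V :=
  match σ h with
  | none => h
  | some s => h ++ [(s, obs G len c s)]

/-- The history after `m` steps. -/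
def run (len c : Sym2 V → ℝ) (σ : Algo V) : ℕ → Hist V
  | 0 => []
  | m + 1 => step G len c σ (run len c σ m)

open Classical in
/-- The set of the vantage points of a history. -/
noncomputable def points (h : Hist V) : Finset V := (h.map Prod.fst).toFinset

open Classical in
theorem mem_points {h : Hist V} {v : V} : v ∈ points h ↔ v ∈ h.map Prod.fst := by
  unfold points
  exact List.mem_toFinset

/-- The maximal number of edges that `k` vantage points reveal. -/
noncomputable def opt [Fintype V] (len c : Sym2 V → ℝ) (k : ℕ) : ℕ :=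
  ((Finset.univ : Finset V).powersetCard k).sup fun S => (revealed G len c S).ncard

end Defs

/-! ## Generic lengths -/

section Generic

variable {V : Type} {G : SimpleGraph V}

theorem path_ext {s t : V} (p : G.Walk s t) : ∀ q : G.Walk s t, p.IsPath → q.IsPath →
    (∀ e, e ∈ p.edges ↔ e ∈ q.edges) → p = q := by
  induction p with
  | nil =>
    intro q _ hq _
    cases q with
    | nil => rfl
    | cons h q => exact (((SimpleGraph.Walk.cons_isPath_iff h q).1 hq).2 q.end_mem_support).elim
  | @cons s u t h p ih =>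
    intro q hp hq he
    cases q with
    | nil =>
      have := (he s(s, u)).1 (by simp)
      simp at this
    | @cons _ u' _ h' q =>
      rw [SimpleGraph.Walk.cons_isPath_iff] at hp hq
      have h1 : s(s, u) ∈ (SimpleGraph.Walk.cons h' q).edges := (he _).1 (by simp)
      rw [SimpleGraph.Walk.edges_cons, List.mem_cons] at h1
      have hu : u = u' := by
        rcases h1 with h1 | h1
        · rw [Sym2.eq_iff] at h1
          rcases h1 with h1 | h1
          · exact h1.2
          · exact (h'.ne h1.1).elim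
        · exact (hq.2 (SimpleGraph.Walk.fst_mem_support_of_mem_edges _ h1)).elim
      subst hu
      congr 1
      refine ih q hp.1 hq.1 fun e => ?_
      have h2 := he e
      rw [SimpleGraph.Walk.edges_cons, SimpleGraph.Walk.edges_cons, List.mem_cons,
        List.mem_cons] at h2
      constructor
      · intro h3
        rcases h2.1 (Or.inr h3) with h4 | h4
        · rw [h4] at h3
          exact (hp.2 (SimpleGraph.Walk.fst_mem_support_of_mem_edges _ h3)).elim
        · exact h4
      · intro h3
        rcases h2.2 (Or.inr h3) with h4 | h4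
        · rw [h4] at h3
          exact (hq.2 (SimpleGraph.Walk.fst_mem_support_of_mem_edges _ h3)).elim
        · exact h4

variable [Fintype V] [DecidableEq V]

/-- An injective numbering of the unordered pairs. -/
noncomputable def rk (e : Sym2 V) : ℕ := (Fintype.equivFin (Sym2 V) e).val

/-- The number of unordered pairs. -/
noncomputable def B (V : Type) [Fintype V] [DecidableEq V] : ℕ := Fintype.card (Sym2 V)

theorem rk_lt (e : Sym2 V) : rk e < B V := (Fintype.equivFin (Sym2 V) e).isLt

theorem rk_inj : Function.Injective (rk : Sym2 V → ℕ) :=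
  Fin.val_injective.comp (Fintype.equivFin (Sym2 V)).injective

/-- Natural number lengths. -/
noncomputable def lenN (e : Sym2 V) : ℕ := 2 ^ (B V + 1) + 2 ^ rk e

/-- The lengths. -/
noncomputable def len (e : Sym2 V) : ℝ := (lenN e : ℝ)

/-- Natural number length of a walk. -/
noncomputable def wlenN {s t : V} (p : G.Walk s t) : ℕ := (p.edges.map lenN).sum

theorem wlen_eq {s t : V} (p : G.Walk s t) : wlen G len p = (wlenN p : ℝ) := by
  rw [wlen, wlenN, Nat.cast_list_sum, List.map_map]
  rfl

theorem wlen_le_iff {s t : V} (p q : G.Walk s t) :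
    wlen G len p ≤ wlen G len q ↔ wlenN p ≤ wlenN q := by
  rw [wlen_eq, wlen_eq, Nat.cast_le]

theorem wlenN_ge {s t : V} (p : G.Walk s t) : 2 ^ (B V + 1) * p.length ≤ wlenN p := by
  induction p with
  | nil => simp [wlenN]
  | @cons a b _ h p ih =>
    rw [wlenN, SimpleGraph.Walk.edges_cons, List.map_cons, List.sum_cons,
      SimpleGraph.Walk.length_cons, ← wlenN, lenN]
    have h0 : 2 ^ (B V + 1) * (p.length + 1) = 2 ^ (B V + 1) * p.length + 2 ^ (B V + 1) := by ring
    linarith [Nat.zero_le (2 ^ rk s(a, b) : ℕ)]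

theorem wlenN_path {s t : V} (p : G.Walk s t) (hp : p.IsPath) :
    wlenN p = 2 ^ (B V + 1) * p.length + ∑ e ∈ p.edges.toFinset, 2 ^ rk e := by
  have h1 : p.edges.Nodup := SimpleGraph.Walk.edges_nodup_of_support_nodup hp.support_nodup
  rw [List.sum_toFinset _ h1, wlenN, ← SimpleGraph.Walk.length_edges]
  generalize p.edges = l
  induction l with
  | nil => simp
  | cons a l ih =>
    simp only [List.map_cons, List.sum_cons, List.length_cons]
    rw [ih, lenN]
    ring

theorem sum_pow_lt (s : Finset (Sym2 V)) : ∑ e ∈ s, 2 ^ rk e < 2 ^ B V := by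
  have h1 : ∑ e ∈ s, 2 ^ rk e = ∑ i ∈ s.image rk, 2 ^ i := by
    rw [Finset.sum_image fun a _ b _ h => rk_inj h]
  rw [h1]
  have h2 : s.image rk ⊆ Finset.range (B V) := by
    intro i hi
    obtain ⟨e, _, rfl⟩ := Finset.mem_image.1 hi
    exact Finset.mem_range.2 (rk_lt e)
  calc ∑ i ∈ s.image rk, 2 ^ i ≤ ∑ i ∈ Finset.range (B V), 2 ^ i :=
        Finset.sum_le_sum_of_subset h2
    _ < 2 ^ B V := by
        have := Nat.geomSum_lt (m := 2) (n := B V) (s := Finset.range (B V)) le_rfl
          (fun k hk => Finset.mem_range.1 hk)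
        exact this

theorem unique_shortest {s t : V} (p q : G.Walk s t) (hp : p.IsPath) (hq : q.IsPath)
    (h : wlenN p = wlenN q) : p = q := by
  rw [wlenN_path p hp, wlenN_path q hq] at h
  have h1 := sum_pow_lt p.edges.toFinset
  have h2 := sum_pow_lt q.edges.toFinset
  have hB : 2 ^ (B V + 1) = 2 ^ B V * 2 := pow_succ _ _
  have h3 : ∑ e ∈ p.edges.toFinset, 2 ^ rk e = ∑ e ∈ q.edges.toFinset, 2 ^ rk e := by
    have e1 := congrArg (· % 2 ^ (B V + 1)) h
    simp only [Nat.mul_add_mod] at e1
    rw [Nat.mod_eq_of_lt (by omega), Nat.mod_eq_of_lt (by omega)] at e1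
    exact e1
  have h4 : p.edges.toFinset.image rk = q.edges.toFinset.image rk := by
    apply Finset.geomSum_injective (n := 2) le_rfl
    dsimp only
    rw [Finset.sum_image fun a _ b _ h => rk_inj h, Finset.sum_image fun a _ b _ h => rk_inj h, h3]
  have h5 : p.edges.toFinset = q.edges.toFinset := Finset.image_injective rk_inj h4
  refine path_ext p q hp hq fun e => ?_
  rw [← List.mem_toFinset, h5, List.mem_toFinset]

theorem validLengths : ValidLengths G (len : Sym2 V → ℝ) := by
  refine ⟨fun e _ => ?_, fun s t hst => ?_⟩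
  · rw [len, lenN]; positivity
  · have hex : ∃ n : ℕ, ∃ p : G.Walk s t, p.IsPath ∧ wlenN p = n := by
      obtain ⟨p, hp⟩ := hst.exists_isPath
      exact ⟨_, p, hp, rfl⟩
    classical
    obtain ⟨p, hp, hpn⟩ := Nat.find_spec hex
    have hmin : ∀ q : G.Walk s t, q.IsPath → wlenN p ≤ wlenN q := fun q hq => by
      rw [hpn]; exact Nat.find_min' hex ⟨q, hq, rfl⟩
    refine ⟨p, ⟨hp, fun q hq => (wlen_le_iff p q).2 (hmin q hq)⟩, ?_⟩
    rintro q ⟨hq, hq'⟩
    exact unique_shortest q p hq hp (le_antisymm ((wlen_le_iff q p).1 (hq' p hp)) (hmin q hq))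

theorem shortest_one {s t : V} (h : G.Adj s t) :
    IsShortest G len (SimpleGraph.Walk.cons h SimpleGraph.Walk.nil) := by
  refine ⟨by simp [h.ne], fun q hq => ?_⟩
  rw [wlen_le_iff]
  cases q with
  | nil => exact (h.ne rfl).elim
  | @cons _ u _ h1 q =>
    cases q with
    | nil => exact le_rfl
    | @cons _ v _ h2 q =>
      have h3 := wlenN_ge (SimpleGraph.Walk.cons h1 (SimpleGraph.Walk.cons h2 q))
      refine le_trans ?_ h3
      simp only [wlenN, SimpleGraph.Walk.edges_cons, SimpleGraph.Walk.edges_nil, List.map_cons,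
        List.map_nil, List.sum_cons, List.sum_nil, SimpleGraph.Walk.length_cons, lenN]
      have h4 : 2 ^ rk s(s, t) ≤ 2 ^ B V := Nat.pow_le_pow_right (by norm_num) (rk_lt _).le
      have hB : 2 ^ (B V + 1) = 2 ^ B V * 2 := pow_succ _ _
      have h6 : 2 ^ (B V + 1) * (q.length + 1 + 1) =
        2 ^ (B V + 1) * q.length + 2 ^ (B V + 1) + 2 ^ (B V + 1) := by ring
      linarith [Nat.zero_le (2 ^ (B V + 1) * q.length), Nat.zero_le (2 ^ B V)]

theorem shortest_two {s v t : V} (h1 : G.Adj s v) (h2 : G.Adj v t) (hst : s ≠ t)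
    (hna : ¬ G.Adj s t) (huniq : ∀ u, G.Adj s u → G.Adj u t → u = v) :
    IsShortest G len (SimpleGraph.Walk.cons h1 (SimpleGraph.Walk.cons h2 SimpleGraph.Walk.nil)) := by
  refine ⟨by simp [h2.ne, h1.ne, hst], fun q hq => ?_⟩
  rw [wlen_le_iff]
  cases q with
  | nil => exact (hst rfl).elim
  | @cons _ u _ h1' q =>
    cases q with
    | nil => exact (hna h1').elim
    | @cons _ w _ h2' q =>
      cases q with
      | nil =>
        have := huniq u h1' h2'
        subst this
        exact le_rfl
      | @cons _ x _ h3' q =>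
        have h3 := wlenN_ge
          (SimpleGraph.Walk.cons h1' (SimpleGraph.Walk.cons h2' (SimpleGraph.Walk.cons h3' q)))
        refine le_trans ?_ h3
        simp only [wlenN, SimpleGraph.Walk.edges_cons, SimpleGraph.Walk.edges_nil, List.map_cons,
          List.map_nil, List.sum_cons, List.sum_nil, SimpleGraph.Walk.length_cons, lenN]
        have h4 : 2 ^ rk s(s, v) ≤ 2 ^ B V := Nat.pow_le_pow_right (by norm_num) (rk_lt _).le
        have h5 : 2 ^ rk s(v, t) ≤ 2 ^ B V := Nat.pow_le_pow_right (by norm_num) (rk_lt _).le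
        have hB : 2 ^ (B V + 1) = 2 ^ B V * 2 := pow_succ _ _
        have h6 : 2 ^ (B V + 1) * (q.length + 1 + 1 + 1) =
          2 ^ (B V + 1) * q.length + 2 ^ (B V + 1) + 2 ^ (B V + 1) + 2 ^ (B V + 1) := by ring
        linarith [Nat.zero_le (2 ^ (B V + 1) * q.length), Nat.zero_le (2 ^ B V)]

end Generic

/-! ## The adversary -/

section Adversary

variable {V : Type} [Fintype V] [DecidableEq V] {G : SimpleGraph V}

/-- Index of the first vertex of the list that lies on `e` (the length of the list if there is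
none). -/
def lev : List V → Sym2 V → ℕ
  | [], _ => 0
  | v :: l, e => if v ∈ e then 0 else lev l e + 1

theorem lev_le (l : List V) (e : Sym2 V) : lev l e ≤ l.length := by
  induction l with
  | nil => exact le_rfl
  | cons v l ih =>
    rw [lev, List.length_cons]
    split_ifs <;> omega

theorem lev_lt {l : List V} {e : Sym2 V} (h : ∃ v ∈ l, v ∈ e) : lev l e < l.length := by
  induction l with
  | nil => simp at h
  | cons v l ih =>
    rw [lev, List.length_cons]
    split_ifs with h1
    · omega
    · obtain ⟨w, hw, hw'⟩ := h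
      rcases List.mem_cons.1 hw with rfl | hw
      · exact (h1 hw').elim
      · have := ih ⟨w, hw, hw'⟩
        omega

theorem lev_append {l l' : List V} {e : Sym2 V} (h : ∃ v ∈ l, v ∈ e) :
    lev (l ++ l') e = lev l e := by
  induction l with
  | nil => simp at h
  | cons v l ih =>
    rw [List.cons_append, lev, lev]
    split_ifs with h1
    · rfl
    · obtain ⟨w, hw, hw'⟩ := h
      rcases List.mem_cons.1 hw with rfl | hw
      · exact (h1 hw').elim
      · rw [ih ⟨w, hw, hw'⟩]

theorem lev_append_ge {l l' : List V} {e : Sym2 V} (h : ¬ ∃ v ∈ l, v ∈ e) :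
    l.length ≤ lev (l ++ l') e := by
  induction l with
  | nil => exact Nat.zero_le _
  | cons v l ih =>
    rw [List.cons_append, lev, List.length_cons]
    split_ifs with h1
    · exact (h ⟨v, List.mem_cons_self, h1⟩).elim
    · have := ih fun ⟨w, hw, hw'⟩ => h ⟨w, List.mem_cons_of_mem _ hw, hw'⟩
      omega

open Classical in
/-- Level of an edge: edges at the special points are raised by one. -/
noncomputable def lv (l : List V) (K : Finset V) (e : Sym2 V) : ℕ :=
  if ∃ v ∈ l, v ∈ e then lev l e
  else if ∃ v ∈ K, v ∈ e then l.length + 1 else l.length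

/-- The capacities. -/
noncomputable def cp (l : List V) (K : Finset V) (e : Sym2 V) : ℝ :=
  ((lv l K e * B V + rk e + 1 : ℕ) : ℝ)

theorem cp_pos (l : List V) (K : Finset V) (e : Sym2 V) : 0 < cp l K e := by
  rw [cp]; positivity

theorem cp_lt {l l' : List V} {K K' : Finset V} {e e' : Sym2 V} (h : lv l K e < lv l' K' e') :
    cp l K e < cp l' K' e' := by
  rw [cp, cp, Nat.cast_lt]
  have h1 := rk_lt e
  have h2 : (lv l K e + 1) * B V ≤ lv l' K' e' * B V := Nat.mul_le_mul_right _ h
  rw [add_mul] at h2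
  omega

theorem cp_inj (l : List V) (K : Finset V) : Function.Injective (cp l K) := by
  intro e e' h
  rcases lt_trichotomy (lv l K e) (lv l K e') with h1 | h1 | h1
  · exact absurd h (cp_lt h1).ne
  · rw [cp, cp, Nat.cast_inj, h1] at h
    exact rk_inj (by omega)
  · exact absurd h (cp_lt h1).ne'

theorem lv_low {l l' : List V} {K : Finset V} {e : Sym2 V} (h : ∃ v ∈ l, v ∈ e) :
    lv (l ++ l') K e = lev l e := by
  have : ∃ v ∈ l ++ l', v ∈ e := by
    obtain ⟨v, hv, hv'⟩ := h
    exact ⟨v, List.mem_append_left _ hv, hv'⟩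
  rw [lv, if_pos this, lev_append h]

theorem lv_high {l l' : List V} {K : Finset V} {e : Sym2 V} (h : ¬ ∃ v ∈ l, v ∈ e) :
    l.length ≤ lv (l ++ l') K e := by
  rw [lv]
  split_ifs
  · exact lev_append_ge h
  · rw [List.length_append]; omega
  · rw [List.length_append]; omega

/-- If two capacity functions agree on a set `A` of edges that contains all edges at `s`, and the
other capacities are larger, then the observations at `s` agree. -/
theorem bottleneck_mem {len c : Sym2 V → ℝ} {A : Set (Sym2 V)} {s t : V} {e : Sym2 V}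
    (hs : ∀ e, s ∈ e → e ∈ A) (hA : ∀ e ∈ A, ∀ e' ∉ A, c e < c e')
    (h : Bottleneck G len c s t e) : e ∈ A := by
  obtain ⟨p, _, he, hmin⟩ := h
  by_contra hne
  cases p with
  | nil => simp at he
  | @cons _ u _ h1 p =>
    have h2 : s(s, u) ∈ A := hs _ (Sym2.mem_mk_left s u)
    have h3 : s(s, u) ≠ e := fun h => hne (h ▸ h2)
    have h4 := hmin s(s, u) (by simp) h3
    have h5 := hA _ h2 _ hne
    linarith

theorem bottleneck_congr {len c c' : Sym2 V → ℝ} {A : Set (Sym2 V)} {s t : V} {e : Sym2 V}
    (hs : ∀ e, s ∈ e → e ∈ A) (hA : ∀ e ∈ A, ∀ e' ∉ A, c e < c e')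
    (hA' : ∀ e ∈ A, ∀ e' ∉ A, c' e < c' e') (hc : ∀ e ∈ A, c e = c' e)
    (h : Bottleneck G len c s t e) : Bottleneck G len c' s t e := by
  have heA := bottleneck_mem hs hA h
  obtain ⟨p, hp, he, hmin⟩ := h
  refine ⟨p, hp, he, fun e' he' hne => ?_⟩
  by_cases h' : e' ∈ A
  · rw [← hc e heA, ← hc e' h']
    exact hmin e' he' hne
  · exact hA' e heA e' h'

theorem obs_congr {len c c' : Sym2 V → ℝ} {A : Set (Sym2 V)} {s : V}
    (hs : ∀ e, s ∈ e → e ∈ A) (hA : ∀ e ∈ A, ∀ e' ∉ A, c e < c e')
    (hA' : ∀ e ∈ A, ∀ e' ∉ A, c' e < c' e') (hc : ∀ e ∈ A, c e = c' e) :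
    obs G len c s = obs G len c' s := by
  funext t
  ext x
  simp only [obs, Set.mem_ofPred_eq]
  constructor
  · rintro ⟨h1, h2⟩
    have := bottleneck_mem hs hA h1
    exact ⟨bottleneck_congr hs hA hA' hc h1, by rw [h2, hc _ this]⟩
  · rintro ⟨h1, h2⟩
    have := bottleneck_mem hs hA' h1
    exact ⟨bottleneck_congr hs hA' hA (fun e he => (hc e he).symm) h1, by rw [h2, hc _ this]⟩

/-- The vertices of a history. -/
def vs (h : Hist V) : List V := h.map Prod.fst

/-- The history that the adversary produces. -/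
noncomputable def adv (G : SimpleGraph V) (len : Sym2 V → ℝ) (σ : Algo V) : ℕ → Hist V
  | 0 => []
  | m + 1 =>
    match σ (adv G len σ m) with
    | none => adv G len σ m
    | some s => adv G len σ m ++ [(s, obs G len (cp (vs (adv G len σ m) ++ [s]) ∅) s)]

theorem adv_succ (len : Sym2 V → ℝ) (σ : Algo V) (m : ℕ) :
    (σ (adv G len σ m) = none ∧ adv G len σ (m + 1) = adv G len σ m) ∨
    ∃ s, σ (adv G len σ m) = some s ∧ adv G len σ (m + 1) =
      adv G len σ m ++ [(s, obs G len (cp (vs (adv G len σ m) ++ [s]) ∅) s)] := by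
  rw [adv]
  cases h : σ (adv G len σ m) with
  | none => left; simp
  | some s => right; exact ⟨s, rfl, rfl⟩

theorem adv_prefix_step (len : Sym2 V → ℝ) (σ : Algo V) (m : ℕ) :
    ∃ l', vs (adv G len σ (m + 1)) = vs (adv G len σ m) ++ l' := by
  rcases adv_succ (G := G) len σ m with ⟨_, h⟩ | ⟨s, _, h⟩
  · exact ⟨[], by rw [h]; simp⟩
  · exact ⟨[s], by rw [h, vs, List.map_append]; rfl⟩

theorem adv_prefix (len : Sym2 V → ℝ) (σ : Algo V) (m : ℕ) : ∀ d,
    ∃ l', vs (adv G len σ (m + d)) = vs (adv G len σ m) ++ l' := by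
  intro d
  induction d with
  | zero => exact ⟨[], by simp⟩
  | succ d ih =>
    obtain ⟨l, hl⟩ := ih
    obtain ⟨l', hl'⟩ := adv_prefix_step (G := G) len σ (m + d)
    exact ⟨l ++ l', by rw [← add_assoc, hl', hl, List.append_assoc]⟩

theorem adv_length (len : Sym2 V → ℝ) (σ : Algo V) : ∀ m, (vs (adv G len σ m)).length ≤ m := by
  intro m
  induction m with
  | zero => simp [adv, vs]
  | succ m ih =>
    rcases adv_succ (G := G) len σ m with ⟨_, h⟩ | ⟨s, _, h⟩
    · rw [h]; omega
    · rw [h, vs, List.map_append, List.length_append]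
      simp only [vs] at ih
      simp
      simpa using ih

/-- Against the final capacities the algorithm runs as against the adversary. -/
theorem run_eq_adv (len : Sym2 V → ℝ) (σ : Algo V) (m : ℕ) (K : Finset V) : ∀ i, i ≤ m →
    run G len (cp (vs (adv G len σ m)) K) σ i = adv G len σ i := by
  intro i
  induction i with
  | zero => intro _; rfl
  | succ i ih =>
    intro hi
    rw [run, ih (by omega), step]
    rcases adv_succ (G := G) len σ i with ⟨h1, h2⟩ | ⟨s, h1, h2⟩
    · rw [h1, h2]
    · rw [h1, h2]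
      dsimp only
      congr 3
      obtain ⟨l', hl'⟩ := adv_prefix (G := G) len σ (i + 1) (m - (i + 1))
      rw [Nat.add_sub_cancel' hi] at hl'
      have e : vs (adv G len σ (i + 1)) = vs (adv G len σ i) ++ [s] := by
        rw [h2, vs, List.map_append]; rfl
      rw [hl', e]
      set l := vs (adv G len σ i) ++ [s] with hl
      refine obs_congr (A := {e | ∃ v ∈ l, v ∈ e}) ?_ ?_ ?_ ?_
      · intro e he
        exact ⟨s, by simp [hl], he⟩
      · intro e he e' he'
        apply cp_lt
        rw [lv_low he]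
        exact (lev_lt he).trans_le (lv_high he')
      · intro e he e' he'
        apply cp_lt
        have h3 := lv_low (l' := []) (K := ∅) he
        have h4 := lv_high (l' := []) (K := ∅) he'
        rw [List.append_nil] at h3 h4
        rw [h3]
        exact (lev_lt he).trans_le h4
      · intro e he
        have h3 := lv_low (l' := []) (K := ∅) he
        rw [List.append_nil] at h3
        rw [cp, cp, lv_low he, h3]

theorem revealed_subset (len : Sym2 V → ℝ) (l : List V) (K : Finset V) (S : Finset V)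
    (hS : ∀ v, v ∈ S ↔ v ∈ l) :
    revealed G len (cp l K) S ⊆ {e | e ∈ G.edgeSet ∧ ∃ v ∈ S, v ∈ e} := by
  rintro e ⟨s, hs, t, h⟩
  refine ⟨?_, ?_⟩
  · obtain ⟨p, _, he, _⟩ := h
    exact SimpleGraph.Walk.edges_subset_edgeSet p he
  · have h1 : e ∈ {e : Sym2 V | ∃ v ∈ l, v ∈ e} := by
      refine bottleneck_mem (fun e' he' => ⟨s, (hS s).1 hs, he'⟩) ?_ h
      intro e he e' he'
      apply cp_lt
      have h3 := lv_low (l' := []) (K := K) he
      have h4 := lv_high (l' := []) (K := K) he'
      rw [List.append_nil] at h3 h4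
      rw [h3]
      exact (lev_lt he).trans_le h4
    obtain ⟨v, hv, hv'⟩ := h1
    exact ⟨v, (hS v).2 hv, hv'⟩

end Adversary

/-! ## The incidence graph of the affine plane -/

section Plane

variable (q : ℕ)

/-- Points and lines of the affine plane: `Sum.inl (x, y)` is a point and `Sum.inr (a, b)` is the
line with the equation `y = a x + b`. -/
abbrev Vx (q : ℕ) : Type := (ZMod q × ZMod q) ⊕ (ZMod q × ZMod q)

/-- The point `P` lies on the line `l`. -/
def On {q : ℕ} (P l : ZMod q × ZMod q) : Prop := P.2 = l.1 * P.1 + l.2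

/-- The incidence graph. -/
def plane : SimpleGraph (Vx q) where
  Adj u v := (∃ P l, u = Sum.inl P ∧ v = Sum.inr l ∧ On P l) ∨
    (∃ P l, v = Sum.inl P ∧ u = Sum.inr l ∧ On P l)
  symm := ⟨by
    rintro u v (h | h)
    · exact Or.inr h
    · exact Or.inl h⟩
  loopless := ⟨by
    rintro u (⟨P, l, h1, h2, _⟩ | ⟨P, l, h1, h2, _⟩) <;> (rw [h1] at h2; exact Sum.inl_ne_inr h2)⟩

variable {q}

theorem adj_iff {P l : ZMod q × ZMod q} : (plane q).Adj (Sum.inl P) (Sum.inr l) ↔ On P l := by
  constructor
  · rintro (⟨P', l', h1, h2, h3⟩ | ⟨P', l', h1, _, _⟩)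
    · rw [Sum.inl.inj h1, Sum.inr.inj h2]; exact h3
    · exact (Sum.inr_ne_inl h1).elim
  · intro h
    exact Or.inl ⟨P, l, rfl, rfl, h⟩

theorem adj_inl {P : ZMod q × ZMod q} {v : Vx q} (h : (plane q).Adj (Sum.inl P) v) :
    ∃ l, v = Sum.inr l ∧ On P l := by
  rcases h with ⟨P', l, h1, h2, h3⟩ | ⟨P', l, _, h2, _⟩
  · exact ⟨l, h2, by rw [Sum.inl.inj h1]; exact h3⟩
  · exact (Sum.inl_ne_inr h2).elim

theorem adj_inr {l : ZMod q × ZMod q} {v : Vx q} (h : (plane q).Adj (Sum.inr l) v) :
    ∃ P, v = Sum.inl P ∧ On P l := by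
  rcases h with ⟨P', l, h1, _, _⟩ | ⟨P', l', h1, h2, h3⟩
  · exact (Sum.inl_ne_inr h1.symm).elim
  · exact ⟨P', h1, by rw [Sum.inr.inj h2]; exact h3⟩

/-- The line through `P` with slope `a`. -/
def lineAt (P : ZMod q × ZMod q) (a : ZMod q) : ZMod q × ZMod q := (a, P.2 - a * P.1)

/-- The point of `l` above `x`. -/
def ptAt (l : ZMod q × ZMod q) (x : ZMod q) : ZMod q × ZMod q := (x, l.1 * x + l.2)

theorem on_lineAt (P : ZMod q × ZMod q) (a : ZMod q) : On P (lineAt P a) := by
  simp [On, lineAt]

theorem on_ptAt (l : ZMod q × ZMod q) (x : ZMod q) : On (ptAt l x) l := by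
  simp [On, ptAt]

theorem on_iff_lineAt {P l : ZMod q × ZMod q} (h : On P l) : l = lineAt P l.1 := by
  rw [On] at h
  rw [lineAt, h]
  ext <;> simp

theorem on_iff_ptAt {P l : ZMod q × ZMod q} (h : On P l) : P = ptAt l P.1 := by
  rw [On] at h
  rw [ptAt, ← h]

/-- The edges at a vertex. -/
def edgeAt (v : Vx q) (a : ZMod q) : Sym2 (Vx q) :=
  match v with
  | Sum.inl P => s(Sum.inl P, Sum.inr (lineAt P a))
  | Sum.inr l => s(Sum.inl (ptAt l a), Sum.inr l)

theorem exists_edgeAt {e : Sym2 (Vx q)} (he : e ∈ (plane q).edgeSet) {v : Vx q} (hv : v ∈ e) :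
    ∃ a, e = edgeAt v a := by
  obtain ⟨w, rfl⟩ := hv
  rw [SimpleGraph.mem_edgeSet] at he
  rcases v with P | l
  · obtain ⟨l, rfl, h⟩ := adj_inl he
    exact ⟨l.1, by rw [edgeAt, ← on_iff_lineAt h]⟩
  · obtain ⟨P, rfl, h⟩ := adj_inr he
    exact ⟨P.1, by rw [edgeAt, ← on_iff_ptAt h, Sym2.eq_swap]⟩

variable [Fact q.Prime]

/-- Two different points are on at most one line. -/
theorem slope_unique {P P' : ZMod q × ZMod q} (hne : P' ≠ P) {a b : ZMod q}
    (ha : On P' (lineAt P a)) (hb : On P' (lineAt P b)) : a = b := by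
  simp only [On, lineAt] at ha hb
  have h1 : (a - b) * (P'.1 - P.1) = 0 := by
    have := ha.symm.trans hb
    linear_combination this
  rcases mul_eq_zero.1 h1 with h2 | h2
  · exact sub_eq_zero.1 h2
  · exfalso
    apply hne
    have h3 : P'.1 = P.1 := sub_eq_zero.1 h2
    have h4 : P'.2 = P.2 := by rw [ha, h3]; ring
    exact Prod.ext h3 h4

theorem line_unique {P P' : ZMod q × ZMod q} (hne : P' ≠ P) {l l' : ZMod q × ZMod q}
    (h1 : On P l) (h2 : On P' l) (h3 : On P l') (h4 : On P' l') : l' = l := by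
  have e1 := on_iff_lineAt h1
  have e2 := on_iff_lineAt h3
  rw [e1] at h2
  rw [e2] at h4
  rw [e1, e2, slope_unique hne h4 h2]

open Classical in
/-- The number of lines in `S` through `P`. -/
noncomputable def dS (S : Finset (Vx q)) (P : ZMod q × ZMod q) : ℕ :=
  (Finset.univ.filter fun a : ZMod q => Sum.inr (lineAt P a) ∈ S).card

open Classical in
theorem sum_dS (S : Finset (Vx q)) :
    ∑ P : ZMod q × ZMod q, dS S P =
      q * (Finset.univ.filter fun l : ZMod q × ZMod q => (Sum.inr l : Vx q) ∈ S).card := by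
  have h1 : ∀ P : ZMod q × ZMod q, dS S P =
      ∑ a : ZMod q, if (Sum.inr (lineAt P a) : Vx q) ∈ S then 1 else 0 := by
    intro P
    rw [dS, Finset.card_filter]
  rw [Finset.card_filter]
  simp_rw [h1]
  rw [Fintype.sum_prod_type]
  have h2 : ∀ x : ZMod q, (∑ y : ZMod q, ∑ a : ZMod q,
      if (Sum.inr (lineAt (x, y) a) : Vx q) ∈ S then 1 else 0) =
      ∑ l : ZMod q × ZMod q, if (Sum.inr l : Vx q) ∈ S then 1 else 0 := by
    intro x
    rw [Finset.sum_comm, Fintype.sum_prod_type]
    refine Finset.sum_congr rfl fun a _ => ?_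
    exact Equiv.sum_comp (Equiv.subRight (a * x))
      (fun b => if (Sum.inr (a, b) : Vx q) ∈ S then 1 else 0)
  rw [Finset.sum_congr rfl fun x _ => h2 x, Finset.sum_const, Finset.card_univ, ZMod.card,
    smul_eq_mul]

open Classical in
/-- The lines not in `S` that meet `K`. -/
noncomputable def UL (S : Finset (Vx q)) (K : Finset (ZMod q × ZMod q)) :
    Finset (ZMod q × ZMod q) :=
  Finset.univ.filter fun l => (Sum.inr l : Vx q) ∉ S ∧ ∃ P ∈ K, On P l

open Classical in
theorem UL_card {S : Finset (Vx q)} {k : ℕ} (hq : 4 * k ≤ q) (K : Finset (ZMod q × ZMod q)) :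
    (∀ P ∈ K, 2 * dS S P ≤ q) → K.card ≤ k → K.card * k ≤ (UL S K).card := by
  induction K using Finset.induction_on with
  | empty => intro _ _; simp
  | @insert P K hP ih =>
    intro h1 h2
    rw [Finset.card_insert_of_notMem hP] at h2
    have h3 := ih (fun P' hP' => h1 P' (Finset.mem_insert_of_mem hP')) (by omega)
    set badA := (Finset.univ.filter fun a : ZMod q => (Sum.inr (lineAt P a) : Vx q) ∈ S) ∪
      K.biUnion fun P' => Finset.univ.filter fun a : ZMod q => On P' (lineAt P a) with hbad
    have hcard : badA.card ≤ dS S P + K.card := by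
      refine (Finset.card_union_le _ _).trans ?_
      refine Nat.add_le_add le_rfl ?_
      refine Finset.card_biUnion_le.trans ?_
      refine (Finset.sum_le_sum fun P' hP' => ?_).trans (by simp : ∑ _P' ∈ K, 1 ≤ K.card)
      rw [Finset.card_le_one]
      intro a ha b hb
      rw [Finset.mem_filter] at ha hb
      exact slope_unique (fun h => hP (by rw [← h]; exact hP')) ha.2 hb.2
    have hinj : Function.Injective (lineAt P) := fun a b h => (Prod.ext_iff.1 h).1
    have hdisj : Disjoint (UL S K) ((Finset.univ \ badA).image (lineAt P)) := by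
      rw [Finset.disjoint_left]
      intro l hl hl'
      obtain ⟨a, ha, rfl⟩ := Finset.mem_image.1 hl'
      rw [UL, Finset.mem_filter] at hl
      obtain ⟨P', hP', hP''⟩ := hl.2.2
      refine (Finset.mem_sdiff.1 ha).2 (Finset.mem_union_right _ (Finset.mem_biUnion.2
        ⟨P', hP', Finset.mem_filter.2 ⟨Finset.mem_univ _, hP''⟩⟩))
    have hsub : UL S K ∪ (Finset.univ \ badA).image (lineAt P) ⊆ UL S (insert P K) := by
      intro l hl
      rcases Finset.mem_union.1 hl with hl | hl
      · rw [UL, Finset.mem_filter] at hl ⊢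
        obtain ⟨P', hP', hP''⟩ := hl.2.2
        exact ⟨Finset.mem_univ _, hl.2.1, P', Finset.mem_insert_of_mem hP', hP''⟩
      · obtain ⟨a, ha, rfl⟩ := Finset.mem_image.1 hl
        rw [UL, Finset.mem_filter]
        refine ⟨Finset.mem_univ _, fun h => ?_, P, Finset.mem_insert_self _ _, on_lineAt P a⟩
        exact (Finset.mem_sdiff.1 ha).2 (Finset.mem_union_left _
          (Finset.mem_filter.2 ⟨Finset.mem_univ _, h⟩))
    have h4 := Finset.card_le_card hsub
    rw [Finset.card_union_of_disjoint hdisj, Finset.card_image_of_injective _ hinj,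
      Finset.card_sdiff_of_subset (Finset.subset_univ _), Finset.card_univ, ZMod.card] at h4
    have h5 := h1 P (Finset.mem_insert_self _ _)
    rw [Finset.card_insert_of_notMem hP]
    have h6 : (K.card + 1) * k = K.card * k + k := by ring
    omega

open Classical in
theorem exists_K {S : Finset (Vx q)} {k : ℕ} (hq : 4 * k ≤ q) (hS : S.card < k * k) :
    ∃ K : Finset (ZMod q × ZMod q), K.card = k ∧ (∀ P ∈ K, (Sum.inl P : Vx q) ∉ S) ∧
      k * k ≤ (UL S K).card := by
  have hqpos : 0 < q := (Fact.out : q.Prime).pos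
  set SL := Finset.univ.filter fun l : ZMod q × ZMod q => (Sum.inr l : Vx q) ∈ S with hSL
  set SP := Finset.univ.filter fun P : ZMod q × ZMod q => (Sum.inl P : Vx q) ∈ S with hSP
  have hcard : SL.card + SP.card ≤ S.card := by
    have e1 : SL.card = (SL.image (Sum.inr : _ → Vx q)).card :=
      (Finset.card_image_of_injective _ Sum.inr_injective).symm
    have e2 : SP.card = (SP.image (Sum.inl : _ → Vx q)).card :=
      (Finset.card_image_of_injective _ Sum.inl_injective).symm
    rw [e1, e2, ← Finset.card_union_of_disjoint]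
    · refine Finset.card_le_card fun v hv => ?_
      rcases Finset.mem_union.1 hv with hv | hv
      · obtain ⟨l, hl, rfl⟩ := Finset.mem_image.1 hv
        exact (Finset.mem_filter.1 hl).2
      · obtain ⟨l, hl, rfl⟩ := Finset.mem_image.1 hv
        exact (Finset.mem_filter.1 hl).2
    · rw [Finset.disjoint_left]
      intro v hv hv'
      obtain ⟨l, _, rfl⟩ := Finset.mem_image.1 hv
      obtain ⟨P, _, h⟩ := Finset.mem_image.1 hv'
      exact Sum.inl_ne_inr h
  set heavy := Finset.univ.filter fun P : ZMod q × ZMod q => q < 2 * dS S P with hheavy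
  have hheavycard : heavy.card ≤ 2 * SL.card := by
    have h1 : heavy.card * q ≤ ∑ P ∈ heavy, 2 * dS S P := by
      rw [← smul_eq_mul, ← Finset.sum_const]
      exact Finset.sum_le_sum fun P hP => (Finset.mem_filter.1 hP).2.le
    have h2 : ∑ P ∈ heavy, 2 * dS S P ≤ ∑ P : ZMod q × ZMod q, 2 * dS S P :=
      Finset.sum_le_sum_of_subset (Finset.subset_univ _)
    have h2' : ∑ P : ZMod q × ZMod q, 2 * dS S P = 2 * (q * SL.card) := by
      rw [← Finset.mul_sum, sum_dS]
    rw [h2'] at h2
    have h3 : heavy.card * q ≤ (2 * SL.card) * q := by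
      calc _ ≤ _ := h1
        _ ≤ _ := h2
        _ = _ := by ring
    exact Nat.le_of_mul_le_mul_right h3 hqpos
  have hgood : k ≤ (Finset.univ \ (heavy ∪ SP)).card := by
    rw [Finset.card_sdiff_of_subset (Finset.subset_univ _), Finset.card_univ, Fintype.card_prod,
      ZMod.card]
    have h1 := Finset.card_union_le heavy SP
    have h2 : (4 * k) * (4 * k) ≤ q * q := Nat.mul_le_mul hq hq
    have h3 : k ≤ k * k ∨ k = 0 := by
      rcases Nat.eq_zero_or_pos k with h | h
      · exact Or.inr h
      · exact Or.inl (Nat.le_mul_of_pos_left k h)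
    have h4 : (4 * k) * (4 * k) = 16 * (k * k) := by ring
    rcases h3 with h3 | h3
    · omega
    · omega
  obtain ⟨K, hK, hKk⟩ := Finset.exists_subset_card_eq hgood
  refine ⟨K, hKk, fun P hP h => ?_, ?_⟩
  · exact (Finset.mem_sdiff.1 (hK hP)).2 (Finset.mem_union_right _
      (Finset.mem_filter.2 ⟨Finset.mem_univ _, h⟩))
  · have := UL_card (S := S) hq K (fun P hP => by
      by_contra h
      push Not at h
      exact (Finset.mem_sdiff.1 (hK hP)).2 (Finset.mem_union_left _
        (Finset.mem_filter.2 ⟨Finset.mem_univ _, h⟩))) hKk.le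
    rwa [hKk] at this

theorem edge_revealed {l : List (Vx q)} {K : Finset (ZMod q × ZMod q)}
    (hK : ∀ P ∈ K, (Sum.inl P : Vx q) ∉ l) {L : ZMod q × ZMod q} (hL : (Sum.inr L : Vx q) ∉ l)
    {P : ZMod q × ZMod q} (hP : P ∈ K) (hPL : On P L) (x : ZMod q) :
    (edgeAt (Sum.inr L) x : Sym2 (Vx q)) ∈ revealed (plane q) len
      (cp l (K.map Function.Embedding.inl)) (K.map Function.Embedding.inl) := by
  set Q := ptAt L x with hQ
  have hQL : On Q L := on_ptAt L x
  have e : (edgeAt (Sum.inr L) x : Sym2 (Vx q)) = s(Sum.inl Q, Sum.inr L) := rfl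
  rw [e]
  have hadjQ : (plane q).Adj (Sum.inl Q) (Sum.inr L) := adj_iff.2 hQL
  by_cases hQK : Q ∈ K
  · refine ⟨Sum.inl Q, by simpa using hQK, Sum.inr L, _, shortest_one hadjQ, by simp, ?_⟩
    intro e' he' hne
    simp only [SimpleGraph.Walk.edges_cons, SimpleGraph.Walk.edges_nil, List.mem_singleton] at he'
    exact (hne he').elim
  · have hPQ : P ≠ Q := fun h => hQK (h ▸ hP)
    have hadjP : (plane q).Adj (Sum.inl P) (Sum.inr L) := adj_iff.2 hPL
    have hsp := shortest_two (G := plane q) hadjP hadjQ.symm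
      (fun h => hPQ (Sum.inl.inj h))
      (fun h => by
        obtain ⟨l', h', _⟩ := adj_inl h
        exact Sum.inl_ne_inr h')
      (fun u hu hu' => by
        obtain ⟨l', rfl, h'⟩ := adj_inl hu
        obtain ⟨Q', h1, h2⟩ := adj_inr hu'
        rw [← Sum.inl.inj h1] at h2
        rw [line_unique hPQ.symm hPL hQL h' h2])
    refine ⟨Sum.inl P, by simpa using hP, Sum.inl Q, _, hsp, ?_, ?_⟩
    · simp [Sym2.eq_swap]
    · intro e' he' hne
      have he'' : e' = s(Sum.inl P, Sum.inr L) := by
        simp only [SimpleGraph.Walk.edges_cons, SimpleGraph.Walk.edges_nil, List.mem_cons,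
          List.not_mem_nil, or_false] at he'
        rcases he' with h | h
        · exact h
        · exact (hne (h.trans Sym2.eq_swap)).elim
      rw [he'']
      apply cp_lt
      have h1 : lv l (K.map Function.Embedding.inl) (s(Sum.inl P, Sum.inr L) : Sym2 (Vx q)) =
          l.length + 1 := by
        rw [lv, if_neg, if_pos]
        · exact ⟨Sum.inl P, by simpa using hP, Sym2.mem_mk_left _ _⟩
        · rintro ⟨v, hv, hv'⟩
          rcases Sym2.mem_iff.1 hv' with rfl | rfl
          · exact hK P hP hv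
          · exact hL hv
      rw [h1, lv]
      split_ifs with h2 h3
      · exact (lev_lt h2).trans (Nat.lt_succ_self _)
      · obtain ⟨v, hv, hv'⟩ := h3
        obtain ⟨P', hP', rfl⟩ := Finset.mem_map.1 hv
        rcases Sym2.mem_iff.1 hv' with h | h
        · exact (hQK (Sum.inl.inj h ▸ hP')).elim
        · exact (Sum.inl_ne_inr h).elim
      · exact Nat.lt_succ_self _

open Classical in
theorem ncard_revealed_K {l : List (Vx q)} {K : Finset (ZMod q × ZMod q)}
    (hK : ∀ P ∈ K, (Sum.inl P : Vx q) ∉ l) {S : Finset (Vx q)} (hS : ∀ v, v ∈ S ↔ v ∈ l) :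
    q * (UL S K).card ≤ (revealed (plane q) len
      (cp l (K.map Function.Embedding.inl)) (K.map Function.Embedding.inl)).ncard := by
  have h1 : ((UL S K ×ˢ (Finset.univ : Finset (ZMod q))).image
      fun p => (edgeAt (Sum.inr p.1) p.2 : Sym2 (Vx q))).card = q * (UL S K).card := by
    rw [Finset.card_image_of_injective, Finset.card_product, Finset.card_univ, ZMod.card, mul_comm]
    rintro ⟨L, x⟩ ⟨L', x'⟩ h
    simp only [edgeAt] at h
    rw [Sym2.eq_iff] at h
    rcases h with ⟨h1, h2⟩ | ⟨h1, _⟩
    · have h3 := Sum.inl.inj h1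
      have h4 := Sum.inr.inj h2
      have h5 : x = x' := (Prod.ext_iff.1 h3).1
      rw [h4, h5]
    · exact (Sum.inl_ne_inr h1).elim
  rw [← h1, ← Set.ncard_coe_finset]
  refine Set.ncard_le_ncard ?_ (Set.toFinite _)
  intro e he
  rw [Finset.mem_coe, Finset.mem_image] at he
  obtain ⟨⟨L, x⟩, hL, rfl⟩ := he
  have hL' := (Finset.mem_product.1 hL).1
  rw [UL, Finset.mem_filter] at hL'
  obtain ⟨P, hP, hPL⟩ := hL'.2.2
  exact edge_revealed hK (fun h => hL'.2.1 ((hS _).2 h)) hP hPL x

theorem ncard_revealed_S (l : List (Vx q)) (K : Finset (Vx q)) (S : Finset (Vx q))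
    (hS : ∀ v, v ∈ S ↔ v ∈ l) :
    (revealed (plane q) len (cp l K) S).ncard ≤ S.card * q := by
  classical
  have h1 : revealed (plane q) len (cp l K) S ⊆
      (((S ×ˢ (Finset.univ : Finset (ZMod q))).image fun p => edgeAt p.1 p.2 :
        Finset (Sym2 (Vx q))) : Set (Sym2 (Vx q))) := by
    intro e he
    obtain ⟨h2, v, hv, hv'⟩ := revealed_subset len l K S hS he
    obtain ⟨a, ha⟩ := exists_edgeAt h2 hv'
    rw [Finset.mem_coe, Finset.mem_image]
    exact ⟨(v, a), Finset.mem_product.2 ⟨hv, Finset.mem_univ _⟩, ha.symm⟩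
  refine (Set.ncard_le_ncard h1 (Set.toFinite _)).trans ?_
  rw [Set.ncard_coe_finset]
  refine Finset.card_image_le.trans ?_
  rw [Finset.card_product, Finset.card_univ, ZMod.card]

theorem plane_main {k m : ℕ} (hq : 4 * k ≤ q) (hm : m < k * k) (σ : Algo (Vx q)) :
    ∃ c : Sym2 (Vx q) → ℝ, (∀ e, 0 < c e) ∧ Function.Injective c ∧ ∀ i, i ≤ m →
      (revealed (plane q) len c (points (run (plane q) len c σ i))).ncard <
        opt (plane q) len c k := by
  classical
  set l := vs (adv (plane q) len σ m) with hl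
  have hlen : l.length ≤ m := adv_length len σ m
  have hScard : l.toFinset.card ≤ m := (List.toFinset_card_le l).trans hlen
  obtain ⟨K, hKk, hK, hUL⟩ := exists_K (S := l.toFinset) hq (lt_of_le_of_lt hScard hm)
  set c := cp l (K.map Function.Embedding.inl) with hc
  refine ⟨c, cp_pos _ _, cp_inj _ _, fun i hi => ?_⟩
  have hrun : run (plane q) len c σ i = adv (plane q) len σ i := run_eq_adv len σ m _ i hi
  have hsub : points (run (plane q) len c σ i) ⊆ l.toFinset := by
    obtain ⟨l', hl'⟩ := adv_prefix (G := plane q) len σ i (m - i)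
    rw [Nat.add_sub_cancel' hi, ← hl] at hl'
    intro v hv
    rw [hrun, mem_points] at hv
    rw [List.mem_toFinset, hl']
    exact List.mem_append_left _ hv
  have h1 : (revealed (plane q) len c (points (run (plane q) len c σ i))).ncard ≤
      (revealed (plane q) len c l.toFinset).ncard := by
    refine Set.ncard_le_ncard ?_ (Set.toFinite _)
    rintro e ⟨s, hs, t, h⟩
    exact ⟨s, hsub hs, t, h⟩
  have h2 := ncard_revealed_S l (K.map Function.Embedding.inl) l.toFinset
    (fun v => List.mem_toFinset)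
  have h3 := ncard_revealed_K (l := l) (K := K) (S := l.toFinset)
    (fun P hP h => hK P hP (List.mem_toFinset.2 h)) (fun v => List.mem_toFinset)
  have h4 : (revealed (plane q) len c (K.map Function.Embedding.inl)).ncard ≤
      opt (plane q) len c k := by
    rw [opt]
    refine Finset.le_sup (f := fun S => (revealed (plane q) len c S).ncard) ?_
    rw [Finset.mem_powersetCard]
    exact ⟨Finset.subset_univ _, by rw [Finset.card_map, hKk]⟩
  have hqpos : 0 < q := (Fact.out : q.Prime).pos
  rw [← hc] at h2 h3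
  have h5 : l.toFinset.card * q < q * (UL l.toFinset K).card := by
    calc l.toFinset.card * q ≤ m * q := Nat.mul_le_mul_right _ hScard
      _ < (k * k) * q := Nat.mul_lt_mul_of_pos_right hm hqpos
      _ ≤ _ := by rw [mul_comm q]; exact Nat.mul_le_mul_right _ hUL
  omega

end Plane

/-- The main theorem. -/
theorem main (L : ℝ) : ∃ (V : Type) (_ : Fintype V) (G : SimpleGraph V) (len : Sym2 V → ℝ) (k : ℕ),
    0 < k ∧ L ≤ (Fintype.card V : ℝ) / k ∧ ValidLengths G len ∧
      ∀ σ : Algo V, ∃ c : Sym2 V → ℝ, (∀ e, 0 < c e) ∧ Function.Injective c ∧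
        ∀ m : ℕ, 64 * m ≤ Fintype.card V →
          (revealed G len c (points (run G len c σ m))).ncard < opt G len c k := by
  obtain ⟨q, hq1, hq2⟩ := Nat.exists_infinite_primes (max 8 ⌈L⌉₊)
  have : Fact q.Prime := ⟨hq2⟩
  have h8 : 8 ≤ q := (le_max_left _ _).trans hq1
  have hL : L ≤ q := (Nat.le_ceil L).trans (by exact_mod_cast (le_max_right _ _).trans hq1)
  have hcard : Fintype.card (Vx q) = 2 * (q * q) := by
    rw [Fintype.card_sum, Fintype.card_prod, ZMod.card]; ring
  have hk : 0 < q / 4 := by omega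
  refine ⟨Vx q, inferInstance, plane q, len, q / 4, hk, ?_, validLengths, fun σ => ?_⟩
  · rw [hcard, le_div_iff₀ (by exact_mod_cast hk)]
    have h1 : ((q / 4 : ℕ) : ℝ) ≤ q := by exact_mod_cast Nat.div_le_self q 4
    have h2 : (0 : ℝ) < q := by exact_mod_cast (by omega : 0 < q)
    have h3 : (0 : ℝ) ≤ ((q / 4 : ℕ) : ℝ) := Nat.cast_nonneg _
    push_cast
    nlinarith
  · set k := q / 4 with hkdef
    have h1 : 4 * k ≤ q := by omega
    have h2 : q ≤ 4 * k + 3 := by omega
    have h3 : 2 ≤ k := by omega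
    obtain ⟨c, hc1, hc2, hc3⟩ := plane_main (q := q) (k := k) (m := 2 * (q * q) / 64) h1 (by
      have h4 : q * q ≤ (4 * k + 3) * (4 * k + 3) := Nat.mul_le_mul h2 h2
      have h5 : (4 * k + 3) * (4 * k + 3) < 32 * (k * k) := by nlinarith
      omega) σ
    refine ⟨c, hc1, hc2, fun m hm => hc3 m ?_⟩
    rw [hcard] at hm
    omega

end Pool.Agent.V11237.Vantage
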