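import Mathlib

/-!
# WPL trees

Binary search trees on the keys `1, ..., n`, single rotations, weighted path lengths, and the
WPL rule: after the access to `x` the counter of `x` is increased and `x` is rotated over its parent
again and again as long as the rotation strictly decreases the weighted path length of the tree.
-/

set_option autoImplicit false

namespace Pool.Agent.V11237.WPL

/-- Binary trees with a natural number key at every node. -/
inductive BT : Type
  | nil : BT
  | node : BT → ℕ → BT → BT

open BT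

/-- The list of the keys in symmetric order. -/
def keys : BT → List ℕ
  | nil => []
  | node L a R => keys L ++ a :: keys R

/-- `t` is a binary search tree on the key set `{1, ..., n}`: its symmetric order is `1, ..., n`. -/
def IsBST (n : ℕ) (t : BT) : Prop := keys t = List.range' 1 n

/-- The depth of the key `x`: the number of edges of the search path of `x`. -/
def depth (x : ℕ) : BT → ℕ
  | nil => 0
  | node L a R => if x < a then 1 + depth x L else if a < x then 1 + depth x R else 0

/-- Weighted path length: the sum over all keys `i` of `w i` times the number of nodes on the path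
from the root to `i`. -/
def wpl (w : ℕ → ℕ) (t : BT) : ℕ := ((keys t).map fun i => w i * (1 + depth i t)).sum

/-- The tree obtained by rotating `x` over its parent (no change if `x` is the root). -/
def rotUp (x : ℕ) : BT → BT
  | nil => nil
  | node L a R =>
    if x < a then
      match L with
      | nil => node nil a R
      | node A b B => if x = b then node A b (node B a R) else node (rotUp x (node A b B)) a R
    else if a < x then
      match R with
      | nil => node L a nil
      | node A b B => if x = b then node (node L a A) b B else node L a (rotUp x (node A b B))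
    else node L a R

/-- The climbing phase of the WPL rule with counters `w`: rotate `x` over its parent as long as `x`
is not the root and the rotation strictly decreases the weighted path length. The first argument
bounds the number of rotations. The result is the final tree and the number of rotations. -/
def climb (w : ℕ → ℕ) (x : ℕ) : ℕ → BT → BT × ℕ
  | 0, t => (t, 0)
  | k + 1, t =>
    if wpl w (rotUp x t) < wpl w t then
      ((climb w x k (rotUp x t)).1, (climb w x k (rotUp x t)).2 + 1)
    else (t, 0)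

/-- Cost of the WPL tree algorithm on the access sequence `σ`, started with the tree `t` and the
counters `w`: an access to `x` costs `1 + depth x t`, then the counter of `x` is increased by one,
then `x` climbs (at most `depth x t` rotations, each of cost one). -/
def wplCost (w : ℕ → ℕ) (t : BT) : List ℕ → ℕ
  | [] => 0
  | x :: σ =>
    (1 + depth x t) + (climb (Function.update w x (w x + 1)) x (depth x t) t).2 +
      wplCost (Function.update w x (w x + 1))
        (climb (Function.update w x (w x + 1)) x (depth x t) t).1 σ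

/-- The cost of the access sequence `σ` in the fixed tree `S`. -/
def staticCost (S : BT) (σ : List ℕ) : ℕ := (σ.map fun x => 1 + depth x S).sum

/-- The cost of `σ` in the best fixed binary search tree on `{1, ..., n}`. -/
noncomputable def optStatic (n : ℕ) (σ : List ℕ) : ℕ :=
  sInf {k : ℕ | ∃ S : BT, IsBST n S ∧ k = staticCost S σ}

/-- `Rotation t t'`: the tree `t'` arises from `t` by one single rotation. -/
inductive Rotation : BT → BT → Prop
  | right (A B C : BT) (a b : ℕ) : Rotation (node (node A b B) a C) (node A b (node B a C))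
  | left (A B C : BT) (a b : ℕ) : Rotation (node A b (node B a C)) (node (node A b B) a C)
  | inLeft (L L' R : BT) (a : ℕ) : Rotation L L' → Rotation (node L a R) (node L' a R)
  | inRight (L R R' : BT) (a : ℕ) : Rotation R R' → Rotation (node L a R) (node L a R')

/-- `Serves t σ k`: starting with the tree `t`, some offline execution serves the access sequence `σ`
at total cost `k`. An access to `x` costs `1 + depth x t`; at any time one may perform rotations,
each of cost one. -/
inductive Serves : BT → List ℕ → ℕ → Prop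
  | done (t : BT) : Serves t [] 0
  | access (t : BT) (x : ℕ) (σ : List ℕ) (k : ℕ) :
      Serves t σ k → Serves t (x :: σ) ((1 + depth x t) + k)
  | rotate (t t' : BT) (σ : List ℕ) (k : ℕ) :
      Rotation t t' → Serves t' σ k → Serves t σ (1 + k)

/-- The minimum total cost of serving `σ` from the initial tree `t`. -/
noncomputable def opt (t : BT) (σ : List ℕ) : ℕ := sInf {k : ℕ | Serves t σ k}

/-! ## Balanced trees -/

theorem exists_balanced (n : ℕ) : ∀ s : ℕ, ∃ t : BT, keys t = List.range' (s + 1) n ∧
    ∀ x, s < x → x ≤ s + n → depth x t ≤ Nat.log 2 n := by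
  induction n using Nat.strong_induction_on with
  | _ n ih =>
    intro s
    rcases Nat.eq_zero_or_pos n with rfl | hn
    · exact ⟨nil, by simp [keys], fun x h1 h2 => by omega⟩
    · obtain ⟨L, hL, hL'⟩ := ih ((n - 1) / 2) (by omega) s
      obtain ⟨R, hR, hR'⟩ := ih (n / 2) (by omega) (s + (n - 1) / 2 + 1)
      refine ⟨node L (s + (n - 1) / 2 + 1) R, ?_, ?_⟩
      · rw [keys, hL, hR]
        have h1 : n = (n - 1) / 2 + (n / 2 + 1) := by omega
        conv_rhs => rw [h1]
        rw [← List.range'_append_1 (s := s + 1) (m := (n - 1) / 2) (n := n / 2 + 1),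
          List.range'_succ]
        congr 2
        · omega
        · congr 1
          omega
      · intro x h1 h2
        rw [depth]
        have hlog : ∀ k, k ≤ n / 2 → 1 ≤ k → 1 + Nat.log 2 k ≤ Nat.log 2 n := by
          intro k hk hk1
          have : Nat.log 2 k ≤ Nat.log 2 (n / 2) := Nat.log_mono_right hk
          have h3 : Nat.log 2 (n / 2) = Nat.log 2 n - 1 := Nat.log_div_base 2 n
          have h4 : 1 ≤ Nat.log 2 n := Nat.log_pos (by norm_num) (by omega)
          omega
        split_ifs with h3 h4
        · have := hL' x h1 (by omega)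
          have := hlog ((n - 1) / 2) (by omega) (by omega)
          omega
        · have := hR' x (by omega) (by omega)
          have := hlog (n / 2) le_rfl (by omega)
          omega
        · omega

theorem optStatic_le {n : ℕ} {S : BT} (hS : IsBST n S) (σ : List ℕ) :
    optStatic n σ ≤ staticCost S σ :=
  Nat.sInf_le ⟨S, hS, rfl⟩

theorem staticCost_le {n D : ℕ} {S : BT} (hS : ∀ x, 0 < x → x ≤ n → depth x S ≤ D) :
    ∀ σ : List ℕ, (∀ x ∈ σ, 1 ≤ x ∧ x ≤ n) → staticCost S σ ≤ σ.length * (1 + D) := by
  intro σ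
  induction σ with
  | nil => intro _; simp [staticCost]
  | cons a σ ih =>
    intro h
    have h1 := ih fun x hx => h x (List.mem_cons_of_mem _ hx)
    have h2 := hS a (h a List.mem_cons_self).1 (h a List.mem_cons_self).2
    simp only [staticCost, List.map_cons, List.sum_cons, List.length_cons] at h1 ⊢
    nlinarith

/-! ## Rotations connect all trees with the same symmetric order -/

/-- Reachability by a given number of rotations. -/
inductive Reach : BT → BT → ℕ → Prop
  | refl (t : BT) : Reach t t 0
  | step (t t' t'' : BT) (k : ℕ) : Rotation t t' → Reach t' t'' k → Reach t t'' (1 + k)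

theorem Reach.trans {t t' t'' : BT} {k l : ℕ} (h : Reach t t' k) (h' : Reach t' t'' l) :
    Reach t t'' (k + l) := by
  induction h with
  | refl t => simpa using h'
  | step a b c k hr _ ih => rw [add_assoc]; exact Reach.step _ _ _ _ hr (ih h')

theorem Rotation.symm {t t' : BT} (h : Rotation t t') : Rotation t' t := by
  induction h with
  | right A B C a b => exact Rotation.left A B C a b
  | left A B C a b => exact Rotation.right A B C a b
  | inLeft L L' R a _ ih => exact Rotation.inLeft _ _ _ _ ih
  | inRight L R R' a _ ih => exact Rotation.inRight _ _ _ _ ih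

theorem Reach.symm {t t' : BT} {k : ℕ} (h : Reach t t' k) : Reach t' t k := by
  induction h with
  | refl t => exact Reach.refl t
  | step a b c k hr _ ih =>
    have := ih.trans (Reach.step _ _ _ _ hr.symm (Reach.refl a))
    rwa [Nat.add_comm 1 k]

theorem Reach.inLeft {L L' : BT} {k : ℕ} (h : Reach L L' k) (a : ℕ) (R : BT) :
    Reach (node L a R) (node L' a R) k := by
  induction h with
  | refl t => exact Reach.refl _
  | step t t' t'' k hr _ ih => exact Reach.step _ _ _ _ (Rotation.inLeft _ _ _ _ hr) ih

theorem Reach.inRight {R R' : BT} {k : ℕ} (h : Reach R R' k) (L : BT) (a : ℕ) :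
    Reach (node L a R) (node L a R') k := by
  induction h with
  | refl t => exact Reach.refl _
  | step t t' t'' k hr _ ih => exact Reach.step _ _ _ _ (Rotation.inRight _ _ _ _ hr) ih

/-- The right path with the given keys. -/
def spine : List ℕ → BT
  | [] => nil
  | a :: l => node nil a (spine l)

theorem reach_spine_aux (a : ℕ) (r : List ℕ) : ∀ l : List ℕ,
    ∃ k, Reach (node (spine l) a (spine r)) (spine (l ++ a :: r)) k := by
  intro l
  induction l with
  | nil => exact ⟨0, Reach.refl _⟩
  | cons b l ih =>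
    obtain ⟨k, hk⟩ := ih
    exact ⟨1 + k, Reach.step _ _ _ _ (Rotation.right nil (spine l) (spine r) a b) (hk.inRight nil b)⟩

theorem reach_spine (t : BT) : ∃ k, Reach t (spine (keys t)) k := by
  induction t with
  | nil => exact ⟨0, Reach.refl _⟩
  | node L a R ihL ihR =>
    obtain ⟨k, hk⟩ := ihL
    obtain ⟨l, hl⟩ := ihR
    obtain ⟨j, hj⟩ := reach_spine_aux a (keys R) (keys L)
    exact ⟨k + l + j, ((hk.inLeft a R).trans (hl.inRight _ a)).trans hj⟩

theorem reach_of_keys {t t' : BT} (h : keys t = keys t') : ∃ k, Reach t t' k := by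
  obtain ⟨k, hk⟩ := reach_spine t
  obtain ⟨l, hl⟩ := reach_spine t'
  rw [← h] at hl
  exact ⟨k + l, hk.trans hl.symm⟩

theorem serves_static (S : BT) : ∀ σ : List ℕ, Serves S σ (staticCost S σ) := by
  intro σ
  induction σ with
  | nil => exact Serves.done S
  | cons a σ ih => exact Serves.access S a σ _ ih

theorem serves_of_reach {t t' : BT} {k l : ℕ} {σ : List ℕ} (h : Reach t t' k)
    (hs : Serves t' σ l) : Serves t σ (k + l) := by
  induction h with
  | refl t => simpa using hs
  | step a b c k hr _ ih => rw [add_assoc]; exact Serves.rotate _ _ _ _ hr (ih hs)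

theorem opt_le {t S : BT} {k : ℕ} (h : Reach t S k) (σ : List ℕ) :
    opt t σ ≤ k + staticCost S σ :=
  Nat.sInf_le (serves_of_reach h (serves_static S σ))

/-! ## The caterpillar -/

/-- The caterpillar with `2 m + 1` keys `s + 1, ..., s + 2 m + 1`: the even ones of them form a right
path and each of the others is a leaf. -/
def cat (s : ℕ) : ℕ → BT
  | 0 => node nil (s + 1) nil
  | m + 1 => node (node nil (s + 1) nil) (s + 2) (cat (s + 2) m)

theorem cat_zero (s : ℕ) : cat s 0 = node nil (s + 1) nil := rfl

theorem cat_succ (s m : ℕ) :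
    cat s (m + 1) = node (node nil (s + 1) nil) (s + 2) (cat (s + 2) m) := rfl

theorem rotUp_node (x : ℕ) (L R : BT) (a : ℕ) : rotUp x (node L a R) =
    if x < a then
      match L with
      | nil => node nil a R
      | node A b B => if x = b then node A b (node B a R) else node (rotUp x (node A b B)) a R
    else if a < x then
      match R with
      | nil => node L a nil
      | node A b B => if x = b then node (node L a A) b B else node L a (rotUp x (node A b B))
    else node L a R := by
  rw [rotUp.eq_def]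

theorem keys_cat (m : ℕ) : ∀ s, keys (cat s m) = List.range' (s + 1) (2 * m + 1) := by
  induction m with
  | zero => intro s; simp [cat, keys]
  | succ m ih =>
    intro s
    rw [cat_succ, keys, keys, ih (s + 2)]
    have : 2 * (m + 1) + 1 = (2 * m + 1) + 1 + 1 := by ring
    rw [this, List.range'_succ (s := s + 1), List.range'_succ (s := s + 1 + 1)]
    rfl

theorem mem_keys_cat {s m i : ℕ} : i ∈ keys (cat s m) ↔ s < i ∧ i ≤ s + 2 * m + 1 := by
  rw [keys_cat, List.mem_range'_1]
  omega

/-- Total weight of a tree. -/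
def W (w : ℕ → ℕ) (t : BT) : ℕ := ((keys t).map w).sum

theorem wpl_node {w : ℕ → ℕ} {L R : BT} {a : ℕ} (hL : ∀ i ∈ keys L, i < a)
    (hR : ∀ i ∈ keys R, a < i) :
    wpl w (node L a R) = (W w L + wpl w L) + w a + (W w R + wpl w R) := by
  have e1 : ((keys L).map fun i => w i * (1 + depth i (node L a R))).sum = W w L + wpl w L := by
    rw [W, wpl, ← List.sum_map_add]
    congr 1
    refine List.map_congr_left fun i hi => ?_
    rw [depth, if_pos (hL i hi)]
    ring
  have e2 : ((keys R).map fun i => w i * (1 + depth i (node L a R))).sum = W w R + wpl w R := by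
    rw [W, wpl, ← List.sum_map_add]
    congr 1
    refine List.map_congr_left fun i hi => ?_
    rw [depth, if_neg (by have := hR i hi; omega), if_pos (hR i hi)]
    ring
  rw [wpl, keys, List.map_append, List.sum_append, List.map_cons, List.sum_cons, e1, e2]
  have : depth a (node L a R) = 0 := by simp [depth]
  rw [this]
  ring

theorem keys_rotUp (x : ℕ) (t : BT) : keys (rotUp x t) = keys t := by
  induction t with
  | nil => rfl
  | node L a R ihL ihR =>
    rw [rotUp_node]
    split_ifs with h1 h2
    · cases L with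
      | nil => rfl
      | node A b B =>
        dsimp only
        split_ifs with h3
        · simp [keys]
        · simp only [keys] at ihL ⊢
          rw [ihL]
    · cases R with
      | nil => rfl
      | node A b B =>
        dsimp only
        split_ifs with h3
        · simp [keys]
        · simp only [keys] at ihR ⊢
          rw [ihR]
    · rfl

theorem W_rotUp (w : ℕ → ℕ) (x : ℕ) (t : BT) : W w (rotUp x t) = W w t := by
  rw [W, W, keys_rotUp]

theorem rotUp_right {x a : ℕ} {L A B : BT} {b : ℕ} (h : a < x) (h' : x ≠ b) :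
    rotUp x (node L a (node A b B)) = node L a (rotUp x (node A b B)) := by
  rw [rotUp_node, if_neg (by omega), if_pos h]
  simp [h']

theorem wpl_leaf (w : ℕ → ℕ) (a : ℕ) : wpl w (node nil a nil) = w a := by
  simp [wpl, keys, depth]

theorem W_leaf (w : ℕ → ℕ) (a : ℕ) : W w (node nil a nil) = w a := by
  simp [W, keys]

theorem wpl_nil (w : ℕ → ℕ) : wpl w nil = 0 := by simp [wpl, keys]

theorem W_nil (w : ℕ → ℕ) : W w nil = 0 := by simp [W, keys]

theorem W_node (w : ℕ → ℕ) (L R : BT) (a : ℕ) : W w (node L a R) = W w L + w a + W w R := by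
  simp [W, keys, add_assoc]

theorem wpl_cat_succ (w : ℕ → ℕ) (s _m : ℕ) (R : BT) (hR : ∀ i ∈ keys R, s + 2 < i) :
    wpl w (node (node nil (s + 1) nil) (s + 2) R) =
      2 * w (s + 1) + w (s + 2) + (W w R + wpl w R) := by
  rw [wpl_node (by intro i hi; simp [keys] at hi; omega) hR, wpl_leaf, W_leaf]
  ring

/-- Rotating a left leaf of the caterpillar. -/
theorem wpl_rot_leaf (w : ℕ → ℕ) : ∀ i s m : ℕ, i < m →
    wpl w (rotUp (s + 2 * i + 1) (cat s m)) + w (s + 2 * i + 1) =
      wpl w (cat s m) + w (s + 2 * i + 2) + W w (cat (s + 2 * i + 2) (m - i - 1)) := by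
  intro i
  induction i with
  | zero =>
    intro s m hm
    obtain ⟨m, rfl⟩ : ∃ k, m = k + 1 := ⟨m - 1, by omega⟩
    have h1 : rotUp (s + 2 * 0 + 1) (cat s (m + 1)) =
        node nil (s + 1) (node nil (s + 2) (cat (s + 2) m)) := by
      rw [cat_succ, rotUp_node]
      simp
    have hk : ∀ i ∈ keys (cat (s + 2) m), s + 2 < i := fun i hi => (mem_keys_cat.1 hi).1
    rw [h1, cat_succ, wpl_cat_succ w s m _ hk,
      wpl_node (by simp [keys])
        (by
          intro i hi
          simp only [keys, List.nil_append, List.mem_cons] at hi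
          rcases hi with rfl | hi
          · omega
          · have := hk i hi; omega),
      wpl_node (by simp [keys]) hk, W_node, wpl_nil, W_nil]
    simp only [Nat.mul_zero, Nat.add_zero, Nat.sub_zero, Nat.add_sub_cancel]
    ring
  | succ i ih =>
    intro s m hm
    obtain ⟨m, rfl⟩ : ∃ k, m = k + 1 := ⟨m - 1, by omega⟩
    have hm' : i < m := by omega
    have := ih (s + 2) m hm'
    obtain ⟨m', rfl⟩ : ∃ k, m = k + 1 := ⟨m - 1, by omega⟩
    have e : s + 2 * (i + 1) + 1 = s + 2 + 2 * i + 1 := by ring
    have e' : s + 2 * (i + 1) + 2 = s + 2 + 2 * i + 2 := by ring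
    have h1 : rotUp (s + 2 + 2 * i + 1) (cat s (m' + 1 + 1)) =
        node (node nil (s + 1) nil) (s + 2) (rotUp (s + 2 + 2 * i + 1) (cat (s + 2) (m' + 1))) := by
      rw [cat_succ s, cat_succ (s + 2), rotUp_right (by omega) (by omega)]
    have e'' : m' + 1 + 1 - (i + 1) - 1 = m' + 1 - i - 1 := by omega
    rw [e, e', h1, e'', wpl_cat_succ w s m' _ (by rw [keys_rotUp]; exact fun i hi => (mem_keys_cat.1 hi).1)]
    rw [cat_succ s, wpl_cat_succ w s m' _ (fun i hi => (mem_keys_cat.1 hi).1), W_rotUp]
    omega

/-- Rotating a spine node of the caterpillar. -/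
theorem wpl_rot_spine (w : ℕ → ℕ) : ∀ i s m : ℕ, i + 1 < m →
    wpl w (rotUp (s + 2 * i + 4) (cat s m)) +
        (w (s + 2 * i + 4) + W w (cat (s + 2 * i + 4) (m - i - 2))) =
      wpl w (cat s m) + w (s + 2 * i + 2) + w (s + 2 * i + 1) := by
  intro i
  induction i with
  | zero =>
    intro s m hm
    obtain ⟨m, rfl⟩ : ∃ k, m = k + 2 := ⟨m - 2, by omega⟩
    have hk : ∀ i ∈ keys (cat (s + 2 + 2) m), s + 2 + 2 < i := fun i hi => (mem_keys_cat.1 hi).1
    have h1 : rotUp (s + 2 * 0 + 4) (cat s (m + 2)) =
        node (node (node nil (s + 1) nil) (s + 2) (node nil (s + 2 + 1) nil)) (s + 2 + 2)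
          (cat (s + 2 + 2) m) := by
      rw [cat_succ, cat_succ, rotUp_node, if_neg (by omega), if_pos (by omega)]
      simp
    rw [h1]
    have h2 : cat s (m + 2) = node (node nil (s + 1) nil) (s + 2)
        (node (node nil (s + 2 + 1) nil) (s + 2 + 2) (cat (s + 2 + 2) m)) := by
      rw [cat, cat]
    rw [h2, wpl_cat_succ w s m _ (by
        intro i hi
        simp only [keys, List.nil_append, List.mem_append, List.mem_cons, List.not_mem_nil,
          or_false] at hi
        rcases hi with rfl | rfl | hi
        · omega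
        · omega
        · have := hk i hi; omega),
      wpl_cat_succ w (s + 2) m _ hk,
      wpl_node (by
        intro i hi
        simp only [keys, List.nil_append, List.mem_append, List.mem_cons, List.not_mem_nil,
          or_false] at hi
        rcases hi with rfl | rfl | hi <;> omega) hk,
      wpl_cat_succ w s m _ (by simp [keys])]
    simp only [W_node, W_nil, wpl_leaf]
    have e1 : m + 2 - 0 - 2 = m := by omega
    have e2 : s + 2 * 0 + 4 = s + 2 + 2 := by ring
    have e3 : s + 2 * 0 + 2 = s + 2 := by ring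
    have e4 : s + 2 * 0 + 1 = s + 1 := by ring
    rw [e1, e2, e3, e4]
    ring
  | succ i ih =>
    intro s m hm
    obtain ⟨m, rfl⟩ : ∃ k, m = k + 1 := ⟨m - 1, by omega⟩
    have hm' : i + 1 < m := by omega
    have := ih (s + 2) m hm'
    obtain ⟨m', rfl⟩ : ∃ k, m = k + 1 := ⟨m - 1, by omega⟩
    have e : s + 2 * (i + 1) + 4 = s + 2 + 2 * i + 4 := by ring
    have e' : s + 2 * (i + 1) + 2 = s + 2 + 2 * i + 2 := by ring
    have e3 : s + 2 * (i + 1) + 1 = s + 2 + 2 * i + 1 := by ring
    have h1 : rotUp (s + 2 + 2 * i + 4) (cat s (m' + 1 + 1)) =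
        node (node nil (s + 1) nil) (s + 2) (rotUp (s + 2 + 2 * i + 4) (cat (s + 2) (m' + 1))) := by
      rw [cat_succ s, cat_succ (s + 2), rotUp_right (by omega) (by omega)]
    have e'' : m' + 1 + 1 - (i + 1) - 2 = m' + 1 - i - 2 := by omega
    rw [e, e', e3, h1, e'',
      wpl_cat_succ w s m' _ (by rw [keys_rotUp]; exact fun i hi => (mem_keys_cat.1 hi).1)]
    rw [cat_succ s, wpl_cat_succ w s m' _ (fun i hi => (mem_keys_cat.1 hi).1), W_rotUp]
    omega

/-- Rotating the last leaf of the caterpillar. -/
theorem wpl_rot_last (w : ℕ → ℕ) : ∀ m s : ℕ,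
    wpl w (rotUp (s + 2 * m + 3) (cat s (m + 1))) + w (s + 2 * m + 3) =
      wpl w (cat s (m + 1)) + w (s + 2 * m + 2) + w (s + 2 * m + 1) := by
  intro m
  induction m with
  | zero =>
    intro s
    have h1 : rotUp (s + 2 * 0 + 3) (cat s (0 + 1)) =
        node (node (node nil (s + 1) nil) (s + 2) nil) (s + 2 + 1) nil := by
      rw [cat_succ, cat_zero, rotUp_node, if_neg (by omega), if_pos (by omega)]
      simp
    have h2 : cat s (0 + 1) = node (node nil (s + 1) nil) (s + 2) (node nil (s + 2 + 1) nil) := by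
      rw [cat, cat]
    rw [h1, h2, wpl_cat_succ w s 0 _ (by simp [keys]),
      wpl_node (by simp [keys]) (by simp [keys]), wpl_cat_succ w s 0 _ (by simp [keys])]
    simp only [W_node, W_nil, wpl_leaf, wpl_nil]
    have e2 : s + 2 * 0 + 3 = s + 2 + 1 := by ring
    have e3 : s + 2 * 0 + 2 = s + 2 := by ring
    have e4 : s + 2 * 0 + 1 = s + 1 := by ring
    rw [e2, e3, e4]
    ring
  | succ m ih =>
    intro s
    have := ih (s + 2)
    have e : s + 2 * (m + 1) + 3 = s + 2 + 2 * m + 3 := by ring
    have e' : s + 2 * (m + 1) + 2 = s + 2 + 2 * m + 2 := by ring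
    have e3 : s + 2 * (m + 1) + 1 = s + 2 + 2 * m + 1 := by ring
    have h1 : rotUp (s + 2 + 2 * m + 3) (cat s (m + 1 + 1)) =
        node (node nil (s + 1) nil) (s + 2) (rotUp (s + 2 + 2 * m + 3) (cat (s + 2) (m + 1))) := by
      rw [cat_succ s, cat_succ (s + 2), rotUp_right (by omega) (by omega)]
    rw [e, e', e3, h1,
      wpl_cat_succ w s m _ (by rw [keys_rotUp]; exact fun i hi => (mem_keys_cat.1 hi).1)]
    rw [cat_succ s, wpl_cat_succ w s m _ (fun i hi => (mem_keys_cat.1 hi).1), W_rotUp]
    omega

theorem climb_stop {w : ℕ → ℕ} {x : ℕ} {t : BT} (h : ¬ wpl w (rotUp x t) < wpl w t) (k : ℕ) :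
    climb w x k t = (t, 0) := by
  cases k with
  | zero => rfl
  | succ k => rw [climb, if_neg h]

theorem depth_cat : ∀ i s m : ℕ, i ≤ m → i ≤ depth (s + 2 * i + 1) (cat s m) := by
  intro i
  induction i with
  | zero => intro s m _; omega
  | succ i ih =>
    intro s m hm
    obtain ⟨m, rfl⟩ : ∃ k, m = k + 1 := ⟨m - 1, by omega⟩
    have := ih (s + 2) m (by omega)
    rw [cat, depth, if_neg (by omega), if_pos (by omega)]
    have e3 : s + 2 * (i + 1) + 1 = s + 2 + 2 * i + 1 := by ring
    rw [e3]
    omega

/-- The keys `2 j + 2, 2 j + 4, ...` (`k` of them). -/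
def evens (j : ℕ) : ℕ → List ℕ
  | 0 => []
  | k + 1 => (2 * j + 2) :: evens (j + 1) k

/-- The keys `2 j - 1, 2 j - 3, ..., 1`. -/
def desc : ℕ → List ℕ
  | 0 => []
  | j + 1 => (2 * j + 1) :: desc j

/-- `N` rounds through the leaves. -/
def rounds (m : ℕ) : ℕ → List ℕ
  | 0 => []
  | N + 1 => desc (m + 1) ++ rounds m N

/-- Counters during the first phase. -/
def wA (j : ℕ) : ℕ → ℕ := fun i => if i % 2 = 0 ∧ 2 ≤ i ∧ i ≤ 2 * j then 1 else 0

/-- Counters during round `r`. -/
def wB (m r j : ℕ) : ℕ → ℕ := fun i =>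
  if i % 2 = 0 then (if 2 ≤ i ∧ i ≤ 2 * m then 1 else 0)
  else if i ≤ 2 * m + 1 then (if 2 * j + 1 ≤ i then r + 1 else r) else 0

theorem wA_succ (j : ℕ) : Function.update (wA j) (2 * j + 2) (wA j (2 * j + 2) + 1) = wA (j + 1) := by
  funext i
  rcases eq_or_ne i (2 * j + 2) with rfl | h
  · rw [Function.update_self]
    simp only [wA]
    rw [if_neg (by omega), if_pos (by omega)]
  · rw [Function.update_of_ne h]
    simp only [wA]
    congr 1
    apply propext
    omega

theorem wA_zero : wA 0 = fun _ => 0 := by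
  funext i
  simp only [wA]
  rw [if_neg (by omega)]

theorem wA_eq_wB (m : ℕ) : wA m = wB m 0 (m + 1) := by
  funext i
  simp only [wA, wB]
  by_cases h : i % 2 = 0
  · simp only [h, if_true, true_and]
  · rw [if_neg (by tauto), if_neg h]
    split_ifs <;> first | rfl | omega

theorem wB_round (m r : ℕ) : wB m r 0 = wB m (r + 1) (m + 1) := by
  funext i
  simp only [wB]
  by_cases h : i % 2 = 0
  · simp only [h, if_true]
  · rw [if_neg h, if_neg h]
    split_ifs <;> first | rfl | omega

theorem wB_succ (m r j : ℕ) (hj : j ≤ m) :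
    Function.update (wB m r (j + 1)) (2 * j + 1) (wB m r (j + 1) (2 * j + 1) + 1) = wB m r j := by
  funext i
  rcases eq_or_ne i (2 * j + 1) with rfl | h
  · rw [Function.update_self]
    simp only [wB]
    rw [if_neg (by omega), if_pos (by omega), if_neg (by omega), if_neg (by omega),
      if_pos (by omega), if_pos (by omega)]
  · rw [Function.update_of_ne h]
    simp only [wB]
    by_cases h2 : i % 2 = 0
    · simp only [h2, if_true]
    · rw [if_neg h2, if_neg h2]
      split_ifs <;> first | rfl | omega

theorem cost_phase1 (m : ℕ) (rest : List ℕ) : ∀ k j, j + k = m →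
    wplCost (wA m) (cat 0 m) rest ≤ wplCost (wA j) (cat 0 m) (evens j k ++ rest) := by
  intro k
  induction k with
  | zero =>
    intro j hj
    obtain rfl : j = m := by omega
    simp [evens]
  | succ k ih =>
    intro j hj
    refine (ih (j + 1) (by omega)).trans ?_
    rw [evens, List.cons_append, wplCost, wA_succ]
    have hstop : climb (wA (j + 1)) (2 * j + 2) (depth (2 * j + 2) (cat 0 m)) (cat 0 m) =
        (cat 0 m, 0) := by
      rcases Nat.eq_zero_or_pos j with rfl | hj0
      · obtain ⟨m', rfl⟩ : ∃ k, m = k + 1 := ⟨m - 1, by omega⟩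
        have : depth (2 * 0 + 2) (cat 0 (m' + 1)) = 0 := by rw [cat, depth]; simp
        rw [this, climb]
      · refine climb_stop ?_ _
        obtain ⟨i, rfl⟩ : ∃ i, j = i + 1 := ⟨j - 1, by omega⟩
        have h := wpl_rot_spine (wA (i + 1 + 1)) i 0 m (by omega)
        have e1 : 0 + 2 * i + 4 = 2 * (i + 1) + 2 := by ring
        have e2 : 0 + 2 * i + 2 = 2 * (i + 1) := by ring
        rw [e1, e2] at h
        have h1 : wA (i + 1 + 1) (2 * (i + 1) + 2) = 1 := by
          simp only [wA]; rw [if_pos (by omega)]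
        have h2 : wA (i + 1 + 1) (2 * (i + 1)) = 1 := by
          simp only [wA]; rw [if_pos (by omega)]
        have h3 : W (wA (i + 1 + 1)) (cat (2 * (i + 1) + 2) (m - i - 2)) = 0 := by
          rw [W, List.sum_eq_zero]
          intro x hx
          obtain ⟨y, hy, rfl⟩ := List.mem_map.1 hx
          have := (mem_keys_cat.1 hy).1
          simp only [wA]; rw [if_neg (by omega)]
        rw [h1, h2, h3] at h
        omega
    rw [hstop]
    exact Nat.le_add_left _ _

theorem cost_round (m r : ℕ) (hm : 1 ≤ m) (rest : List ℕ) : ∀ j, j ≤ m + 1 →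
    wplCost (wB m r 0) (cat 0 m) rest + j * (j + 1) / 2 ≤
      wplCost (wB m r j) (cat 0 m) (desc j ++ rest) := by
  intro j
  induction j with
  | zero => intro _; simp [desc]
  | succ j ih =>
    intro hj
    have h1 := ih (by omega)
    rw [desc, List.cons_append, wplCost, wB_succ m r j (by omega)]
    have hstop : climb (wB m r j) (2 * j + 1) (depth (2 * j + 1) (cat 0 m)) (cat 0 m) =
        (cat 0 m, 0) := by
      refine climb_stop ?_ _
      rcases Nat.lt_or_ge j m with hjm | hjm
      · have h := wpl_rot_leaf (wB m r j) j 0 m hjm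
        have e1 : 0 + 2 * j + 1 = 2 * j + 1 := by ring
        have e2 : 0 + 2 * j + 2 = 2 * j + 2 := by ring
        rw [e1, e2] at h
        have h2 : wB m r j (2 * j + 1) = r + 1 := by
          simp only [wB]
          rw [if_neg (by omega), if_pos (by omega), if_pos (by omega)]
        have h3 : r + 1 ≤ W (wB m r j) (cat (2 * j + 2) (m - j - 1)) := by
          have hmem : 2 * j + 3 ∈ keys (cat (2 * j + 2) (m - j - 1)) := by
            rw [mem_keys_cat]; omega
          have h4 : wB m r j (2 * j + 3) = r + 1 := by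
            simp only [wB]
            rw [if_neg (by omega), if_pos (by omega), if_pos (by omega)]
          rw [← h4]
          exact List.single_le_sum (by simp) _ (List.mem_map_of_mem hmem)
        omega
      · obtain rfl : j = m := by omega
        obtain ⟨k, rfl⟩ : ∃ k, j = k + 1 := ⟨j - 1, by omega⟩
        have h := wpl_rot_last (wB (k + 1) r (k + 1)) k 0
        have e1 : 0 + 2 * k + 3 = 2 * (k + 1) + 1 := by ring
        have e2 : 0 + 2 * k + 2 = 2 * (k + 1) := by ring
        have e3 : 0 + 2 * k + 1 = 2 * k + 1 := by ring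
        rw [e1, e2, e3] at h
        have h2 : wB (k + 1) r (k + 1) (2 * (k + 1) + 1) = r + 1 := by
          simp only [wB]
          rw [if_neg (by omega), if_pos (by omega), if_pos (by omega)]
        have h3 : wB (k + 1) r (k + 1) (2 * (k + 1)) = 1 := by
          simp only [wB]
          rw [if_pos (by omega), if_pos (by omega)]
        have h4 : wB (k + 1) r (k + 1) (2 * k + 1) = r := by
          simp only [wB]
          rw [if_neg (by omega), if_pos (by omega), if_neg (by omega)]
        omega
    rw [hstop]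
    have hd := depth_cat j 0 m (by omega)
    have e1 : 0 + 2 * j + 1 = 2 * j + 1 := by ring
    rw [e1] at hd
    have e2 : (j + 1) * (j + 1 + 1) / 2 = j * (j + 1) / 2 + (j + 1) := by
      have : (j + 1) * (j + 1 + 1) = j * (j + 1) + (j + 1) * 2 := by ring
      rw [this, Nat.add_mul_div_right _ _ (by norm_num)]
    rw [e2]
    dsimp only
    omega

theorem cost_rounds (m : ℕ) (hm : 1 ≤ m) : ∀ N r : ℕ,
    N * ((m + 1) * (m + 2) / 2) ≤ wplCost (wB m r (m + 1)) (cat 0 m) (rounds m N) := by
  intro N
  induction N with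
  | zero => intro r; simp
  | succ N ih =>
    intro r
    have h1 := cost_round m r hm (rounds m N) (m + 1) le_rfl
    have h2 := ih (r + 1)
    rw [← wB_round] at h2
    rw [rounds]
    have h3 : (m + 1) * (m + 1 + 1) / 2 = (m + 1) * (m + 2) / 2 := rfl
    rw [h3] at h1
    have : (N + 1) * ((m + 1) * (m + 2) / 2) = N * ((m + 1) * (m + 2) / 2) + (m + 1) * (m + 2) / 2 := by
      ring
    omega

/-- The access sequence. -/
def seq (m N : ℕ) : List ℕ := evens 0 m ++ rounds m N

theorem cost_seq (m N : ℕ) (hm : 1 ≤ m) :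
    N * ((m + 1) * (m + 2) / 2) ≤ wplCost (fun _ => 0) (cat 0 m) (seq m N) := by
  rw [← wA_zero]
  refine le_trans ?_ (cost_phase1 m (rounds m N) m 0 (by omega))
  rw [wA_eq_wB]
  exact cost_rounds m hm N 0

theorem evens_bound (m : ℕ) : ∀ k j, j + k = m → ∀ x ∈ evens j k, 1 ≤ x ∧ x ≤ 2 * m + 1 := by
  intro k
  induction k with
  | zero => intro j _ x hx; simp [evens] at hx
  | succ k ih =>
    intro j hj x hx
    rw [evens, List.mem_cons] at hx
    rcases hx with rfl | hx
    · omega
    · exact ih (j + 1) (by omega) x hx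

theorem desc_bound (m : ℕ) : ∀ j, j ≤ m + 1 → ∀ x ∈ desc j, 1 ≤ x ∧ x ≤ 2 * m + 1 := by
  intro j
  induction j with
  | zero => intro _ x hx; simp [desc] at hx
  | succ j ih =>
    intro hj x hx
    rw [desc, List.mem_cons] at hx
    rcases hx with rfl | hx
    · omega
    · exact ih (by omega) x hx

theorem rounds_bound (m : ℕ) : ∀ N, ∀ x ∈ rounds m N, 1 ≤ x ∧ x ≤ 2 * m + 1 := by
  intro N
  induction N with
  | zero => intro x hx; simp [rounds] at hx
  | succ N ih =>
    intro x hx
    rw [rounds, List.mem_append] at hx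
    rcases hx with hx | hx
    · exact desc_bound m _ le_rfl x hx
    · exact ih x hx

theorem seq_bound (m N : ℕ) : ∀ x ∈ seq m N, 1 ≤ x ∧ x ≤ 2 * m + 1 := by
  intro x hx
  rw [seq, List.mem_append] at hx
  rcases hx with hx | hx
  · exact evens_bound m m 0 (by omega) x hx
  · exact rounds_bound m N x hx

theorem length_evens : ∀ k j, (evens j k).length = k := by
  intro k
  induction k with
  | zero => intro j; rfl
  | succ k ih => intro j; rw [evens, List.length_cons, ih]

theorem length_desc : ∀ j, (desc j).length = j := by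
  intro j
  induction j with
  | zero => rfl
  | succ j ih => rw [desc, List.length_cons, ih]

theorem length_rounds (m : ℕ) : ∀ N, (rounds m N).length = N * (m + 1) := by
  intro N
  induction N with
  | zero => simp [rounds]
  | succ N ih => rw [rounds, List.length_append, ih, length_desc]; ring

theorem length_seq (m N : ℕ) : (seq m N).length = m + N * (m + 1) := by
  rw [seq, List.length_append, length_evens, length_rounds]

theorem final_arith (m R : ℕ) (hm : 1 ≤ m) (a : ℝ) : ∃ N : ℕ, ∀ O C : ℕ,
    O ≤ R + (m + N * (m + 1)) * (1 + Nat.log 2 (2 * m + 1)) →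
    N * ((m + 1) * (m + 2) / 2) ≤ C →
    ((2 * m + 1 : ℕ) : ℝ) / (4 * (1 + Nat.log 2 (2 * m + 1) : ℕ)) * O + a < C := by
  obtain ⟨N, hN⟩ := exists_nat_gt (((2 * m + 1 : ℕ) : ℝ) * (R + m) + |a|)
  refine ⟨N, fun O C hO hC => ?_⟩
  set L := Nat.log 2 (2 * m + 1) with hL
  have hLpos : (0 : ℝ) < ((1 + L : ℕ) : ℝ) := by positivity
  have h2 : 2 * ((m + 1) * (m + 2) / 2) = (m + 1) * (m + 2) := by
    have : 2 ∣ (m + 1) * (m + 2) := (Nat.even_mul_succ_self (m + 1)).two_dvd
    omega
  have hC' : (N : ℝ) * ((m + 1) * (m + 2)) ≤ 2 * C := by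
    have : N * ((m + 1) * (m + 2)) ≤ 2 * C := by rw [← h2]; nlinarith
    exact_mod_cast this
  have hO' : (O : ℝ) ≤ R + (m + N * (m + 1)) * ((1 + L : ℕ) : ℝ) := by exact_mod_cast hO
  have h3 : ((2 * m + 1 : ℕ) : ℝ) / (4 * ((1 + L : ℕ) : ℝ)) * O ≤
      (2 * m + 1) / 4 * (R + (m + N * (m + 1))) := by
    have h4 : (O : ℝ) ≤ (R + (m + N * (m + 1))) * ((1 + L : ℕ) : ℝ) := by
      have : (R : ℝ) ≤ R * ((1 + L : ℕ) : ℝ) := by
        have h1 : (1 : ℝ) ≤ ((1 + L : ℕ) : ℝ) := by push_cast; linarith [Nat.cast_nonneg (α := ℝ) L]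
        nlinarith [Nat.cast_nonneg (α := ℝ) R]
      linarith
    rw [div_mul_eq_mul_div, div_le_iff₀ (by positivity)]
    push_cast at h4 ⊢
    nlinarith [Nat.cast_nonneg (α := ℝ) m]
  have h5 : (1 : ℝ) ≤ m := by exact_mod_cast hm
  have h6 : a ≤ |a| := le_abs_self a
  push_cast at hN h3 ⊢
  have h7 : (0 : ℝ) ≤ N := Nat.cast_nonneg N
  have h8 : (0 : ℝ) ≤ R := Nat.cast_nonneg R
  have h9 : (0 : ℝ) ≤ |a| := abs_nonneg a
  refine lt_of_le_of_lt (add_le_add h3 h6) ?_
  nlinarith

theorem static_main (m : ℕ) (hm : 1 ≤ m) (a : ℝ) : ∃ σ : List ℕ,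
    (∀ x ∈ σ, 1 ≤ x ∧ x ≤ 2 * m + 1) ∧
    ((2 * m + 1 : ℕ) : ℝ) / (4 * (1 + Nat.log 2 (2 * m + 1) : ℕ)) * optStatic (2 * m + 1) σ + a <
      wplCost (fun _ => 0) (cat 0 m) σ := by
  obtain ⟨N, hN⟩ := final_arith m 0 hm a
  refine ⟨seq m N, seq_bound m N, hN _ _ ?_ (cost_seq m N hm)⟩
  obtain ⟨S, hS, hS'⟩ := exists_balanced (2 * m + 1) 0
  refine (optStatic_le (S := S) (by rw [IsBST, hS]) _).trans ?_
  have := staticCost_le (n := 2 * m + 1) (fun x h1 h2 => hS' x h1 (by omega)) (seq m N)
    (seq_bound m N)
  rw [length_seq] at this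
  omega

theorem dynamic_main (m : ℕ) (hm : 1 ≤ m) (a : ℝ) : ∃ σ : List ℕ,
    (∀ x ∈ σ, 1 ≤ x ∧ x ≤ 2 * m + 1) ∧
    ((2 * m + 1 : ℕ) : ℝ) / (4 * (1 + Nat.log 2 (2 * m + 1) : ℕ)) * opt (cat 0 m) σ + a <
      wplCost (fun _ => 0) (cat 0 m) σ := by
  obtain ⟨S, hS, hS'⟩ := exists_balanced (2 * m + 1) 0
  obtain ⟨R, hR⟩ := reach_of_keys (t := cat 0 m) (t' := S) (by rw [hS, keys_cat])
  obtain ⟨N, hN⟩ := final_arith m R hm a
  refine ⟨seq m N, seq_bound m N, hN _ _ ?_ (cost_seq m N hm)⟩
  refine (opt_le hR _).trans ?_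
  have := staticCost_le (n := 2 * m + 1) (fun x h1 h2 => hS' x h1 (by omega)) (seq m N)
    (seq_bound m N)
  rw [length_seq] at this
  omega

theorem isBST_cat (m : ℕ) : IsBST (2 * m + 1) (cat 0 m) := by
  rw [IsBST, keys_cat]

/-- `n / (4 (1 + log n))` beats every multiple of `(log n)^2` and of `1`. -/
theorem ratio_large (C : ℝ) : ∃ m : ℕ, 1 ≤ m ∧
    C * (1 + Real.log (2 * m + 1 : ℕ)) ≤
      ((2 * m + 1 : ℕ) : ℝ) / (4 * (1 + Nat.log 2 (2 * m + 1) : ℕ)) := by
  have hlim : Filter.Tendsto (fun n : ℕ => (1 + Real.log (n : ℝ)) ^ 2 / (n : ℝ))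
      Filter.atTop (nhds 0) := by
    have h1 : Filter.Tendsto (fun x : ℝ => (1 + Real.log x) ^ 2 / x) Filter.atTop (nhds 0) := by
      have e : (fun x : ℝ => (1 + Real.log x) ^ 2 / x) =
          fun x : ℝ => x⁻¹ + 2 * (Real.log x ^ 1 / x) + Real.log x ^ 2 / x := by
        funext x
        ring
      rw [e]
      have a1 : Filter.Tendsto (fun x : ℝ => x⁻¹) Filter.atTop (nhds 0) := tendsto_inv_atTop_zero
      have a2 : Filter.Tendsto (fun x : ℝ => Real.log x ^ 1 / x) Filter.atTop (nhds 0) := by
        have := Real.tendsto_pow_log_div_mul_add_atTop 1 0 1 one_ne_zero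
        simpa using this
      have a3 : Filter.Tendsto (fun x : ℝ => Real.log x ^ 2 / x) Filter.atTop (nhds 0) := by
        have := Real.tendsto_pow_log_div_mul_add_atTop 1 0 2 one_ne_zero
        simpa using this
      simpa using (a1.add (a2.const_mul 2)).add a3
    exact h1.comp tendsto_natCast_atTop_atTop
  have hC : (0 : ℝ) < 1 / (8 * (|C| + 1)) := by positivity
  have hev := (hlim.eventually (gt_mem_nhds hC)).and (Filter.eventually_ge_atTop 3)
  obtain ⟨n0, hn0⟩ := Filter.eventually_atTop.1 hev
  refine ⟨n0 + 1, by omega, ?_⟩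
  obtain ⟨h1, h2⟩ := hn0 (2 * (n0 + 1) + 1) (by omega)
  set n := 2 * (n0 + 1) + 1 with hn
  have hnpos : (0 : ℝ) < n := by exact_mod_cast (by omega : 0 < n)
  have hlogpos : 0 < Real.log n := Real.log_pos (by exact_mod_cast (by omega : 1 < n))
  have hlog2 : (Nat.log 2 n : ℝ) ≤ 2 * Real.log n := by
    have h3 : (2 : ℝ) ^ (Nat.log 2 n) ≤ n := by exact_mod_cast Nat.pow_log_le_self 2 (by omega)
    have h4 := Real.log_le_log (by positivity) h3
    rw [Real.log_pow] at h4
    have h5 : (0.5 : ℝ) < Real.log 2 := by have := Real.log_two_gt_d9; linarith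
    nlinarith [Nat.cast_nonneg (α := ℝ) (Nat.log 2 n)]
  have hL : ((1 + Nat.log 2 n : ℕ) : ℝ) ≤ 2 * (1 + Real.log n) := by
    push_cast
    linarith
  have hLpos : (0 : ℝ) < ((1 + Nat.log 2 n : ℕ) : ℝ) := by positivity
  have e1 : C * (1 + Real.log n) ≤ (|C| + 1) * (1 + Real.log n) := by
    have := le_abs_self C
    nlinarith
  refine e1.trans ?_
  rw [le_div_iff₀ (by positivity)]
  rw [div_lt_div_iff₀ hnpos (by positivity)] at h1
  have h6 : (|C| + 1) * (1 + Real.log n) * (4 * ((1 + Nat.log 2 n : ℕ) : ℝ)) ≤
      (|C| + 1) * (1 + Real.log n) * (4 * (2 * (1 + Real.log n))) := by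
    have : 0 ≤ |C| := abs_nonneg C
    gcongr
  nlinarith

end Pool.Agent.V11237.WPL
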